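import Mathlib

set_option autoImplicit false

namespace Pool.Agent.Lib.MP_625934_al

/-- The two alternative laws. -/
structure IsAlt (A : Type) [NonUnitalNonAssocRing A] : Prop where
  l : ∀ x y : A, x * x * y = x * (x * y)
  r : ∀ x y : A, x * y * y = x * (y * y)

/-- The associator. -/
def asc {A : Type} [NonUnitalNonAssocRing A] (a b c : A) : A := a * b * c - a * (b * c)

section Basic

variable {A : Type} [NonUnitalNonAssocRing A]

theorem asc_add1 (a a' b c : A) : asc (a + a') b c = asc a b c + asc a' b c := by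
  simp only [asc, add_mul]; abel

theorem asc_add2 (a b b' c : A) : asc a (b + b') c = asc a b c + asc a b' c := by
  simp only [asc, add_mul, mul_add]; abel

theorem asc_add3 (a b c c' : A) : asc a b (c + c') = asc a b c + asc a b c' := by
  simp only [asc, mul_add]; abel

theorem asc_neg1 (a b c : A) : asc (-a) b c = -asc a b c := by
  simp only [asc, neg_mul]; abel

theorem asc_neg2 (a b c : A) : asc a (-b) c = -asc a b c := by
  simp only [asc, neg_mul, mul_neg]; abel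

theorem asc_neg3 (a b c : A) : asc a b (-c) = -asc a b c := by
  simp only [asc, mul_neg]; abel

theorem asc_sub1 (a a' b c : A) : asc (a - a') b c = asc a b c - asc a' b c := by
  simp only [asc, sub_mul]; abel

theorem asc_zero1 (b c : A) : asc 0 b c = 0 := by simp [asc]

theorem asc_zero2 (a c : A) : asc a 0 c = 0 := by simp [asc]

theorem asc_zero3 (a b : A) : asc a b 0 = 0 := by simp [asc]

theorem map_asc {B : Type} [NonUnitalNonAssocRing B] (f : A →ₙ+* B) (a b c : A) :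
    f (asc a b c) = asc (f a) (f b) (f c) := by
  simp only [asc, map_sub, map_mul]

theorem IsAlt.aab (h : IsAlt A) (a b : A) : asc a a b = 0 := sub_eq_zero.2 (h.l a b)

theorem IsAlt.abb (h : IsAlt A) (a b : A) : asc a b b = 0 := sub_eq_zero.2 (h.r a b)

theorem IsAlt.add12 (h : IsAlt A) (a b c : A) : asc a b c + asc b a c = 0 := by
  have h1 := h.aab (a + b) c
  rw [asc_add1, asc_add2, asc_add2, h.aab, h.aab, zero_add, add_zero] at h1
  exact h1

theorem IsAlt.add23 (h : IsAlt A) (a b c : A) : asc a b c + asc a c b = 0 := by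
  have h1 := h.abb a (b + c)
  rw [asc_add2, asc_add3, asc_add3, h.abb, h.abb, zero_add, add_zero] at h1
  exact h1

theorem IsAlt.swap12 (h : IsAlt A) (a b c : A) : asc a b c = -asc b a c :=
  eq_neg_of_add_eq_zero_left (h.add12 a b c)

theorem IsAlt.swap23 (h : IsAlt A) (a b c : A) : asc a b c = -asc a c b :=
  eq_neg_of_add_eq_zero_left (h.add23 a b c)

theorem IsAlt.aba (h : IsAlt A) (a b : A) : asc a b a = 0 := by
  rw [h.swap23, h.aab, neg_zero]

theorem IsAlt.cyc (h : IsAlt A) (a b c : A) : asc a b c = asc b c a := by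
  rw [h.swap12, h.swap23, neg_neg]

theorem IsAlt.swap13 (h : IsAlt A) (a b c : A) : asc a b c = -asc c b a := by
  rw [h.cyc a b c, h.swap12]

end Basic

/-! ### Multiplication operators -/

/-- Nonassociative monomials in three letters. -/
inductive Mg : Type
  | x : Mg
  | y : Mg
  | z : Mg
  | m (a b : Mg) : Mg

/-- Noncommutative integer polynomials in the six operator letters. -/
abbrev FP : Type := List (List ℕ × ℤ)

def fsm (c : ℤ) (p : FP) : FP := p.map fun t => (t.1, c * t.2)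

def fcomp (p q : FP) : FP := p.flatMap fun s => q.map fun t => (s.1 ++ t.1, s.2 * t.2)

def fsub (p q : FP) : FP := p ++ fsm (-1) q

def finsert (w : List ℕ) (c : ℤ) : FP → FP
  | [] => [(w, c)]
  | t :: p => if w = t.1 then (if c + t.2 = 0 then p else (w, c + t.2) :: p) else t :: finsert w c p

def fnorm : FP → FP
  | [] => []
  | t :: p => finsert t.1 t.2 (fnorm p)

/-- The right and left multiplication operators of a monomial. -/
def RL : Mg → FP × FP
  | Mg.x => ([([0], 1)], [([3], 1)])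
  | Mg.y => ([([1], 1)], [([4], 1)])
  | Mg.z => ([([2], 1)], [([5], 1)])
  | Mg.m a b =>
    (fnorm (fcomp (RL b).1 (RL a).1 ++ fsub (fcomp (RL b).1 (RL a).2) (fcomp (RL a).2 (RL b).1)),
     fnorm (fsub (fcomp (RL a).2 (RL b).2)
      (fsub (fcomp (RL b).1 (RL a).2) (fcomp (RL a).2 (RL b).1))))

def Rm (a : Mg) : FP := (RL a).1
def Lm (a : Mg) : FP := (RL a).2

def commP (a b : Mg) : FP := fsub (fcomp (Rm b) (Lm a)) (fcomp (Lm a) (Rm b))

def ascX (X : Mg → FP) (a b c : Mg) : FP := fsub (X (.m (.m a b) c)) (X (.m a (.m b c)))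

/-- Descriptors of operator relations. -/
abbrev RD : Type := ℕ × Mg × Mg × Mg

def relX (X : Mg → FP) (k : ℕ) (a b c : Mg) : FP :=
  match k with
  | 0 => ascX X a a c
  | 1 => ascX X a b b
  | 2 => ascX X a b c ++ ascX X b a c
  | _ => ascX X a b c ++ ascX X a c b

def relP (r : RD) : FP :=
  fnorm (if r.1 = 0 then commP r.2.1 r.2.1
    else if r.1 = 1 then commP r.2.1 r.2.2.1 ++ commP r.2.2.1 r.2.1
    else if r.1 < 6 then relX Rm (r.1 - 2) r.2.1 r.2.2.1 r.2.2.2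
    else relX Lm (r.1 - 6) r.2.1 r.2.2.1 r.2.2.2)

/-- `d ↦ (d, a, b)`. -/
def ascP (a b : Mg) : FP := fsub (fcomp (Rm b) (Rm a)) (Rm (.m a b))

/-- `d ↦ (d a) b - d (b a)`. -/
def omR (a b : Mg) : FP := fnorm (fsub (fcomp (Rm b) (Rm a)) (Rm (.m b a)))

/-- `d ↦ a (b d) - (b a) d`. -/
def omL (a b : Mg) : FP := fnorm (fsub (fcomp (Lm a) (Lm b)) (Lm (.m b a)))

abbrev FC : Type := ℤ × List ℕ × RD × List ℕ

def fcTerm (t : FC) : FP := fcomp [(t.2.2.2, t.1)] (fcomp (relP t.2.2.1) [(t.2.1, 1)])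

def fcheck (p : FP) (c : List FC) : Bool := (fnorm (fsub p (c.flatMap fcTerm))).isEmpty

section Act

variable {A : Type} [NonUnitalNonAssocRing A]

/-- Letters `0,1,2` multiply on the right by a generator, letters `3,4,5` on the left. -/
def opA (g : ℕ → A) (l : ℕ) (d : A) : A := if l < 3 then d * g l else g (l - 3) * d

def actW (g : ℕ → A) : List ℕ → A → A
  | [], d => d
  | l :: w, d => opA g l (actW g w d)

def actP (g : ℕ → A) : FP → A → A
  | [], _ => 0
  | t :: p, d => t.2 • actW g t.1 d + actP g p d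

def ev (g : ℕ → A) : Mg → A
  | Mg.x => g 0
  | Mg.y => g 1
  | Mg.z => g 2
  | Mg.m a b => ev g a * ev g b

variable (g : ℕ → A)

theorem opA_add (l : ℕ) (d e : A) : opA g l (d + e) = opA g l d + opA g l e := by
  unfold opA; split_ifs
  · exact add_mul _ _ _
  · exact mul_add _ _ _

theorem opA_zero (l : ℕ) : opA g l 0 = 0 := by
  unfold opA; split_ifs <;> simp

/-- `opA` as an additive map. -/
def opH (l : ℕ) : A →+ A where
  toFun := opA g l
  map_zero' := opA_zero g l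
  map_add' := opA_add g l

theorem opA_zsmul (l : ℕ) (c : ℤ) (d : A) : opA g l (c • d) = c • opA g l d :=
  map_zsmul (opH g l) c d

theorem opA_sub (l : ℕ) (d e : A) : opA g l (d - e) = opA g l d - opA g l e :=
  map_sub (opH g l) d e

theorem opA_neg (l : ℕ) (d : A) : opA g l (-d) = -opA g l d :=
  map_neg (opH g l) d

theorem actW_add (w : List ℕ) (d e : A) : actW g w (d + e) = actW g w d + actW g w e := by
  induction w with
  | nil => rfl
  | cons l w ih => simp only [actW, ih, opA_add]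

theorem actW_zero (w : List ℕ) : actW g w 0 = 0 := by
  induction w with
  | nil => rfl
  | cons l w ih => simp only [actW, ih, opA_zero]

theorem actW_zsmul (w : List ℕ) (c : ℤ) (d : A) : actW g w (c • d) = c • actW g w d := by
  induction w with
  | nil => rfl
  | cons l w ih => simp only [actW, ih, opA_zsmul]

theorem actW_append (w v : List ℕ) (d : A) : actW g (w ++ v) d = actW g w (actW g v d) := by
  induction w with
  | nil => rfl
  | cons l w ih => simp only [List.cons_append, actW, ih]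

theorem actP_zero (p : FP) : actP g p 0 = 0 := by
  induction p with
  | nil => rfl
  | cons t p ih => simp only [actP, ih, actW_zero, smul_zero, add_zero]

theorem actP_append (p q : FP) (d : A) : actP g (p ++ q) d = actP g p d + actP g q d := by
  induction p with
  | nil => simp [actP]
  | cons t p ih => simp only [List.cons_append, actP, ih, add_assoc]

theorem actP_fsm (c : ℤ) (p : FP) (d : A) : actP g (fsm c p) d = c • actP g p d := by
  induction p with
  | nil => simp [actP, fsm]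
  | cons t p ih =>
    have : fsm c (t :: p) = (t.1, c * t.2) :: fsm c p := rfl
    rw [this]
    simp only [actP, ih, smul_add, mul_smul]

theorem actP_fsub (p q : FP) (d : A) : actP g (fsub p q) d = actP g p d - actP g q d := by
  rw [fsub, actP_append, actP_fsm, neg_one_smul, sub_eq_add_neg]

theorem actP_map (w : List ℕ) (c : ℤ) (q : FP) (d : A) :
    actP g (q.map fun t => (w ++ t.1, c * t.2)) d = c • actW g w (actP g q d) := by
  induction q with
  | nil => simp [actP, actW_zero]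
  | cons t q ih =>
    simp only [List.map_cons, actP, ih, actW_append, actW_add, actW_zsmul, smul_add, mul_smul]

theorem actP_fcomp (p q : FP) (d : A) : actP g (fcomp p q) d = actP g p (actP g q d) := by
  induction p with
  | nil => rfl
  | cons s p ih =>
    have : fcomp (s :: p) q = (q.map fun t => (s.1 ++ t.1, s.2 * t.2)) ++ fcomp p q := rfl
    rw [this, actP_append, actP_map, ih]
    rfl

theorem actP_finsert (w : List ℕ) (c : ℤ) (p : FP) (d : A) :
    actP g (finsert w c p) d = c • actW g w d + actP g p d := by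
  induction p with
  | nil => rfl
  | cons t p ih =>
    unfold finsert
    split_ifs with h1 h2
    · simp only [actP]
      rw [← h1, ← add_assoc, ← add_smul, h2, zero_smul, zero_add]
    · simp only [actP]
      rw [← h1, add_smul, add_assoc]
    · simp only [actP, ih]
      abel

theorem actP_fnorm (p : FP) (d : A) : actP g (fnorm p) d = actP g p d := by
  induction p with
  | nil => rfl
  | cons t p ih => simp only [fnorm, actP_finsert, ih, actP]

theorem actP_single (w : List ℕ) (c : ℤ) (d : A) : actP g [(w, c)] d = c • actW g w d := by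
  simp [actP]

theorem actP_RL (h : IsAlt A) (a : Mg) :
    (∀ d, actP g (RL a).1 d = d * ev g a) ∧ ∀ d, actP g (RL a).2 d = ev g a * d := by
  induction a with
  | x => constructor <;> intro d <;> simp [RL, actP, actW, opA, ev]
  | y => constructor <;> intro d <;> simp [RL, actP, actW, opA, ev]
  | z => constructor <;> intro d <;> simp [RL, actP, actW, opA, ev]
  | m a b iha ihb =>
    constructor
    · intro d
      simp only [RL, actP_fnorm, actP_append, actP_fsub, actP_fcomp, iha.1, iha.2, ihb.1, ev]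
      have := h.add12 d (ev g a) (ev g b)
      unfold asc at this
      rw [← sub_eq_zero, ← this]
      abel
    · intro d
      simp only [RL, actP_fnorm, actP_fsub, actP_fcomp, iha.2, ihb.1, ihb.2, ev]
      have := h.add23 (ev g a) (ev g b) d
      unfold asc at this
      rw [← sub_eq_zero, ← neg_eq_zero, ← this]
      abel

theorem actP_Rm (h : IsAlt A) (a : Mg) (d : A) : actP g (Rm a) d = d * ev g a :=
  (actP_RL g h a).1 d

theorem actP_Lm (h : IsAlt A) (a : Mg) (d : A) : actP g (Lm a) d = ev g a * d :=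
  (actP_RL g h a).2 d

theorem actP_commP (h : IsAlt A) (a b : Mg) (d : A) :
    actP g (commP a b) d = asc (ev g a) d (ev g b) := by
  simp only [commP, actP_fsub, actP_fcomp, actP_Rm g h, actP_Lm g h, asc]

theorem actP_ascP (h : IsAlt A) (a b : Mg) (d : A) :
    actP g (ascP a b) d = asc d (ev g a) (ev g b) := by
  simp only [ascP, actP_fsub, actP_fcomp, actP_Rm g h, asc, ev]

theorem actP_omR (h : IsAlt A) (a b : Mg) (d : A) :
    actP g (omR a b) d = d * ev g a * ev g b - d * (ev g b * ev g a) := by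
  simp only [omR, actP_fnorm, actP_fsub, actP_fcomp, actP_Rm g h, ev]

theorem actP_omL (h : IsAlt A) (a b : Mg) (d : A) :
    actP g (omL a b) d = ev g a * (ev g b * d) - ev g b * ev g a * d := by
  simp only [omL, actP_fnorm, actP_fsub, actP_fcomp, actP_Lm g h, ev]

theorem actP_relX (h : IsAlt A) (X : Mg → FP) (f : A →+ A) (d : A)
    (hX : ∀ a, actP g (X a) d = f (ev g a)) (k : ℕ) (a b c : Mg) :
    actP g (relX X k a b c) d = 0 := by
  have h1 : ∀ a b c, actP g (ascX X a b c) d = f (asc (ev g a) (ev g b) (ev g c)) := by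
    intro a b c
    simp only [ascX, actP_fsub, hX, ev, asc, map_sub]
  unfold relX
  split
  · rw [h1, h.aab, map_zero]
  · rw [h1, h.abb, map_zero]
  · rw [actP_append, h1, h1, ← map_add, h.add12, map_zero]
  · rw [actP_append, h1, h1, ← map_add, h.add23, map_zero]

theorem actP_relP (h : IsAlt A) (r : RD) (d : A) : actP g (relP r) d = 0 := by
  unfold relP
  rw [actP_fnorm]
  split_ifs
  · rw [actP_commP g h, h.aba]
  · rw [actP_append, actP_commP g h, actP_commP g h, h.swap13, neg_add_cancel]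
  · exact actP_relX g h Rm (AddMonoidHom.mulLeft d) d (fun a => actP_Rm g h a d) _ _ _ _
  · exact actP_relX g h Lm (AddMonoidHom.mulRight d) d (fun a => actP_Lm g h a d) _ _ _ _

theorem actP_of_fcheck (h : IsAlt A) (p : FP) (c : List FC) (hc : fcheck p c = true) (d : A) :
    actP g p d = 0 := by
  have h1 : actP g (c.flatMap fcTerm) d = 0 := by
    clear hc
    induction c with
    | nil => rfl
    | cons t c ih =>
      rw [List.flatMap_cons, actP_append, ih, add_zero, fcTerm, actP_fcomp, actP_fcomp,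
        actP_relP g h, actP_zero]
  have h2 : fnorm (fsub p (c.flatMap fcTerm)) = [] := List.isEmpty_iff.1 hc
  have h3 := actP_fnorm g (fsub p (c.flatMap fcTerm)) d
  rw [h2, actP_fsub, h1, sub_zero] at h3
  exact h3.symm

theorem map_opA {B : Type} [NonUnitalNonAssocRing B] (f : A →ₙ+* B) (l : ℕ) (d : A) :
    f (opA g l d) = opA (fun i => f (g i)) l (f d) := by
  unfold opA; split_ifs <;> simp

theorem map_actW {B : Type} [NonUnitalNonAssocRing B] (f : A →ₙ+* B) (w : List ℕ) (d : A) :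
    f (actW g w d) = actW (fun i => f (g i)) w (f d) := by
  induction w with
  | nil => rfl
  | cons l w ih => simp only [actW, map_opA, ih]

theorem map_actP {B : Type} [NonUnitalNonAssocRing B] (f : A →ₙ+* B) (p : FP) (d : A) :
    f (actP g p d) = actP (fun i => f (g i)) p (f d) := by
  induction p with
  | nil => simp [actP]
  | cons t p ih => simp only [actP, map_add, map_zsmul, map_actW, ih]

end Act

/-! ### Four identities of alternative rings, by certificates -/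

def certE1a : List FC :=
  [(1, [], (1, Mg.x, (Mg.m Mg.y Mg.x), Mg.x), []),
   (1, [], (1, Mg.x, Mg.y, Mg.x), [3]),
   (-1, [], (1, Mg.x, Mg.y, Mg.x), [0]),
   (-2, [4], (0, Mg.x, Mg.x, Mg.x), []),
   (-2, [], (3, Mg.y, Mg.x, Mg.x), []),
   (3, [], (0, Mg.x, Mg.x, Mg.x), [4]),
   (-3, [1], (0, Mg.x, Mg.x, Mg.x), []),
   (-1, [0], (1, Mg.x, Mg.y, Mg.x), [])]

def certE1b : List FC :=
  [(-1, [], (1, Mg.x, (Mg.m Mg.x Mg.y), Mg.x), []),
   (5, [4], (0, Mg.x, Mg.x, Mg.x), []),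
   (-1, [], (1, Mg.x, Mg.y, Mg.x), [3]),
   (-2, [], (1, Mg.x, (Mg.m Mg.y Mg.x), Mg.x), []),
   (2, [], (1, Mg.x, Mg.y, Mg.x), [0]),
   (4, [], (3, Mg.y, Mg.x, Mg.x), []),
   (-6, [], (0, Mg.x, Mg.x, Mg.x), [4]),
   (1, [], (0, Mg.x, Mg.x, Mg.x), [1]),
   (6, [1], (0, Mg.x, Mg.x, Mg.x), []),
   (2, [0], (1, Mg.x, Mg.y, Mg.x), [])]

def certE2R : List FC :=
  [(-23, [], (1, Mg.y, (Mg.m Mg.y Mg.x), Mg.y), [0]),
   (21, [], (1, Mg.x, (Mg.m Mg.y Mg.y), Mg.x), [0]),
   (17, [], (0, Mg.y, Mg.y, Mg.y), [0, 3]),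
   (19, [], (0, Mg.y, Mg.y, Mg.y), [0, 0]),
   (-23, [], (1, Mg.x, Mg.y, Mg.x), [0, 1]),
   (-23, [], (2, Mg.y, Mg.y, Mg.x), [0]),
   (-5, [], (1, Mg.x, (Mg.m Mg.x (Mg.m Mg.y Mg.y)), Mg.x), []),
   (5, [4, 4], (0, Mg.x, Mg.x, Mg.x), []),
   (3, [], (1, Mg.x, (Mg.m Mg.y Mg.y), Mg.x), [3]),
   (8, [], (0, Mg.y, Mg.y, Mg.y), [3, 3]),
   (7, [], (0, Mg.y, Mg.y, Mg.y), [3, 0]),
   (6, [3], (0, Mg.y, Mg.y, Mg.y), [3]),
   (-1, [3], (0, Mg.y, Mg.y, Mg.y), [0]),
   (1, [3, 3], (0, Mg.y, Mg.y, Mg.y), []),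
   (1, [], (1, Mg.x, (Mg.m Mg.x Mg.y), Mg.x), [1]),
   (11, [4], (0, Mg.x, Mg.x, Mg.x), [1]),
   (-13, [], (1, Mg.x, Mg.y, Mg.x), [1, 3]),
   (-6, [], (1, Mg.x, Mg.y, Mg.x), [0, 4]),
   (6, [0, 4], (1, Mg.x, Mg.y, Mg.x), []),
   (6, [], (1, Mg.x, Mg.y, Mg.x), [3, 1]),
   (21, [], (1, Mg.x, Mg.y, Mg.x), [4, 0]),
   (-2, [], (1, Mg.x, (Mg.m (Mg.m Mg.y Mg.y) Mg.x), Mg.x), []),
   (19, [3], (1, Mg.x, (Mg.m Mg.y Mg.y), Mg.x), []),
   (-6, [], (1, Mg.x, (Mg.m Mg.y Mg.x), Mg.x), [1]),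
   (6, [], (1, Mg.x, Mg.y, Mg.x), [1, 0]),
   (12, [], (3, Mg.y, Mg.x, Mg.x), [1]),
   (-4, [], (2, Mg.y, Mg.y, (Mg.m Mg.x Mg.x)), []),
   (-9, [4], (0, Mg.x, Mg.x, Mg.x), [4]),
   (-4, [], (0, Mg.x, Mg.x, Mg.x), [4, 4]),
   (4, [0, 3], (0, Mg.y, Mg.y, Mg.y), []),
   (-26, [], (0, Mg.x, Mg.x, Mg.x), [4, 1]),
   (4, [], (0, Mg.x, Mg.x, Mg.x), [1, 1]),
   (-8, [4, 1], (0, Mg.x, Mg.x, Mg.x), []),
   (-16, [1], (1, Mg.x, Mg.y, Mg.x), [0]),
   (-8, [1], (1, Mg.x, (Mg.m Mg.y Mg.x), Mg.x), []),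
   (-8, [1], (1, Mg.x, Mg.y, Mg.x), [3]),
   (-14, [3, 1], (1, Mg.x, Mg.y, Mg.x), []),
   (8, [], (1, Mg.x, (Mg.m Mg.x Mg.y), Mg.x), [4]),
   (8, [], (1, Mg.x, Mg.y, Mg.x), [4, 3]),
   (-15, [3], (1, Mg.y, (Mg.m Mg.y Mg.x), Mg.y), []),
   (7, [3], (1, Mg.x, Mg.y, Mg.x), [4]),
   (-15, [3], (1, Mg.x, Mg.y, Mg.x), [1]),
   (-30, [3], (2, Mg.y, Mg.y, Mg.x), []),
   (16, [], (1, Mg.x, (Mg.m Mg.y Mg.x), Mg.x), [4]),
   (-9, [], (3, Mg.y, Mg.x, Mg.x), [4]),
   (-9, [1], (0, Mg.x, Mg.x, Mg.x), [4]),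
   (18, [1], (0, Mg.x, Mg.x, Mg.x), [1]),
   (10, [1, 1], (0, Mg.x, Mg.x, Mg.x), []),
   (-6, [4, 0], (1, Mg.x, Mg.y, Mg.x), []),
   (-6, [0], (1, Mg.x, (Mg.m Mg.y Mg.y), Mg.x), []),
   (-16, [0], (0, Mg.y, Mg.y, Mg.y), [3]),
   (-24, [0], (1, Mg.x, Mg.y, Mg.x), [4]),
   (14, [0], (1, Mg.x, Mg.y, Mg.x), [1]),
   (19, [3, 0], (0, Mg.y, Mg.y, Mg.y), []),
   (8, [0], (1, Mg.y, (Mg.m Mg.y Mg.x), Mg.y), []),
   (16, [0], (2, Mg.y, Mg.y, Mg.x), []),
   (16, [1, 0], (1, Mg.x, Mg.y, Mg.x), []),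
   (-4, [0, 0], (0, Mg.y, Mg.y, Mg.y), [])]

def certE2L : List FC :=
  [(1, [], (1, Mg.y, (Mg.m Mg.y Mg.x), Mg.y), [3]),
   (2, [], (0, Mg.y, Mg.y, Mg.y), [3, 3]),
   (-2, [], (1, Mg.x, Mg.y, Mg.x), [3, 4]),
   (2, [], (2, Mg.y, Mg.y, Mg.x), [3]),
   (5, [0, 4], (1, Mg.x, Mg.y, Mg.x), []),
   (-5, [], (1, Mg.x, Mg.y, Mg.x), [0, 4]),
   (-8, [], (1, Mg.x, Mg.y, Mg.x), [1, 3]),
   (12, [], (1, Mg.x, Mg.y, Mg.x), [4, 0]),
   (9, [], (1, Mg.x, (Mg.m Mg.y Mg.x), Mg.x), [4]),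
   (5, [], (1, Mg.x, Mg.y, Mg.x), [4, 3]),
   (4, [3], (1, Mg.x, Mg.y, Mg.x), [4]),
   (-8, [3], (1, Mg.y, (Mg.m Mg.y Mg.x), Mg.y), []),
   (10, [3], (1, Mg.x, (Mg.m Mg.y Mg.y), Mg.x), []),
   (5, [3], (0, Mg.y, Mg.y, Mg.y), [3]),
   (-8, [3], (1, Mg.x, Mg.y, Mg.x), [1]),
   (-16, [3], (2, Mg.y, Mg.y, Mg.x), []),
   (11, [], (1, Mg.x, (Mg.m Mg.y Mg.y), Mg.x), [0]),
   (9, [], (0, Mg.y, Mg.y, Mg.y), [0, 3]),
   (10, [], (0, Mg.y, Mg.y, Mg.y), [0, 0]),
   (-1, [], (1, Mg.x, (Mg.m (Mg.m Mg.y Mg.y) Mg.x), Mg.x), []),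
   (3, [], (0, Mg.y, Mg.y, Mg.y), [3, 0]),
   (6, [4], (0, Mg.x, Mg.x, Mg.x), [1]),
   (-3, [], (1, Mg.x, (Mg.m Mg.y Mg.x), Mg.x), [1]),
   (3, [], (1, Mg.x, Mg.y, Mg.x), [1, 0]),
   (6, [], (3, Mg.y, Mg.x, Mg.x), [1]),
   (-2, [], (1, Mg.x, (Mg.m Mg.x (Mg.m Mg.y Mg.y)), Mg.x), []),
   (2, [4, 4], (0, Mg.x, Mg.x, Mg.x), []),
   (-2, [], (2, Mg.y, Mg.y, (Mg.m Mg.x Mg.x)), []),
   (-6, [4], (0, Mg.x, Mg.x, Mg.x), [4]),
   (2, [0, 3], (0, Mg.y, Mg.y, Mg.y), []),
   (-13, [], (0, Mg.x, Mg.x, Mg.x), [4, 1]),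
   (2, [], (0, Mg.x, Mg.x, Mg.x), [1, 1]),
   (-4, [4, 1], (0, Mg.x, Mg.x, Mg.x), []),
   (-2, [1], (1, Mg.x, Mg.y, Mg.x), [3]),
   (-8, [1], (1, Mg.x, Mg.y, Mg.x), [0]),
   (-8, [3, 1], (1, Mg.x, Mg.y, Mg.x), []),
   (-4, [1], (1, Mg.x, (Mg.m Mg.y Mg.x), Mg.x), []),
   (4, [], (1, Mg.x, (Mg.m Mg.x Mg.y), Mg.x), [4]),
   (6, [], (1, Mg.x, Mg.y, Mg.x), [3, 1]),
   (-6, [], (3, Mg.y, Mg.x, Mg.x), [4]),
   (-12, [], (1, Mg.y, (Mg.m Mg.y Mg.x), Mg.y), [0]),
   (-12, [], (1, Mg.x, Mg.y, Mg.x), [0, 1]),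
   (-12, [], (2, Mg.y, Mg.y, Mg.x), [0]),
   (-7, [1], (0, Mg.x, Mg.x, Mg.x), [4]),
   (9, [1], (0, Mg.x, Mg.x, Mg.x), [1]),
   (5, [1, 1], (0, Mg.x, Mg.x, Mg.x), []),
   (-5, [4, 0], (1, Mg.x, Mg.y, Mg.x), []),
   (-2, [0], (1, Mg.x, (Mg.m Mg.y Mg.y), Mg.x), []),
   (-7, [0], (0, Mg.y, Mg.y, Mg.y), [3]),
   (-11, [0], (1, Mg.x, Mg.y, Mg.x), [4]),
   (6, [0], (1, Mg.x, Mg.y, Mg.x), [1]),
   (9, [3, 0], (0, Mg.y, Mg.y, Mg.y), []),
   (3, [0], (1, Mg.y, (Mg.m Mg.y Mg.x), Mg.y), []),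
   (6, [0], (2, Mg.y, Mg.y, Mg.x), []),
   (6, [1, 0], (1, Mg.x, Mg.y, Mg.x), []),
   (-1, [0, 0], (0, Mg.y, Mg.y, Mg.y), [])]

theorem checkE1a : fcheck (fsub (fcomp (ascP .x .y) (Rm .x)) (fcomp (Lm .x) (ascP .x .y)))
    certE1a = true := by decide +kernel

theorem checkE1b : fcheck (fsub (fcomp (ascP .x .y) (Lm .x)) (fcomp (Rm .x) (ascP .x .y)))
    certE1b = true := by decide +kernel

theorem checkE2R : fcheck (fcomp (omR .x .y) (ascP .x .y)) certE2R = true := by decide +kernel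

theorem checkE2L : fcheck (fcomp (omL .x .y) (ascP .x .y)) certE2L = true := by decide +kernel

section Ident

variable {A : Type} [NonUnitalNonAssocRing A]

/-- The generator family given by two elements. -/
def g2 (a b : A) : ℕ → A := fun i => if i = 0 then a else b

theorem IsAlt.e1a (h : IsAlt A) (w a b : A) : asc (w * a) a b = a * asc w a b := by
  have := actP_of_fcheck (g2 a b) h _ _ checkE1a w
  simp only [actP_fsub, actP_fcomp, actP_ascP _ h, actP_Rm _ h, actP_Lm _ h, ev, g2] at this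
  simpa [sub_eq_zero] using this

theorem IsAlt.e1b (h : IsAlt A) (w a b : A) : asc (a * w) a b = asc w a b * a := by
  have := actP_of_fcheck (g2 a b) h _ _ checkE1b w
  simp only [actP_fsub, actP_fcomp, actP_ascP _ h, actP_Rm _ h, actP_Lm _ h, ev, g2] at this
  simpa [sub_eq_zero] using this

theorem IsAlt.e1c (h : IsAlt A) (w a b : A) : asc (w * b) a b = b * asc w a b := by
  rw [h.swap23, h.e1a, h.swap23 w a b, mul_neg]

theorem IsAlt.e1d (h : IsAlt A) (w a b : A) : asc (b * w) a b = asc w a b * b := by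
  rw [h.swap23, h.e1b, h.swap23 w a b, neg_mul]

/-- The right Cayley defect. -/
def wR (d a b : A) : A := d * a * b - d * (b * a)

/-- The left Cayley defect. -/
def wL (d a b : A) : A := a * (b * d) - b * a * d

theorem IsAlt.e2R (h : IsAlt A) (w a b : A) : wR (asc w a b) a b = 0 := by
  have := actP_of_fcheck (g2 a b) h _ _ checkE2R w
  simp only [actP_fcomp, actP_ascP _ h, actP_omR _ h, ev, g2] at this
  simpa [wR] using this

theorem IsAlt.e2L (h : IsAlt A) (w a b : A) : wL (asc w a b) a b = 0 := by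
  have := actP_of_fcheck (g2 a b) h _ _ checkE2L w
  simp only [actP_fcomp, actP_ascP _ h, actP_omL _ h, ev, g2] at this
  simpa [wL] using this

end Ident

end Pool.Agent.Lib.MP_625934_al
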