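import Pool.Agent.Lib.MP_625934_al.TData

set_option autoImplicit false

namespace Pool.Agent.Lib.MP_625934_al

abbrev CT : Type := List (ℤ × ℕ × ℕ × ℕ)

def rdL : List RD :=
  [(0, .x, .x, .x),
   (0, .y, .y, .y),
   (0, .z, .z, .z),
   (1, .x, .m (.m .z .x) .y, .x),
   (1, .x, .m (.m .z .y) .x, .x),
   (1, .x, .m (.m .z .y) .y, .x),
   (1, .x, .m (.m .z .z) .y, .x),
   (1, .x, .m .x .y, .x),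
   (1, .x, .m .x .z, .x),
   (1, .x, .m .y .x, .x),
   (1, .x, .m .y .y, .x),
   (1, .x, .m .y .z, .x),
   (1, .x, .m .z .x, .x),
   (1, .x, .m .z .y, .x),
   (1, .x, .m .z .z, .x),
   (1, .x, .y, .x),
   (1, .x, .z, .x),
   (1, .y, .m .x .z, .y),
   (1, .y, .m .y .x, .y),
   (1, .y, .m .y .z, .y),
   (1, .y, .m .z .x, .y),
   (1, .y, .m .z .y, .y),
   (1, .y, .m .z .z, .y),
   (1, .y, .z, .y),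
   (1, .z, .m .z .x, .z),
   (1, .z, .m .z .y, .z),
   (2, .y, .y, .x),
   (2, .z, .z, .x),
   (2, .z, .z, .y),
   (3, .y, .x, .x),
   (3, .z, .x, .x),
   (3, .z, .y, .y),
   (4, .z, .y, .x)]

def certA0 : List CT :=
  [[],
   [(-1, 1, 0, 0)],
   [],
   [],
   [(-2, 3, 0, 0), (-1, 1, 0, 2), (1, 1, 7, 0), (1, 1, 9, 0), (-1, 2, 15, 0), (-1, 1, 29, 0)],
   [(-2, 5, 0, 0), (-1, 1, 0, 3), (1, 1, 8, 0), (1, 1, 12, 0), (-1, 2, 16, 0), (-1, 1, 30, 0)],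
   [],
   [(-6, 15, 0, 0), (-1, 5, 0, 2), (-1, 3, 0, 3), (1, 1, 0, 6), (-1, 1, 3, 0), (-1, 1, 4, 0), (1,
    5, 7, 0), (1, 3, 8, 0), (1, 5, 9, 0), (3, 3, 12, 0), (1, 2, 13, 0), (-1, 10, 15, 0), (-1, 2,
    15, 3), (1, 1, 15, 5), (-1, 6, 16, 0), (-1, 3, 16, 1), (-1, 5, 29, 0), (1, 1, 29, 3), (-3, 3,
    30, 0)]]

def certA1 : List CT :=
  [[],
   [(-1, 1, 15, 0), (-1, 1, 100, 0), (1, 1, 101, 0)],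
   [(-1, 1, 1, 0)],
   [],
   [(-1, 2, 1, 0), (-1, 3, 15, 0), (1, 1, 15, 2), (1, 1, 18, 0), (1, 1, 26, 0)],
   [(2, 1, 11, 0), (3, 1, 13, 0), (-2, 5, 15, 0), (-2, 1, 15, 3), (-2, 3, 16, 0), (-1, 1, 16, 2),
    (2, 1, 17, 0), (-1, 1, 20, 0), (-2, 2, 23, 0), (1, 1, 23, 1), (-2, 1, 32, 0)],
   [(-2, 5, 1, 0), (-1, 1, 1, 3), (1, 1, 19, 0), (1, 1, 21, 0), (-1, 3, 23, 0), (-1, 1, 31, 0)],
   [(1, 10, 1, 0), (-1, 19, 1, 0), (4, 5, 1, 1), (-3, 2, 1, 3), (-5, 1, 1, 5), (-1, 1, 5, 0), (4,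
    5, 10, 0), (-3, 1, 10, 3), (-1, 1, 11, 2), (-1, 3, 13, 0), (1, 1, 13, 2), (-1, 15, 15, 0), (1,
    23, 15, 0), (-3, 5, 15, 2), (-2, 3, 15, 3), (5, 1, 15, 6), (3, 11, 16, 0), (1, 3, 16, 2), (-4,
    5, 18, 0), (8, 1, 18, 3), (2, 3, 20, 0), (1, 1, 20, 2), (-1, 1, 21, 1), (-3, 6, 23, 0), (3,
    17, 23, 0), (1, 3, 23, 1), (1, 2, 23, 2), (-2, 1, 23, 4), (-4, 5, 26, 0), (8, 1, 26, 3), (2,
    3, 32, 0)]]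

def certA2 : List CT :=
  [[],
   [(1, 1, 16, 0), (1, 1, 104, 0), (-1, 1, 105, 0)],
   [(-1, 1, 23, 0), (-1, 1, 102, 0), (1, 1, 103, 0)],
   [(-1, 1, 2, 0)],
   [(1, 1, 15, 3), (-1, 1, 17, 0)],
   [(-1, 2, 2, 0), (-1, 5, 16, 0), (1, 1, 16, 3), (1, 1, 24, 0), (1, 1, 27, 0)],
   [(-1, 3, 2, 0), (-1, 5, 23, 0), (1, 1, 23, 3), (1, 1, 25, 0), (1, 1, 28, 0)],
   [(-6, 6, 2, 0), (5, 17, 2, 0), (-2, 3, 2, 1), (1, 2, 2, 2), (5, 1, 2, 4), (1, 1, 6, 0), (20,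
    5, 11, 0), (-4, 1, 11, 3), (31, 5, 13, 0), (5, 1, 13, 3), (1, 3, 14, 0), (-2, 1, 14, 2), (-4,
    13, 15, 0), (-20, 25, 15, 0), (-16, 5, 15, 3), (-22, 15, 16, 0), (1, 23, 16, 0), (-10, 5, 16,
    2), (1, 3, 16, 3), (-6, 1, 16, 6), (20, 5, 17, 0), (-12, 5, 20, 0), (-16, 10, 23, 0), (-4, 19,
    23, 0), (8, 5, 23, 1), (-3, 1, 24, 2), (-3, 3, 27, 0), (-24, 5, 32, 0)]]

def certA3 : List CT :=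
  [[],
   [],
   [(-1, 1, 15, 0), (-1, 1, 100, 0)],
   [(1, 1, 104, 0)],
   [(2, 3, 0, 0), (-1, 1, 7, 0), (-1, 1, 9, 0), (1, 2, 15, 0), (1, 1, 29, 0)],
   [(2, 5, 0, 0), (-1, 1, 8, 0), (-1, 1, 12, 0), (1, 2, 16, 0), (1, 1, 30, 0)],
   [(-4, 1, 11, 0), (-8, 1, 13, 0), (3, 5, 15, 0), (4, 1, 15, 3), (4, 3, 16, 0), (5, 1, 16, 2),
    (-4, 1, 17, 0), (3, 1, 20, 0), (3, 2, 23, 0), (-1, 1, 23, 1), (6, 1, 32, 0), (-1, 5, 100, 0),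
    (-1, 2, 102, 0), (1, 2, 103, 0), (1, 3, 104, 0)],
   [(-1, 15, 0, 0), (1, 23, 0, 0), (-1, 1, 3, 0), (-1, 1, 4, 0), (-1, 5, 9, 0), (2, 3, 12, 0),
    (1, 2, 13, 0), (1, 5, 15, 1), (-1, 2, 15, 3), (1, 1, 15, 5), (-1, 3, 16, 1), (1, 5, 29, 0),
    (1, 1, 29, 3), (-2, 3, 30, 0)]]

def certA4 : List CT :=
  [[],
   [(1, 1, 15, 0), (2, 1, 100, 0), (-1, 1, 101, 0)],
   [],
   [(-1, 1, 23, 0), (-1, 1, 102, 0)],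
   [(-1, 1, 1, 1), (-1, 1, 10, 0), (1, 3, 15, 0), (1, 1, 18, 0), (1, 1, 26, 0), (1, 3, 100, 0)],
   [(2, 1, 11, 0), (5, 1, 13, 0), (-1, 5, 15, 0), (-3, 1, 15, 3), (-2, 3, 16, 0), (-4, 1, 16, 2),
    (2, 1, 17, 0), (-2, 1, 20, 0), (-1, 2, 23, 0), (-4, 1, 32, 0), (1, 5, 100, 0), (1, 2, 102, 0),
    (-1, 2, 103, 0), (-1, 3, 104, 0)],
   [(2, 5, 1, 0), (-1, 1, 19, 0), (-1, 1, 21, 0), (1, 3, 23, 0), (1, 1, 31, 0)],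
   [(1, 5, 1, 1), (1, 1, 10, 3), (1, 15, 15, 0), (-1, 5, 15, 2), (-1, 1, 15, 6), (-1, 5, 18, 0),
    (-1, 1, 18, 3), (-1, 5, 26, 0), (-1, 1, 26, 3), (1, 23, 100, 0)]]

def certA5 : List CT :=
  [[],
   [(-2, 1, 16, 0), (-2, 1, 104, 0), (1, 1, 105, 0)],
   [(1, 1, 23, 0), (2, 1, 102, 0), (-1, 1, 103, 0)],
   [],
   [(-1, 1, 11, 0), (-3, 1, 13, 0), (1, 5, 15, 0), (1, 1, 15, 3), (1, 3, 16, 0), (2, 1, 16, 2),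
    (-1, 1, 17, 0), (1, 1, 20, 0), (2, 1, 32, 0), (-1, 2, 102, 0), (1, 2, 103, 0)],
   [(-1, 1, 2, 1), (-1, 1, 14, 0), (1, 1, 24, 0), (1, 1, 27, 0), (-1, 5, 104, 0)],
   [(-1, 1, 2, 2), (-1, 1, 22, 0), (1, 5, 23, 0), (1, 1, 25, 0), (1, 1, 28, 0), (1, 5, 102, 0)],
   [(-5, 6, 2, 0), (5, 17, 2, 0), (-2, 3, 2, 1), (1, 2, 2, 2), (5, 1, 2, 4), (20, 5, 11, 0), (-4,
    1, 11, 3), (32, 5, 13, 0), (4, 1, 13, 3), (1, 3, 14, 0), (-2, 1, 14, 2), (-4, 13, 15, 0),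
    (-20, 25, 15, 0), (-16, 5, 15, 3), (-22, 15, 16, 0), (1, 23, 16, 0), (-10, 5, 16, 2), (1, 3,
    16, 3), (-6, 1, 16, 6), (20, 5, 17, 0), (-12, 5, 20, 0), (-16, 10, 23, 0), (-4, 19, 23, 0),
    (8, 5, 23, 1), (-3, 1, 24, 2), (-3, 3, 27, 0), (-24, 5, 32, 0), (-1, 23, 104, 0)]]

def certA : List (List CT) := [certA0, certA1, certA2, certA3, certA4, certA5]

def certB0 : List CT :=
  []

def certB1 : List CT :=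
  [[(-1, 1, 15, 0), (-1, 1, 100, 0), (1, 1, 101, 0)]]

def certB2 : List CT :=
  [[(1, 1, 16, 0), (1, 1, 104, 0), (-1, 1, 105, 0)],
   [(-1, 1, 23, 0), (-1, 1, 102, 0), (1, 1, 103, 0)]]

def certB3 : List CT :=
  [[(1, 1, 0, 1)],
   [(2, 3, 0, 0), (-1, 1, 9, 0), (1, 1, 15, 1), (1, 1, 29, 0)],
   [(2, 5, 0, 0), (-1, 1, 12, 0), (1, 1, 16, 1), (1, 1, 30, 0)]]

def certB4 : List CT :=
  [[(-1, 1, 1, 1), (-1, 1, 10, 0), (-1, 3, 15, 0), (2, 1, 15, 2), (2, 1, 18, 0), (2, 1, 26, 0)],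
   [(1, 1, 1, 2)],
   [(2, 5, 1, 0), (-1, 1, 21, 0), (1, 1, 23, 2), (1, 1, 31, 0)],
   [(-2, 9, 0, 0), (-1, 11, 0, 0), (-1, 3, 0, 2), (-1, 7, 1, 0), (1, 3, 7, 0), (1, 3, 9, 0), (1,
    1, 9, 2), (-1, 6, 15, 0), (-1, 1, 15, 4), (-1, 3, 29, 0)]]

def certB5 : List CT :=
  [[(-1, 1, 2, 1), (-1, 1, 14, 0), (-1, 5, 16, 0), (2, 1, 16, 3), (2, 1, 24, 0), (2, 1, 27, 0)],
   [(-1, 1, 2, 2), (-1, 1, 22, 0), (-1, 5, 23, 0), (2, 1, 23, 3), (2, 1, 25, 0), (2, 1, 28, 0)],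
   [(1, 1, 2, 3)],
   [(-1, 13, 0, 0), (-2, 25, 0, 0), (-1, 5, 0, 3), (-1, 7, 2, 0), (1, 5, 8, 0), (1, 5, 12, 0),
    (1, 1, 12, 3), (-1, 10, 16, 0), (-1, 1, 16, 5), (-1, 5, 30, 0)],
   [(-1, 13, 1, 0), (-2, 25, 1, 0), (-1, 5, 1, 3), (-1, 11, 2, 0), (1, 5, 19, 0), (1, 5, 21, 0),
    (1, 1, 21, 3), (-1, 15, 23, 0), (-1, 1, 23, 6), (-1, 5, 31, 0)]]

def certB6 : List CT :=
  [[(2, 3, 0, 0), (-1, 1, 0, 2), (-1, 1, 9, 0), (1, 1, 29, 0), (-1, 2, 100, 0), (1, 2, 101, 0)],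
   [(-2, 1, 1, 1), (-1, 1, 10, 0), (1, 1, 15, 2), (2, 1, 18, 0), (2, 1, 26, 0)],
   [(1, 1, 11, 0), (3, 1, 13, 0), (-1, 5, 15, 0), (-1, 1, 15, 3), (-1, 3, 16, 0), (-2, 1, 16, 2),
    (1, 1, 17, 0), (-1, 1, 20, 0), (-2, 1, 32, 0), (1, 2, 102, 0), (-1, 2, 103, 0)],
   [(1, 6, 0, 0), (-1, 17, 0, 0), (-1, 2, 0, 2), (2, 1, 0, 4), (-1, 2, 7, 0), (-1, 1, 9, 1), (1,
    4, 15, 0), (1, 7, 15, 0)],
   [(2, 6, 1, 0), (-2, 17, 1, 0), (-1, 3, 1, 1), (-1, 2, 1, 2), (2, 1, 1, 4), (-1, 1, 18, 2),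
    (-1, 3, 26, 0)],
   [(-1, 6, 2, 0), (1, 17, 2, 0), (-4, 3, 2, 1), (-1, 2, 2, 2), (8, 1, 2, 4), (24, 5, 11, 0),
    (-6, 1, 11, 3), (39, 5, 13, 0), (3, 1, 13, 3), (-4, 13, 15, 0), (-24, 25, 15, 0), (-18, 5, 15,
    3), (-26, 15, 16, 0), (2, 23, 16, 0), (-15, 5, 16, 2), (2, 3, 16, 3), (-5, 1, 16, 6), (24, 5,
    17, 0), (-15, 5, 20, 0), (-3, 1, 20, 3), (-1, 2, 22, 0), (2, 1, 22, 1), (-17, 10, 23, 0), (-6,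
    19, 23, 0), (7, 5, 23, 1), (3, 1, 23, 5), (-4, 1, 24, 2), (-4, 3, 27, 0), (-30, 5, 32, 0)]]

def certB7 : List CT :=
  [[(2, 5, 0, 0), (-1, 1, 0, 3), (-1, 1, 12, 0), (2, 2, 16, 0), (1, 1, 30, 0), (1, 2, 104, 0),
    (-1, 2, 105, 0)],
   [(2, 1, 11, 0), (2, 1, 13, 0), (-1, 5, 15, 0), (-2, 1, 15, 3), (-1, 3, 16, 0), (-1, 1, 16, 2),
    (1, 1, 17, 0), (-1, 1, 20, 0), (-2, 2, 23, 0), (-2, 1, 32, 0), (-1, 2, 102, 0), (1, 2, 103,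
    0)],
   [(-2, 1, 2, 1), (-1, 1, 14, 0), (1, 1, 16, 3), (2, 1, 24, 0), (2, 1, 27, 0)],
   [(1, 10, 0, 0), (-1, 19, 0, 0), (-1, 2, 0, 3), (2, 1, 0, 5), (-1, 2, 8, 0), (-1, 1, 12, 1),
    (1, 4, 16, 0), (1, 7, 16, 0)],
   [(1, 10, 1, 0), (-1, 19, 1, 0), (1, 5, 1, 1), (-1, 2, 1, 3), (-1, 1, 1, 5), (1, 5, 10, 0),
    (-1, 1, 10, 3), (-1, 5, 15, 2), (-2, 3, 15, 3), (3, 1, 15, 6), (2, 11, 16, 0), (-1, 5, 18, 0),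
    (3, 1, 18, 3), (-1, 2, 19, 0), (-1, 1, 21, 1), (1, 17, 23, 0), (1, 3, 23, 1), (-1, 1, 23, 4),
    (-1, 5, 26, 0), (3, 1, 26, 3)],
   [(2, 10, 2, 0), (-2, 19, 2, 0), (-1, 5, 2, 1), (-1, 2, 2, 3), (2, 1, 2, 5), (-1, 1, 24, 3),
    (-1, 5, 27, 0)],
   [(5, 15, 0, 0), (-1, 23, 0, 0), (1, 5, 0, 2), (1, 3, 0, 3), (-1, 1, 0, 6), (-1, 5, 7, 0), (-1,
    3, 8, 0), (-1, 5, 9, 0), (-1, 1, 9, 3), (1, 2, 11, 0), (1, 1, 11, 1), (-1, 3, 12, 0), (-1, 1,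
    12, 2), (-1, 2, 13, 0), (1, 1, 13, 1), (1, 10, 15, 0), (-1, 5, 15, 1), (1, 17, 16, 0), (-1, 3,
    16, 1), (1, 2, 16, 2), (1, 1, 16, 4), (1, 1, 20, 1), (-1, 4, 23, 0), (2, 7, 23, 0), (-1, 2,
    23, 1), (1, 5, 29, 0), (-1, 1, 29, 3), (1, 3, 30, 0), (-1, 4, 102, 0), (1, 4, 103, 0)]]

def certB8 : List CT :=
  [[(-3, 1, 11, 0), (-5, 1, 13, 0), (2, 5, 15, 0), (2, 1, 15, 3), (3, 3, 16, 0), (2, 1, 16, 2),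
    (-2, 1, 17, 0), (2, 1, 20, 0), (2, 2, 23, 0), (-1, 1, 23, 1), (4, 1, 32, 0), (-1, 5, 100, 0),
    (1, 5, 101, 0), (-1, 2, 102, 0), (1, 2, 103, 0)],
   [(2, 5, 1, 0), (-1, 1, 1, 3), (-1, 1, 21, 0), (1, 1, 31, 0), (-1, 3, 102, 0), (1, 3, 103, 0)],
   [(-2, 1, 2, 2), (-1, 1, 22, 0), (1, 1, 23, 3), (2, 1, 25, 0), (2, 1, 28, 0)],
   [(3, 15, 0, 0), (-1, 23, 0, 0), (1, 5, 0, 2), (1, 3, 0, 3), (-1, 5, 7, 0), (-1, 3, 8, 0), (-1,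
    5, 9, 0), (-1, 1, 9, 3), (-1, 1, 12, 2), (1, 10, 15, 0), (1, 1, 15, 5), (1, 6, 16, 0), (-1, 3,
    16, 1), (1, 1, 16, 4), (2, 7, 23, 0), (1, 5, 29, 0)],
   [(1, 15, 1, 0), (-1, 23, 1, 0), (-1, 3, 1, 3), (2, 1, 1, 6), (-1, 3, 19, 0), (-1, 1, 21, 2),
    (1, 9, 23, 0), (1, 11, 23, 0)],
   [(2, 15, 2, 0), (-2, 23, 2, 0), (-1, 5, 2, 2), (-1, 3, 2, 3), (2, 1, 2, 6), (-1, 1, 25, 3),
    (-1, 5, 28, 0)],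
   [(-1, 10, 1, 0), (1, 19, 1, 0), (2, 1, 1, 5), (-1, 5, 10, 0), (2, 1, 10, 3), (1, 1, 11, 2),
    (1, 3, 13, 0), (1, 15, 15, 0), (-1, 23, 15, 0), (1, 3, 15, 3), (-3, 1, 15, 6), (-2, 11, 16,
    0), (-1, 3, 16, 2), (-4, 1, 18, 3), (1, 2, 19, 0), (-1, 3, 20, 0), (1, 1, 21, 1), (1, 6, 23,
    0), (-2, 17, 23, 0), (-1, 3, 23, 1), (-1, 2, 23, 2), (1, 1, 23, 4), (-4, 1, 26, 3), (-1, 3,
    32, 0), (-1, 17, 102, 0), (1, 17, 103, 0)],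
   [(6, 6, 2, 0), (-6, 17, 2, 0), (7, 3, 2, 1), (-14, 1, 2, 4), (-46, 5, 11, 0), (11, 1, 11, 3),
    (-74, 5, 13, 0), (-7, 1, 13, 3), (-1, 3, 14, 0), (2, 1, 14, 2), (9, 13, 15, 0), (46, 25, 15,
    0), (35, 5, 15, 3), (50, 15, 16, 0), (-4, 23, 16, 0), (26, 5, 16, 2), (-3, 3, 16, 3), (11, 1,
    16, 6), (-46, 5, 17, 0), (28, 5, 20, 0), (3, 1, 20, 3), (1, 2, 22, 0), (-2, 1, 22, 1), (35,
    10, 23, 0), (11, 19, 23, 0), (-16, 5, 23, 1), (-1, 2, 23, 3), (-3, 1, 23, 5), (7, 1, 24, 2),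
    (7, 3, 27, 0), (56, 5, 32, 0)]]

def certB9 : List CT :=
  [[(-13, 15, 0, 0), (1, 23, 0, 0), (-3, 5, 0, 2), (-3, 3, 0, 3), (-1, 1, 0, 6), (3, 5, 7, 0),
    (3, 3, 8, 0), (2, 5, 9, 0), (3, 1, 9, 3), (1, 2, 11, 0), (-1, 1, 11, 1), (4, 3, 12, 0), (2, 1,
    12, 2), (-1, 1, 13, 1), (-2, 10, 15, 0), (-1, 19, 15, 0), (1, 5, 15, 1), (-1, 2, 15, 3), (-3,
    1, 15, 5), (-4, 6, 16, 0), (1, 3, 16, 1), (-3, 1, 16, 4), (-4, 7, 23, 0), (-2, 5, 29, 0), (-1,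
    1, 29, 3), (-4, 3, 30, 0), (-1, 19, 100, 0), (1, 19, 101, 0), (-1, 17, 104, 0)],
   [(-4, 10, 1, 0), (4, 19, 1, 0), (-9, 5, 1, 1), (2, 2, 1, 3), (13, 1, 1, 5), (1, 1, 5, 0), (-8,
    5, 10, 0), (7, 1, 10, 3), (1, 3, 11, 0), (4, 1, 11, 2), (8, 3, 13, 0), (-4, 1, 13, 2), (4, 15,
    15, 0), (-4, 23, 15, 0), (4, 5, 15, 2), (-1, 3, 15, 3), (-7, 1, 15, 6), (-1, 9, 16, 0), (-7,
    11, 16, 0), (-5, 3, 16, 2), (8, 5, 18, 0), (-16, 1, 18, 3), (1, 2, 19, 0), (-8, 3, 20, 0),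
    (-2, 1, 20, 2), (2, 1, 21, 1), (6, 6, 23, 0), (-7, 17, 23, 0), (-1, 3, 23, 1), (-1, 2, 23, 2),
    (3, 1, 23, 4), (8, 5, 26, 0), (-16, 1, 26, 3), (-8, 3, 32, 0), (-1, 9, 104, 0)],
   [(3, 6, 2, 0), (-3, 17, 2, 0), (3, 3, 2, 1), (1, 2, 2, 2), (-6, 1, 2, 4), (-17, 5, 11, 0), (4,
    1, 11, 3), (-27, 5, 13, 0), (-4, 1, 13, 3), (1, 1, 14, 2), (4, 13, 15, 0), (18, 25, 15, 0),
    (13, 5, 15, 3), (19, 15, 16, 0), (-2, 23, 16, 0), (8, 5, 16, 2), (-1, 3, 16, 3), (5, 1, 16,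
    6), (-18, 5, 17, 0), (10, 5, 20, 0), (14, 10, 23, 0), (5, 19, 23, 0), (-8, 5, 23, 1), (2, 1,
    24, 2), (2, 3, 27, 0), (20, 5, 32, 0), (1, 19, 102, 0), (-1, 19, 103, 0), (-1, 23, 104, 0)],
   [(-2, 29, 0, 0), (-13, 30, 0, 0), (2, 46, 0, 0), (-18, 57, 0, 0), (-3, 85, 0, 0), (2, 15, 0,
    1), (-2, 23, 0, 1), (-2, 10, 0, 2), (-3, 19, 0, 2), (4, 6, 0, 3), (-2, 17, 0, 3), (-2, 5, 0,
    4), (-4, 3, 0, 5), (1, 1, 0, 7), (3, 10, 7, 0), (4, 19, 7, 0), (2, 6, 8, 0), (1, 17, 8, 0),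
    (4, 10, 9, 0), (10, 19, 9, 0), (1, 5, 9, 1), (3, 17, 12, 0), (2, 3, 12, 1), (1, 2, 12, 2),
    (-1, 1, 12, 4), (-3, 20, 15, 0), (1, 35, 15, 0), (-4, 38, 15, 0), (-2, 10, 15, 1), (-6, 19,
    15, 1), (-2, 7, 15, 3), (-2, 12, 16, 0), (-1, 34, 16, 0), (-2, 17, 16, 1), (-2, 7, 16, 2),
    (-2, 7, 23, 1), (-6, 10, 29, 0), (-14, 19, 29, 0), (2, 2, 29, 3), (-3, 17, 30, 0)],
   [(-2, 30, 1, 0), (-1, 57, 1, 0), (3, 85, 1, 0), (2, 15, 1, 1), (1, 23, 1, 1), (-1, 10, 1, 2),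
    (8, 6, 1, 3), (-10, 17, 1, 3), (-4, 5, 1, 4), (-4, 3, 1, 5), (13, 1, 1, 7), (-1, 3, 5, 0), (1,
    15, 10, 0), (1, 5, 10, 2), (2, 3, 10, 3), (-3, 1, 10, 6), (-1, 11, 11, 0), (1, 9, 13, 0), (-1,
    45, 15, 0), (2, 55, 15, 0), (1, 69, 15, 0), (-1, 15, 15, 2), (-1, 23, 15, 2), (-2, 9, 15, 3),
    (-3, 11, 15, 3), (3, 3, 15, 6), (2, 33, 16, 0), (-1, 11, 16, 2), (-1, 23, 18, 0), (2, 5, 18,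
    2), (-7, 1, 18, 6), (-1, 3, 21, 1), (-1, 18, 23, 0), (1, 51, 23, 0), (1, 9, 23, 1), (1, 6, 23,
    2), (-1, 3, 23, 4), (2, 15, 26, 0), (-1, 23, 26, 0), (-7, 3, 26, 3)],
   [(-2, 29, 2, 0), (-125, 30, 2, 0), (2, 46, 2, 0), (19, 57, 2, 0), (106, 85, 2, 0), (2, 15, 2,
    1), (42, 23, 2, 1), (34, 10, 2, 2), (-33, 19, 2, 2), (-94, 6, 2, 3), (95, 17, 2, 3), (-50, 5,
    2, 4), (-2, 3, 2, 5), (-2, 2, 2, 6), (1, 1, 2, 7), (-26, 13, 11, 0), (53, 25, 11, 0), (20, 5,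
    11, 3), (-214, 13, 13, 0), (53, 25, 13, 0), (73, 5, 13, 3), (34, 15, 14, 0), (-16, 23, 14, 0),
    (-3, 5, 14, 2), (-16, 3, 14, 3), (82, 65, 15, 0), (-53, 125, 15, 0), (26, 13, 15, 3), (-73,
    25, 15, 3), (44, 39, 16, 0), (-58, 75, 16, 0), (5, 115, 16, 0), (154, 13, 16, 2), (3, 25, 16,
    2), (-13, 15, 16, 3), (16, 23, 16, 3), (-78, 5, 16, 6), (-60, 13, 17, 0), (53, 25, 17, 0),
    (58, 13, 20, 0), (126, 5, 20, 3), (-1, 19, 22, 0), (2, 5, 22, 1), (60, 26, 23, 0), (-106, 50,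
    23, 0), (54, 95, 23, 0), (2, 13, 23, 1), (51, 25, 23, 1), (33, 10, 23, 3), (-33, 19, 23, 3),
    (-126, 5, 23, 5), (-18, 23, 24, 0), (24, 5, 24, 2), (1, 1, 24, 6), (8, 23, 27, 0), (120, 13,
    32, 0)],
   [(-106, 45, 0, 0), (-37, 55, 0, 0), (-202, 69, 0, 0), (-62, 15, 0, 2), (-43, 23, 0, 2), (-14,
    9, 0, 3), (-6, 11, 0, 3), (22, 3, 0, 6), (-4, 20, 1, 0), (-97, 35, 1, 0), (4, 38, 1, 0), (3,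
    10, 1, 1), (23, 19, 1, 1), (2, 4, 1, 3), (-5, 7, 1, 3), (-3, 2, 1, 5), (1, 2, 5, 0), (55, 15,
    7, 0), (50, 23, 7, 0), (17, 3, 7, 3), (-17, 1, 7, 6), (4, 11, 8, 0), (49, 15, 9, 0), (105, 23,
    9, 0), (66, 5, 9, 2), (7, 3, 9, 3), (-17, 1, 9, 6), (10, 10, 10, 0), (16, 19, 10, 0), (-31, 5,
    10, 1), (-9, 2, 10, 3), (14, 1, 10, 5), (-4, 6, 11, 0), (5, 17, 11, 0), (-9, 3, 11, 1), (1,
    11, 12, 0), (2, 6, 13, 0), (-6, 17, 13, 0), (1, 3, 13, 1), (-6, 2, 13, 2), (-34, 29, 15, 0),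
    (-88, 30, 15, 0), (-23, 46, 15, 0), (4, 57, 15, 0), (36, 85, 15, 0), (73, 15, 15, 1), (-82,
    23, 15, 1), (-11, 10, 15, 2), (14, 19, 15, 2), (26, 6, 15, 3), (-41, 17, 15, 3), (-95, 5, 15,
    4), (-37, 3, 15, 5), (-7, 2, 15, 6), (63, 1, 15, 7), (4, 18, 16, 0), (-9, 22, 16, 0), (-5, 51,
    16, 0), (-1, 9, 16, 1), (-1, 11, 16, 1), (-1, 17, 16, 2), (10, 3, 16, 4), (-27, 19, 18, 0),
    (1, 4, 19, 0), (4, 17, 20, 0), (-7, 3, 20, 1), (-4, 1, 20, 4), (2, 2, 21, 1), (4, 12, 23, 0),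
    (1, 21, 23, 0), (-5, 34, 23, 0), (8, 6, 23, 1), (-6, 17, 23, 1), (-1, 4, 23, 2), (-3, 7, 23,
    2), (5, 2, 23, 4), (-27, 19, 26, 0), (-49, 15, 29, 0), (-154, 23, 29, 0), (4, 3, 29, 3), (4,
    1, 29, 6), (-1, 11, 30, 0), (-1, 51, 104, 0)],
   [(234, 39, 0, 0), (-114, 75, 0, 0), (-76, 115, 0, 0), (23, 13, 0, 2), (-31, 25, 0, 2), (-50,
    15, 0, 3), (-14, 23, 0, 3), (-42, 5, 0, 6), (5, 12, 2, 0), (-16, 21, 2, 0), (-5, 34, 2, 0),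
    (-11, 6, 2, 1), (8, 17, 2, 1), (-61, 7, 2, 2), (-1, 2, 2, 4), (-43, 13, 7, 0), (31, 25, 7, 0),
    (63, 15, 8, 0), (1, 23, 8, 0), (14, 1, 8, 6), (-134, 13, 9, 0), (31, 25, 9, 0), (31, 5, 9, 3),
    (1, 10, 11, 0), (-1, 19, 11, 0), (10, 5, 11, 1), (64, 23, 12, 0), (42, 5, 12, 2), (36, 3, 12,
    3), (14, 1, 12, 6), (-10, 10, 13, 0), (6, 19, 13, 0), (21, 5, 13, 1), (6, 2, 13, 3), (-12, 1,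
    13, 5), (-2, 17, 14, 0), (6, 3, 14, 1), (49, 26, 15, 0), (-32, 50, 15, 0), (1, 95, 15, 0),
    (85, 13, 15, 1), (-10, 25, 15, 1), (5, 10, 15, 3), (-36, 5, 15, 5), (15, 29, 16, 0), (-47, 30,
    16, 0), (-18, 46, 16, 0), (1, 57, 16, 0), (-16, 85, 16, 0), (19, 15, 16, 1), (-46, 23, 16, 1),
    (-23, 19, 16, 2), (-22, 6, 16, 3), (24, 17, 16, 3), (-15, 5, 16, 4), (-8, 3, 16, 5), (8, 2,
    16, 6), (-44, 1, 16, 7), (5, 19, 20, 0), (11, 5, 20, 1), (-5, 1, 20, 5), (-1, 20, 23, 0),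
    (-21, 35, 23, 0), (2, 38, 23, 0), (-10, 10, 23, 1), (-6, 19, 23, 1), (-59, 7, 23, 3), (5, 2,
    23, 5), (2, 17, 24, 0), (165, 13, 29, 0), (-31, 25, 29, 0), (9, 5, 29, 3), (-64, 23, 30, 0),
    (-23, 1, 30, 6), (1, 38, 102, 0), (-1, 38, 103, 0), (-1, 29, 104, 0)],
   [(-27, 50, 1, 0), (27, 95, 1, 0), (31, 13, 1, 1), (-10, 25, 1, 1), (-2, 10, 1, 3), (4, 19, 1,
    3), (1, 5, 1, 5), (-18, 18, 2, 0), (18, 51, 2, 0), (-10, 11, 2, 1), (-14, 6, 2, 2), (14, 17,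
    2, 2), (1, 5, 5, 0), (15, 13, 10, 0), (-9, 25, 10, 0), (8, 5, 10, 3), (1, 23, 11, 0), (28, 5,
    11, 2), (9, 15, 13, 0), (15, 23, 13, 0), (-14, 5, 13, 2), (16, 3, 13, 3), (-1, 1, 13, 6), (-1,
    11, 14, 0), (1, 39, 15, 0), (28, 75, 15, 0), (-28, 115, 15, 0), (-16, 13, 15, 2), (-19, 25,
    15, 2), (-26, 15, 15, 3), (-1, 23, 15, 3), (21, 5, 15, 6), (-16, 55, 16, 0), (-1, 69, 16, 0),
    (4, 15, 16, 2), (-15, 23, 16, 2), (4, 11, 16, 3), (-15, 3, 16, 6), (-3, 1, 17, 6), (-31, 13,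
    18, 0), (9, 25, 18, 0), (-2, 5, 18, 3), (-24, 15, 20, 0), (20, 5, 20, 2), (16, 3, 20, 3), (-1,
    1, 20, 6), (-4, 10, 21, 0), (4, 19, 21, 0), (1, 5, 21, 1), (-1, 29, 23, 0), (7, 30, 23, 0),
    (1, 46, 23, 0), (-7, 85, 23, 0), (25, 15, 23, 1), (-9, 23, 23, 1), (3, 10, 23, 2), (-2, 19,
    23, 2), (-14, 6, 23, 3), (14, 17, 23, 3), (-21, 5, 23, 4), (-18, 3, 23, 5), (2, 2, 23, 6), (1,
    1, 23, 7), (9, 11, 24, 0), (-31, 13, 26, 0), (9, 25, 26, 0), (-2, 5, 26, 3), (8, 11, 27, 0),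
    (-8, 23, 32, 0), (1, 29, 102, 0), (-1, 29, 103, 0), (-1, 69, 104, 0)]]

def certB : List (List CT) := [certB0, certB1, certB2, certB3, certB4, certB5, certB6, certB7, certB8, certB9]

def certKR : List CT :=
  [[(2, 3, 0, 0), (-2, 1, 9, 0), (2, 1, 15, 1), (2, 1, 29, 0), (1, 1, 100, 0)],
   [(2, 2, 1, 0), (2, 1, 1, 1), (2, 1, 10, 0), (-2, 1, 15, 2), (-4, 1, 18, 0), (-4, 1, 26, 0),
    (1, 1, 101, 0)],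
   [],
   [(-2, 6, 0, 0), (-1, 1, 0, 4), (1, 2, 7, 0), (1, 2, 9, 0), (-1, 4, 15, 0), (-1, 7, 15, 0),
    (-1, 2, 29, 0)],
   [(-4, 6, 1, 0), (4, 17, 1, 0), (2, 3, 1, 1), (1, 2, 1, 2), (-5, 1, 1, 4), (1, 1, 10, 2), (1,
    11, 15, 0), (-1, 3, 15, 2), (2, 1, 18, 2), (2, 3, 26, 0)],
   [],
   [(1, 9, 0, 0), (-2, 11, 0, 0), (1, 4, 1, 0), (-1, 2, 1, 1), (-1, 3, 9, 0), (-1, 2, 10, 0), (2,
    6, 15, 0), (-2, 17, 15, 0), (1, 3, 15, 1), (-1, 2, 15, 2), (2, 1, 15, 4), (1, 3, 29, 0), (1,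
    3, 100, 0), (-1, 1, 104, 0)],
   [(1, 15, 0, 0), (-1, 5, 9, 0), (1, 5, 15, 1), (1, 5, 29, 0), (1, 1, 102, 0)],
   [(1, 10, 1, 0), (1, 5, 1, 1), (1, 5, 10, 0), (-1, 5, 15, 2), (-2, 5, 18, 0), (-2, 5, 26, 0),
    (1, 1, 103, 0)],
   [(1, 45, 0, 0), (-8, 55, 0, 0), (-11, 69, 0, 0), (1, 15, 0, 2), (-3, 23, 0, 2), (-2, 11, 0,
    3), (1, 35, 1, 0), (3, 38, 1, 0), (1, 19, 1, 1), (-1, 15, 7, 0), (3, 23, 7, 0), (2, 11, 8, 0),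
    (5, 23, 9, 0), (-1, 19, 10, 0), (4, 11, 12, 0), (1, 30, 15, 0), (-3, 46, 15, 0), (-1, 15, 15,
    1), (-2, 23, 15, 1), (1, 19, 15, 2), (-2, 22, 16, 0), (-2, 11, 16, 1), (-2, 19, 18, 0), (-8,
    23, 29, 0), (-6, 11, 30, 0), (2, 19, 101, 0), (-1, 3, 102, 0), (1, 5, 104, 0), (-1, 1, 107,
    0)]]

def certKL : List CT :=
  [[(-4, 3, 0, 0), (2, 1, 9, 0), (-2, 1, 29, 0), (-1, 1, 100, 0)],
   [(-2, 1, 1, 1), (-2, 1, 10, 0), (-2, 3, 15, 0), (4, 1, 15, 2), (4, 1, 18, 0), (4, 1, 26, 0),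
    (-1, 1, 101, 0)],
   [],
   [(-4, 6, 0, 0), (1, 3, 0, 1), (-1, 1, 0, 4), (1, 2, 7, 0), (2, 2, 9, 0), (-1, 4, 15, 0), (-1,
    2, 15, 1), (-2, 2, 29, 0)],
   [(2, 6, 1, 0), (-2, 17, 1, 0), (-1, 3, 1, 1), (3, 1, 1, 4), (1, 3, 10, 0), (-1, 1, 10, 2),
    (-1, 9, 15, 0), (1, 3, 15, 2), (-2, 1, 18, 2), (-2, 3, 26, 0)],
   [],
   [(-2, 9, 0, 0), (-2, 11, 0, 0), (1, 2, 1, 1), (1, 3, 9, 0), (-1, 2, 10, 0), (1, 6, 15, 0),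
    (-1, 3, 29, 0), (-1, 3, 100, 0), (-1, 1, 104, 0)],
   [(-2, 15, 0, 0), (1, 5, 9, 0), (-1, 5, 29, 0), (-1, 5, 100, 0), (1, 1, 102, 0)],
   [(-1, 5, 1, 1), (-1, 5, 10, 0), (-1, 15, 15, 0), (2, 5, 15, 2), (2, 5, 18, 0), (2, 5, 26, 0),
    (-1, 5, 101, 0), (1, 1, 103, 0)],
   [(-2, 45, 0, 0), (8, 55, 0, 0), (2, 69, 0, 0), (1, 15, 0, 2), (-2, 23, 0, 2), (2, 11, 0, 3),
    (1, 35, 1, 0), (1, 19, 1, 1), (-2, 15, 7, 0), (2, 23, 7, 0), (-2, 11, 8, 0), (1, 15, 9, 0),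
    (-1, 23, 9, 0), (-1, 19, 10, 0), (-4, 11, 12, 0), (2, 30, 15, 0), (-2, 46, 15, 0), (3, 57, 15,
    0), (1, 15, 15, 1), (-2, 23, 15, 1), (-2, 19, 15, 2), (1, 5, 15, 4), (2, 22, 16, 0), (2, 11,
    16, 1), (-2, 19, 18, 0), (-1, 23, 29, 0), (6, 11, 30, 0), (-3, 15, 100, 0), (2, 23, 100, 0),
    (-2, 10, 101, 0), (2, 19, 101, 0), (2, 3, 102, 0), (3, 2, 103, 0), (1, 5, 104, 0), (-1, 1,
    107, 0)]]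

end Pool.Agent.Lib.MP_625934_al
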