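import Pool.Agent.Lib.MP_625934_al.Facts
import Pool.Agent.Lib.MP_625934_al.CData

set_option autoImplicit false

namespace Pool.Agent.Lib.MP_625934_al

open MvPolynomial

def relK (k : ℕ) : FP := relP (rdL.getD k (0, .x, .x, .x))

def noE (p : FP) : Bool := p.all fun t => !t.1.isEmpty

theorem chk_noE : allLt 33 (fun k => noE (relK k)) = true := by decide +kernel

theorem noE_relK (k : ℕ) : noE (relK k) = true := by
  by_cases h : k < 33
  · exact allLt_spec chk_noE k h
  · rw [relK, List.getD_eq_default _ _ (not_lt.1 h)]
    decide +kernel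

def cterm (ext : List SV) : ℤ × ℕ × ℕ × ℕ → SV
  | (c, m, k, j) =>
    sscale m c (bif Nat.blt k 100 then scand sopM (relK k) (sbas j) else ext.getD (k - 100) [])

def csum (ext : List SV) : CT → SV
  | [] => []
  | t :: l => sadd (cterm ext t) (csum ext l)

def cchk (ext : List SV) (t : SV) (c : CT) : Bool := seq t (csum ext c)

theorem cchk_sound (Z : Submodule RR CC) (hrel : ∀ k u, cand opM (relK k) u ∈ Z) (ext : List SV)
    (hext : ∀ s ∈ ext, evS bC s ∈ Z) (t : SV) (c : CT) (h : cchk ext t c = true) :
    evS bC t ∈ Z := by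
  rw [evS_of_seq bC h]
  clear h
  induction c with
  | nil => exact Z.zero_mem
  | cons a c ih =>
    obtain ⟨n, m, k, j⟩ := a
    rw [csum, evS_sadd, cterm, evS_sscale]
    refine Z.add_mem (Z.smul_of_tower_mem _ (Z.smul_mem _ ?_)) ih
    cases Nat.blt k 100
    · rw [cond_false]
      by_cases h1 : k - 100 < ext.length
      · rw [List.getD_eq_getElem _ _ h1]
        exact hext _ (List.getElem_mem h1)
      · rw [List.getD_eq_default _ _ (not_lt.1 h1)]
        exact Z.zero_mem
    · rw [cond_true, ← cand_evT opM sopM opM_evT]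
      exact hrel _ _

/-! ### The certificates for the killing step -/

def xC : LX := .sub (.oT 2) (.oT 5)

def extM : List SV :=
  [(LX.comp xG xC).sev (sbas 1), (LX.comp xG xC).sev (sbas 2),
    (LX.comp xG (.comp (.oT 5) xC)).sev (sbas 1), (LX.comp xG (.comp (.oT 5) xC)).sev (sbas 2)] ++
  (List.range 8).map fun j => (LX.comp xG xI).sev (sbas j)

def chkK (om : FP) (c : List CT) : Prop :=
  ∀ a : Fin 10, a ≠ 2 → a ≠ 5 →
    cchk (extM.map (scand sopM om)) (scand sopM om [(prm a, 0, 1)]) (c.getD a []) = true

instance (om : FP) (c : List CT) : Decidable (chkK om c) := by unfold chkK; infer_instance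

theorem chk_KR : chkK (omR .x .y) certKR := by decide +kernel

theorem chk_KL : chkK (omL .x .y) certKL := by decide +kernel

/-! ### The certificates for the main step -/

def omL6 : List FP := [omR .x .y, omL .x .y, omR .y .z, omL .y .z, omR .z .x, omL .z .x]

def extC : List SV := omL6.map fun p => scand sopM p (sbas 0)

def sig (a : Fin 10) : SV := scand sopM (tauP a) (sbas 0)

def pick (m : ℕ) : Fin 10 := ((List.finRange 10).find? fun a => m % prm a == 0).getD 0

def slam : SV → SV
  | [] => []
  | (m, k, c) :: s =>
    sadd (bif k == 0 then sscale (m / prm (pick m)) c (sig (pick m))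
      else sscale m c (lk tabPar k)) (slam s)

def okz (s : SV) : Bool := s.all fun t => t.2.1 != 0 || prm (pick t.1) * (t.1 / prm (pick t.1)) == t.1

theorem chk_okz : allLt 6 (fun l => allLt 8 fun j => okz (lk (tabM.getD l []) j)) = true := by
  decide +kernel

theorem chk_A : allLt 6 (fun l => allLt 8 fun j =>
    cchk extC (sadd (sbas (l + 8 * j)) (sscale 1 (-1) (slam (lk (tabM.getD l []) j))))
      ((certA.getD l []).getD j [])) = true := by
  decide +kernel

theorem chk_B : ∀ a b : Fin 10, b < a →
    cchk extC (sadd (sscale (prm a) 1 (sig b)) (sscale (prm b) (-1) (sig a)))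
      ((certB.getD a []).getD b []) = true := by
  decide +kernel

theorem chk_noE6 : omL6.all noE = true := by decide +kernel

end Pool.Agent.Lib.MP_625934_al
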