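import Pool.Agent.Lib.MP_625934_al.Alt

set_option autoImplicit false

namespace Pool.Agent.Lib.MP_625934_al

/-- Degree of a monomial. -/
def Mg.deg : Mg → ℕ
  | .x => 1
  | .y => 1
  | .z => 1
  | .m a b => a.deg + b.deg

theorem Mg.deg_pos (a : Mg) : 1 ≤ a.deg := by
  induction a with
  | m a b iha ihb => simp only [Mg.deg]; omega
  | _ => simp [Mg.deg]

def Mg.gen (l : ℕ) : Mg := if l = 0 then .x else if l = 1 then .y else .z

theorem Mg.deg_gen (l : ℕ) : (Mg.gen l).deg = 1 := by
  unfold Mg.gen; split_ifs <;> rfl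

section BK

variable {A : Type} [NonUnitalNonAssocRing A] (g : ℕ → A)

theorem ev_gen (l : ℕ) (hl : l < 3) : ev g (Mg.gen l) = g l := by
  interval_cases l <;> rfl

/-- All associators of monomials of total degree at most `n` vanish. -/
def AsLe (n : ℕ) : Prop :=
  ∀ p q r : Mg, p.deg + q.deg + r.deg ≤ n → asc (ev g p) (ev g q) (ev g r) = 0

/-- The monomial `p` begins with the letter `l`. -/
def Starts (l : ℕ) (p : Mg) : Prop :=
  l < 3 ∧ ((ev g p = g l ∧ p.deg = 1) ∨ ∃ p' : Mg, ev g p = g l * ev g p' ∧ p'.deg + 1 = p.deg)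

variable {g}

theorem exists_starts {n : ℕ} (h : AsLe g n) (p : Mg) (hp : p.deg ≤ n) : ∃ l, Starts g l p := by
  induction p with
  | x => exact ⟨0, by omega, Or.inl ⟨rfl, rfl⟩⟩
  | y => exact ⟨1, by omega, Or.inl ⟨rfl, rfl⟩⟩
  | z => exact ⟨2, by omega, Or.inl ⟨rfl, rfl⟩⟩
  | m a b iha _ =>
    simp only [Mg.deg] at hp
    have hb := b.deg_pos
    obtain ⟨l, hl, h1 | ⟨a', h1, h2⟩⟩ := iha (by omega)
    · refine ⟨l, hl, Or.inr ⟨b, ?_, ?_⟩⟩
      · simp only [ev, h1.1]
      · simp only [Mg.deg, h1.2]; omega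
    · refine ⟨l, hl, Or.inr ⟨.m a' b, ?_, ?_⟩⟩
      · have h3 := h (Mg.gen l) a' b (by rw [Mg.deg_gen]; omega)
        rw [ev_gen g l hl] at h3
        simp only [ev, h1]
        exact sub_eq_zero.1 h3
      · simp only [Mg.deg]; omega

theorem IsAlt.e1b_lin (h : IsAlt A) (w a a' b : A) :
    asc (a * w) a' b + asc (a' * w) a b = asc w a' b * a + asc w a b * a' := by
  have h1 := h.e1b w (a + a') b
  simp only [add_mul, mul_add, asc_add1, asc_add2, h.e1b] at h1
  grind

theorem IsAlt.e1a_lin (h : IsAlt A) (w a a' b : A) :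
    asc (w * a) a' b + asc (w * a') a b = a * asc w a' b + a' * asc w a b := by
  have h1 := h.e1a w (a + a') b
  simp only [add_mul, mul_add, asc_add1, asc_add2, h.e1a] at h1
  grind

theorem skew13 (hA : IsAlt A) {n : ℕ} (h : AsLe g n) (a b c d : Mg)
    (hd : a.deg + b.deg + c.deg + d.deg ≤ n + 1) :
    asc (ev g a * ev g b) (ev g c) (ev g d) = -asc (ev g c * ev g b) (ev g a) (ev g d) := by
  have h1 := hA.e1b_lin (ev g b) (ev g a) (ev g c) (ev g d)
  have ha := a.deg_pos
  have hc := c.deg_pos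
  rw [h b c d (by omega), h b a d (by omega), zero_mul, zero_mul, add_zero] at h1
  exact eq_neg_of_add_eq_zero_left h1

theorem skew23 (hA : IsAlt A) {n : ℕ} (h : AsLe g n) (a b c d : Mg)
    (hd : a.deg + b.deg + c.deg + d.deg ≤ n + 1) :
    asc (ev g a * ev g b) (ev g c) (ev g d) = -asc (ev g a * ev g c) (ev g b) (ev g d) := by
  have h1 := hA.e1a_lin (ev g a) (ev g b) (ev g c) (ev g d)
  have hb := b.deg_pos
  have hc := c.deg_pos
  rw [h a c d (by omega), h a b d (by omega), mul_zero, mul_zero, add_zero] at h1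
  exact eq_neg_of_add_eq_zero_left h1

theorem same_start (hA : IsAlt A) {n : ℕ} (h : AsLe g n) (p q r : Mg) (l : ℕ)
    (hd : p.deg + q.deg + r.deg ≤ n + 1) (hq : Starts g l q) (hr : Starts g l r) :
    asc (ev g p) (ev g q) (ev g r) = 0 := by
  obtain ⟨hl, hq⟩ := hq
  obtain ⟨-, hr⟩ := hr
  have hp := p.deg_pos
  have key : ∀ s : Mg, s.deg + 2 + p.deg ≤ n + 1 → asc (g l * ev g s) (g l) (ev g p) = 0 := by
    intro s hs
    have h1 := h s (Mg.gen l) p (by rw [Mg.deg_gen]; omega)
    rw [ev_gen g l hl] at h1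
    rw [hA.e1b, h1, zero_mul]
  rw [hA.cyc]
  rcases hq with ⟨hq, hq'⟩ | ⟨q', hq, hq'⟩
  · rcases hr with ⟨hr, -⟩ | ⟨r', hr, hr'⟩
    · rw [hq, hr, hA.aab]
    · rw [hq, hr, hA.swap12, key r' (by omega), neg_zero]
  · rcases hr with ⟨hr, hr'⟩ | ⟨r', hr, hr'⟩
    · rw [hq, hr, key q' (by omega)]
    · have h1 := skew13 hA h (Mg.gen l) q' r p (by rw [Mg.deg_gen]; omega)
      have h2 := h (Mg.gen l) r' q' (by rw [Mg.deg_gen]; omega)
      rw [ev_gen g l hl] at h1 h2
      rw [hq, h1, hr, sub_eq_zero.1 h2]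
      have h3 := key (.m r' q') (by simp only [Mg.deg]; omega)
      simp only [ev] at h3
      rw [h3, neg_zero]

theorem asc_mul_zero (hA : IsAlt A) {n : ℕ} (h : AsLe g n) (a b q r : Mg)
    (hd : a.deg + b.deg + q.deg + r.deg ≤ n + 1) :
    asc (ev g a * ev g b) (ev g q) (ev g r) = 0 := by
  have ha := a.deg_pos
  have hb := b.deg_pos
  have hq := q.deg_pos
  have hr := r.deg_pos
  obtain ⟨la, sa⟩ := exists_starts h a (by omega)
  obtain ⟨lb, sb⟩ := exists_starts h b (by omega)
  obtain ⟨lq, sq⟩ := exists_starts h q (by omega)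
  obtain ⟨lr, sr⟩ := exists_starts h r (by omega)
  have key : ∀ (a b q r : Mg) (l : ℕ), a.deg + b.deg + q.deg + r.deg ≤ n + 1 → Starts g l q →
      Starts g l r → asc (ev g a * ev g b) (ev g q) (ev g r) = 0 :=
    fun a b q r l hd hq hr => same_start hA h (.m a b) q r l hd hq hr
  have hc : lq = lr ∨ la = lr ∨ la = lq ∨ lb = lr ∨ lb = lq ∨ la = lb := by
    have := sa.1
    have := sb.1
    have := sq.1
    have := sr.1
    omega
  rcases hc with e | e | e | e | e | e <;> subst e
  · exact key a b q r _ hd sq sr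
  · rw [skew13 hA h a b q r hd, key q b a r _ (by omega) sa sr, neg_zero]
  · rw [hA.swap23, skew13 hA h a b r q (by omega), key r b a q _ (by omega) sa sq, neg_neg]
  · rw [skew23 hA h a b q r hd, key a q b r _ (by omega) sb sr, neg_zero]
  · rw [hA.swap23, skew23 hA h a b r q (by omega), key a r b q _ (by omega) sb sq, neg_neg]
  · rw [skew13 hA h a b q r hd, hA.swap23, skew23 hA h q b r a (by omega),
      key q r b a _ (by omega) sb sa]
    simp

theorem asLe_all (hA : IsAlt A) (h0 : asc (g 0) (g 1) (g 2) = 0) (n : ℕ) : AsLe g n := by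
  induction n with
  | zero =>
    intro p q r hd
    have := p.deg_pos
    omega
  | succ n ih =>
    intro p q r hd
    have h1 : asc (g 1) (g 2) (g 0) = 0 := by rw [← hA.cyc, h0]
    have h2 : asc (g 2) (g 0) (g 1) = 0 := by rw [← hA.cyc, h1]
    have h3 : asc (g 1) (g 0) (g 2) = 0 := by rw [hA.swap12, h0, neg_zero]
    have h4 : asc (g 2) (g 1) (g 0) = 0 := by rw [hA.swap12, h1, neg_zero]
    have h5 : asc (g 0) (g 2) (g 1) = 0 := by rw [hA.swap12, h2, neg_zero]
    cases p with
    | m a b => exact asc_mul_zero hA ih a b q r hd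
    | _ =>
      cases q with
      | m a b =>
        rw [hA.cyc]
        exact asc_mul_zero hA ih a b r _ (by simp only [Mg.deg] at hd ⊢; omega)
      | _ =>
        cases r with
        | m a b =>
          rw [← hA.cyc]
          exact asc_mul_zero hA ih a b _ _ (by simp only [Mg.deg] at hd ⊢; omega)
        | _ => simp only [ev, h0, h1, h2, h3, h4, h5, hA.aab, hA.abb, hA.aba]

end BK

/-- `A` is generated by the first three members of the family `g`. -/
def Gens {A : Type} [NonUnitalNonAssocRing A] (g : ℕ → A) : Prop :=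
  ∀ (P : A → Prop) (_zero : P 0) (_mon : ∀ p : Mg, P (ev g p))
    (_add : ∀ a b, P a → P b → P (a + b)) (_neg : ∀ a, P a → P (-a)) (a : A), P a

section Ideal

variable {A : Type} [NonUnitalNonAssocRing A]

theorem Gens.asc_zero {g : ℕ → A} (hg : Gens g) (hA : IsAlt A) (h0 : asc (g 0) (g 1) (g 2) = 0)
    (a b c : A) : asc a b c = 0 := by
  induction a using hg with
  | _zero => exact asc_zero1 _ _
  | _mon p =>
    induction b using hg with
    | _zero => exact asc_zero2 _ _
    | _mon q =>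
      induction c using hg with
      | _zero => exact asc_zero3 _ _
      | _mon r => exact asLe_all hA h0 _ p q r le_rfl
      | _add u v hu hv => rw [asc_add3, hu, hv, add_zero]
      | _neg u hu => rw [asc_neg3, hu, neg_zero]
    | _add u v hu hv => rw [asc_add2, hu, hv, add_zero]
    | _neg u hu => rw [asc_neg2, hu, neg_zero]
  | _add u v hu hv => rw [asc_add1, hu, hv, add_zero]
  | _neg u hu => rw [asc_neg1, hu, neg_zero]

theorem map_ev {B : Type} [NonUnitalNonAssocRing B] (f : A →ₙ+* B) (g : ℕ → A) (p : Mg) :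
    f (ev g p) = ev (fun i => f (g i)) p := by
  induction p with
  | m a b iha ihb => simp only [ev, map_mul, iha, ihb]
  | _ => rfl

theorem Gens.map {B : Type} [NonUnitalNonAssocRing B] {g : ℕ → A} (hg : Gens g) (f : A →ₙ+* B)
    (hf : Function.Surjective f) : Gens fun i => f (g i) := by
  intro P h0 h1 h2 h3 b
  obtain ⟨a, rfl⟩ := hf b
  refine hg (fun a => P (f a)) (by rw [map_zero]; exact h0) ?_ ?_ ?_ a
  · intro p
    rw [map_ev]
    exact h1 p
  · intro a b ha hb
    rw [map_add]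
    exact h2 _ _ ha hb
  · intro a ha
    rw [map_neg]
    exact h3 _ ha

theorem IsAlt.map {B : Type} [NonUnitalNonAssocRing B] (hA : IsAlt A) (f : A →ₙ+* B)
    (hf : Function.Surjective f) : IsAlt B where
  l x y := by
    obtain ⟨a, rfl⟩ := hf x
    obtain ⟨b, rfl⟩ := hf y
    simp only [← map_mul, hA.l]
  r x y := by
    obtain ⟨a, rfl⟩ := hf x
    obtain ⟨b, rfl⟩ := hf y
    simp only [← map_mul, hA.r]

/-- The quotient map of a ring congruence. -/
def qmk (c : RingCon A) : A →ₙ+* c.Quotient where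
  toFun a := (a : c.Quotient)
  map_mul' _ _ := rfl
  map_zero' := rfl
  map_add' _ _ := rfl

theorem qmk_surj (c : RingCon A) : Function.Surjective (qmk c) := fun b => Quotient.exists_rep b

theorem qmk_eq (c : RingCon A) (a b : A) : qmk c a = qmk c b ↔ c a b := c.eq

/-- The congruence of an additive subgroup closed under multiplications. -/
def idl (S : AddSubgroup A) (hS : ∀ a s, s ∈ S → a * s ∈ S ∧ s * a ∈ S) : RingCon A :=
  (TwoSidedIdeal.mk' S S.zero_mem S.add_mem S.neg_mem (fun h => (hS _ _ h).1)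
    (fun h => (hS _ _ h).2)).ringCon

theorem idl_zero (S : AddSubgroup A) (hS : ∀ a s, s ∈ S → a * s ∈ S ∧ s * a ∈ S) (a : A) :
    qmk (idl S hS) a = 0 ↔ a ∈ S := by
  rw [← map_zero (qmk (idl S hS)), qmk_eq, idl, TwoSidedIdeal.rel_iff, sub_zero,
    TwoSidedIdeal.mem_mk']
  rfl

/-- The span of the operator words applied to the basic associator. -/
def DD (g : ℕ → A) : AddSubgroup A :=
  AddSubgroup.closure (Set.range fun w => actW g w (asc (g 0) (g 1) (g 2)))

variable {g : ℕ → A}

theorem DD.base : asc (g 0) (g 1) (g 2) ∈ DD g := AddSubgroup.subset_closure ⟨[], rfl⟩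

theorem DD.opA (l : ℕ) {d : A} (hd : d ∈ DD g) : opA g l d ∈ DD g := by
  induction hd using AddSubgroup.closure_induction with
  | mem x hx =>
    obtain ⟨w, rfl⟩ := hx
    exact AddSubgroup.subset_closure ⟨l :: w, rfl⟩
  | zero => rw [opA_zero]; exact zero_mem _
  | add x y _ _ hx hy => rw [opA_add]; exact add_mem hx hy
  | neg x _ hx => rw [opA_neg]; exact neg_mem hx

theorem DD.actW (w : List ℕ) {d : A} (hd : d ∈ DD g) : actW g w d ∈ DD g := by
  induction w with
  | nil => exact hd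
  | cons l w ih => exact DD.opA l ih

theorem DD.actP (p : FP) {d : A} (hd : d ∈ DD g) : actP g p d ∈ DD g := by
  induction p with
  | nil => exact zero_mem _
  | cons t p ih => exact add_mem (zsmul_mem (DD.actW t.1 hd) _) ih

theorem DD.mul (hg : Gens g) (hA : IsAlt A) (a d : A) (hd : d ∈ DD g) :
    a * d ∈ DD g ∧ d * a ∈ DD g := by
  induction a using hg with
  | _zero => simp
  | _mon p =>
    rw [← actP_Rm g hA, ← actP_Lm g hA]
    exact ⟨DD.actP _ hd, DD.actP _ hd⟩
  | _add u v hu hv =>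
    rw [add_mul, mul_add]
    exact ⟨add_mem hu.1 hv.1, add_mem hu.2 hv.2⟩
  | _neg u hu =>
    rw [neg_mul, mul_neg]
    exact ⟨neg_mem hu.1, neg_mem hu.2⟩

theorem DD.asc (hg : Gens g) (hA : IsAlt A) (a b c : A) : asc a b c ∈ DD g := by
  have hS := DD.mul hg hA
  rw [← idl_zero _ hS, map_asc]
  refine (hg.map _ (qmk_surj _)).asc_zero (hA.map _ (qmk_surj _)) ?_ _ _ _
  rw [← map_asc, idl_zero]
  exact DD.base

end Ideal

/-- `g 0, g 1, g 2` freely generate the alternative ring `A`. -/
structure IsFree3 {A : Type} [NonUnitalNonAssocRing A] (g : ℕ → A) : Prop where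
  alt : IsAlt A
  zero : ∀ k, 3 ≤ k → g k = 0
  gens : Gens g
  lift : ∀ (B : Type) [NonUnitalNonAssocRing B], IsAlt B → ∀ b : ℕ → B,
    ∃ f : A →ₙ+* B, ∀ i < 3, f (g i) = b i

/-- The cyclically shifted family. -/
def cyc {A : Type} [NonUnitalNonAssocRing A] (g : ℕ → A) (i : ℕ) : A :=
  if i < 3 then g ((i + 1) % 3) else 0

def Mg.unshift : Mg → Mg
  | .x => .z
  | .y => .x
  | .z => .y
  | .m a b => .m a.unshift b.unshift

theorem ev_unshift {A : Type} [NonUnitalNonAssocRing A] (g : ℕ → A) (p : Mg) :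
    ev (cyc g) p.unshift = ev g p := by
  induction p with
  | m a b iha ihb => simp only [Mg.unshift, ev, iha, ihb]
  | _ => rfl

def Mg.shift : Mg → Mg
  | .x => .y
  | .y => .z
  | .z => .x
  | .m a b => .m a.shift b.shift

theorem ev_shift {A : Type} [NonUnitalNonAssocRing A] (g : ℕ → A) (p : Mg) :
    ev (cyc g) p = ev g p.shift := by
  induction p with
  | m a b iha ihb => simp only [Mg.shift, ev, iha, ihb]
  | _ => rfl

theorem IsFree3.cyc {A : Type} [NonUnitalNonAssocRing A] {g : ℕ → A} (h : IsFree3 g) :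
    IsFree3 (cyc g) where
  alt := h.alt
  zero k hk := if_neg (by omega)
  gens := by
    intro P h0 h1 h2 h3
    refine h.gens P h0 (fun p => ?_) h2 h3
    rw [← ev_unshift]
    exact h1 _
  lift B _ hB b := by
    obtain ⟨f, hf⟩ := h.lift B hB fun i => b ((i + 2) % 3)
    refine ⟨f, fun i hi => ?_⟩
    rw [MP_625934_al.cyc, if_pos hi, hf _ (by omega)]
    congr 1
    omega

end Pool.Agent.Lib.MP_625934_al
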