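import Pool.Agent.Lib.MP_625934_al.Certs
import Pool.Agent.Lib.MP_625934_al.Gen

set_option autoImplicit false

namespace Pool.Agent.Lib.MP_625934_al

open MvPolynomial

variable {A : Type} [NonUnitalNonAssocRing A]

/-- A representation of a three-generated alternative ring in the generic octonions. -/
structure Rep (g : ℕ → A) (φ : A →ₙ+* TT) : Prop where
  alt : IsAlt A
  zero : ∀ k, 3 ≤ k → g k = 0
  gens : Gens g
  map : ∀ k, φ (g k) = gT k

/-- `d` lies in the associator ideal and has coordinates `u`. -/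
def Lift (g : ℕ → A) (φ : A →ₙ+* TT) (d : A) (u : TT) : Prop := d ∈ DD g ∧ φ d = io u

variable {g : ℕ → A} {φ : A →ₙ+* TT}

theorem Lift.zero : Lift g φ 0 0 := ⟨zero_mem _, by simp⟩

theorem Lift.add {d e : A} {u v : TT} (h1 : Lift g φ d u) (h2 : Lift g φ e v) :
    Lift g φ (d + e) (u + v) := ⟨add_mem h1.1 h2.1, by rw [map_add, map_add, h1.2, h2.2]⟩

theorem Lift.zsmul {d : A} {u : TT} (n : ℤ) (h1 : Lift g φ d u) : Lift g φ (n • d) (n • u) :=
  ⟨zsmul_mem h1.1 n, by rw [map_zsmul, map_zsmul, h1.2]⟩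

theorem Rep.fun_eq (h : Rep g φ) : (fun i => φ (g i)) = gT := funext h.map

theorem Lift.opA (h : Rep g φ) (l : ℕ) {d : A} {u : TT} (h1 : Lift g φ d u) :
    Lift g φ (opA g l d) (opM l u) :=
  ⟨DD.opA l h1.1, by rw [map_opA, h.fun_eq, h1.2, io_opM]⟩

theorem Lift.actW (h : Rep g φ) (w : List ℕ) {d : A} {u : TT} (h1 : Lift g φ d u) :
    Lift g φ (actW g w d) (actWL opM w u) := by
  induction w with
  | nil => exact h1
  | cons l w ih => exact ih.opA h l

theorem Lift.actP (h : Rep g φ) (p : FP) {d : A} {u : TT} (h1 : Lift g φ d u) :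
    Lift g φ (actP g p d) (actPL opM p u) := by
  induction p with
  | nil => exact Lift.zero
  | cons t p ih => exact ((h1.actW h t.1).zsmul t.2).add ih

theorem Lift.base (h : Rep g φ) : Lift g φ (asc (g 0) (g 1) (g 2)) (bT 0) :=
  ⟨DD.base, by rw [map_asc, h.map, h.map, h.map, io_e0]⟩

theorem C_smul_eq (n : ℤ) (u : TT) : (C n : RR) • u = n • u := by
  rw [eq_intCast (C : ℤ →+* RR), Int.cast_smul_eq_zsmul]

theorem Rep.poly_ind (h : Rep g φ) (P : A → Prop)
    (h0 : ∀ n : ℤ, P (n • asc (g 0) (g 1) (g 2))) (h1 : ∀ a b, P a → P b → P (a + b))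
    (h2 : ∀ a d, P d → P (actP g (tauP a) d)) (r : RR) :
    ∃ d, Lift g φ d (r • bT 0) ∧ P d := by
  induction r using MvPolynomial.induction_on with
  | C n => exact ⟨_, by rw [C_smul_eq]; exact (Lift.base h).zsmul n, h0 n⟩
  | add p q hp hq =>
    obtain ⟨d, hd, hd'⟩ := hp
    obtain ⟨e, he, he'⟩ := hq
    exact ⟨d + e, by rw [add_smul]; exact hd.add he, h1 _ _ hd' he'⟩
  | mul_X p a hp =>
    obtain ⟨d, hd, hd'⟩ := hp
    refine ⟨_, ?_, h2 a d hd'⟩
    rw [mul_smul, ← tau_e0, ← map_smul]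
    exact hd.actP h _

theorem Rep.exists_lift (h : Rep g φ) (u : TT) : ∃ d, Lift g φ d u := by
  have h1 : ∀ r : RR, ∃ d, Lift g φ d (r • u) := by
    induction u using TT.ind with
    | hb j hj =>
      intro r
      obtain ⟨d, hd, -⟩ := h.poly_ind (fun _ => True) (fun _ => trivial) (fun _ _ _ _ => trivial)
        (fun _ _ _ => trivial) r
      rw [← basW_e0 j hj, ← map_smul]
      exact ⟨_, hd.actW h _⟩
    | h0 => exact fun r => ⟨0, by rw [smul_zero]; exact Lift.zero⟩
    | hadd u v hu hv =>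
      intro r
      obtain ⟨d, hd⟩ := hu r
      obtain ⟨e, he⟩ := hv r
      exact ⟨d + e, by rw [smul_add]; exact hd.add he⟩
    | hsm s u hu =>
      intro r
      rw [smul_smul]
      exact hu _
  simpa using h1 1

/-- An ideal that contains the products of the kernel with the ring. -/
structure Flt (g : ℕ → A) (φ : A →ₙ+* TT) (H : AddSubgroup A) : Prop where
  ideal : ∀ a k, k ∈ H → a * k ∈ H ∧ k * a ∈ H
  ker : ∀ k ∈ DD g, φ k = 0 → ∀ a, a * k ∈ H ∧ k * a ∈ H

variable {H : AddSubgroup A}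

noncomputable def lf (h : Rep g φ) (u : TT) : A := (h.exists_lift u).choose

theorem lf_spec (h : Rep g φ) (u : TT) : Lift g φ (lf h u) u := (h.exists_lift u).choose_spec

theorem Flt.op_eq (hH : Flt g φ H) (l : ℕ) {d e : A} {u : TT} (hd : Lift g φ d u)
    (he : Lift g φ e u) :
    (QuotientAddGroup.mk (opA g l d) : A ⧸ H) = QuotientAddGroup.mk (opA g l e) := by
  rw [QuotientAddGroup.eq_iff_sub_mem, ← opA_sub]
  have h1 := hH.ker (d - e) (sub_mem hd.1 he.1) (by rw [map_sub, hd.2, he.2, sub_self])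
  unfold opA
  split_ifs
  · exact (h1 _).2
  · exact (h1 _).1

noncomputable def psi (h : Rep g φ) (hH : Flt g φ H) (l : ℕ) : TT →+ A ⧸ H :=
  AddMonoidHom.mk' (fun u => QuotientAddGroup.mk (opA g l (lf h u))) fun u v => by
    rw [← QuotientAddGroup.mk_add, ← opA_add]
    exact hH.op_eq l (lf_spec h _) ((lf_spec h u).add (lf_spec h v))

theorem psi_spec (h : Rep g φ) (hH : Flt g φ H) (l : ℕ) {d : A} {u : TT} (hd : Lift g φ d u) :
    psi h hH l u = QuotientAddGroup.mk (opA g l d) := hH.op_eq l (lf_spec h u) hd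

noncomputable def Psi (h : Rep g φ) (hH : Flt g φ H) : CC →+ A ⧸ H :=
  ∑ l : Fin 6, (psi h hH l).comp (Pi.evalAddMonoidHom (fun _ : Fin 6 => TT) l)

theorem Psi_sing (h : Rep g φ) (hH : Flt g φ H) (l : ℕ) (u : TT) :
    Psi h hH (sing l u) = psi h hH l u := by
  unfold sing
  split_ifs with hl
  · simp only [Psi, AddMonoidHom.finsetSum_apply, AddMonoidHom.comp_apply,
      Pi.evalAddMonoidHom_apply, LinearMap.single_apply]
    rw [Finset.sum_eq_single ⟨l, hl⟩]
    · rw [Pi.single_eq_same]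
    · intro b _ hb
      rw [Pi.single_eq_of_ne hb, map_zero]
    · simp
  · rw [psi_spec h hH l (lf_spec h u), opA, if_neg (by omega), h.zero _ (by omega), zero_mul]
    exact map_zero _

theorem Psi_cand (h : Rep g φ) (hH : Flt g φ H) (p : FP) (hp : noE p = true) {d : A} {u : TT}
    (hd : Lift g φ d u) : Psi h hH (cand opM p u) = QuotientAddGroup.mk (actP g p d) := by
  induction p with
  | nil => exact map_zero _
  | cons t p ih =>
    obtain ⟨w, c⟩ := t
    simp only [noE, List.all_cons, Bool.and_eq_true] at hp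
    cases w with
    | nil => simp at hp
    | cons l w =>
      simp only [cand, candW, actP, actW, LinearMap.add_apply, LinearMap.smul_apply, map_add,
        map_zsmul, LinearMap.comp_apply, Psi_sing, ih hp.2, psi_spec h hH l (hd.actW h w),
        QuotientAddGroup.mk_add, QuotientAddGroup.mk_zsmul]

/-- The largest submodule inside the kernel of `Psi`. -/
noncomputable def ZR (h : Rep g φ) (hH : Flt g φ H) : Submodule RR CC where
  carrier := {c | ∀ r : RR, Psi h hH (r • c) = 0}
  add_mem' ha hb r := by rw [smul_add, map_add, ha r, hb r, add_zero]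
  zero_mem' r := by rw [smul_zero, map_zero]
  smul_mem' s c hc r := by rw [smul_smul]; exact hc _

theorem ZR_rel (h : Rep g φ) (hH : Flt g φ H) (k : ℕ) (u : TT) :
    cand opM (relK k) u ∈ ZR h hH := by
  intro r
  rw [← map_smul, Psi_cand h hH _ (noE_relK k) (lf_spec h _), relK, actP_relP g h.alt]
  rfl

end Pool.Agent.Lib.MP_625934_al
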