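import Pool.Agent.Lib.MP_625934_al.Alt

set_option autoImplicit false

namespace Pool.Agent.Lib.MP_625934_al

open MvPolynomial

/-- The ring of scalars. -/
abbrev RR : Type := MvPolynomial (Fin 10) ℤ

/-- The prime coding a variable. -/
def prm (a : Fin 10) : ℕ := [2, 3, 5, 7, 11, 13, 17, 19, 23, 29].getD a 0

theorem prm_prime : ∀ a, (prm a).Prime := by decide

theorem prm_inj : ∀ a b, prm a = prm b → a = b := by decide

open Classical in
noncomputable def pv (p : ℕ) : RR := if h : ∃ a, prm a = p then X h.choose else C (p : ℤ)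

/-- The monomial coded by a natural number. -/
noncomputable def evM (m : ℕ) : RR := if m = 0 then 0 else (m.primeFactorsList.map pv).prod

theorem evM_zero : evM 0 = 0 := by simp [evM]

theorem evM_one : evM 1 = 1 := by simp [evM]

theorem evM_mul (m n : ℕ) : evM (m * n) = evM m * evM n := by
  by_cases hm : m = 0
  · simp [hm, evM_zero]
  by_cases hn : n = 0
  · simp [hn, evM_zero]
  simp only [evM, hm, hn, mul_ne_zero hm hn, if_false]
  rw [← List.prod_append, ← List.map_append]
  exact ((Nat.perm_primeFactorsList_mul hm hn).map pv).prod_eq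

theorem evM_prm (a : Fin 10) : evM (prm a) = X a := by
  have h : ∃ b, prm b = prm a := ⟨a, rfl⟩
  simp only [evM, (prm_prime a).ne_zero, if_false, Nat.primeFactorsList_prime (prm_prime a),
    List.map_cons, List.map_nil, List.prod_cons, List.prod_nil, mul_one, pv, h, dif_pos]
  rw [prm_inj _ _ h.choose_spec]

theorem eval_pv (p : ℕ) : eval (fun a => (prm a : ℤ)) (pv p) = p := by
  unfold pv
  split_ifs with h
  · rw [eval_X, h.choose_spec]
  · rw [eval_C]

theorem eval_evM (m : ℕ) : eval (fun a => (prm a : ℤ)) (evM m) = m := by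
  unfold evM
  split_ifs with h
  · simp [h]
  · rw [map_list_prod, List.map_map]
    have : (⇑(eval fun a => (prm a : ℤ)) ∘ pv) = fun p : ℕ => (p : ℤ) := funext eval_pv
    rw [this, ← Nat.cast_list_prod, Nat.prod_primeFactorsList h]

theorem blt_true {a b : ℕ} (h : a < b) : Nat.blt a b = true := by
  rw [Nat.blt_eq]; exact h

theorem blt_false {a b : ℕ} (h : ¬ a < b) : Nat.blt a b = false := by
  rw [← Bool.not_eq_true, Nat.blt_eq]; exact h

theorem not_lt_of_blt {a b : ℕ} (h : Nat.blt a b = false) : ¬ a < b := by
  intro h1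
  rw [blt_true h1] at h
  exact Bool.noConfusion h

/-! ### Sparse vectors -/

/-- Terms are (monomial code, basis tag, coefficient). -/
abbrev SV : Type := List (ℕ × ℕ × ℤ)

def cons0 (m k : ℕ) (c : ℤ) (r : SV) : SV := if c = 0 then r else (m, k, c) :: r

def saddGo (m k : ℕ) (c : ℤ) (a : SV) (f : SV → SV) : SV → SV
  | [] => (m, k, c) :: a
  | (m', k', c') :: b =>
    bif Nat.blt m m' then (m, k, c) :: f ((m', k', c') :: b)
    else bif Nat.blt m' m then (m', k', c') :: saddGo m k c a f b
    else bif Nat.blt k k' then (m, k, c) :: f ((m', k', c') :: b)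
    else bif Nat.blt k' k then (m', k', c') :: saddGo m k c a f b
    else cons0 m k (c + c') (f b)

def sadd : SV → SV → SV
  | [] => fun b => b
  | (m, k, c) :: a => saddGo m k c a (sadd a)

def sscale (m : ℕ) (c : ℤ) : SV → SV
  | [] => []
  | (m', k, c') :: s => (m * m', k, c * c') :: sscale m c s

def sapp (tab : ℕ → SV) : SV → SV
  | [] => []
  | (m, k, c) :: s => sadd (sscale m c (tab k)) (sapp tab s)

def sbas (j : ℕ) : SV := [(1, j, 1)]

section Ev

variable {W : Type} [AddCommGroup W] [Module RR W] (bs : ℕ → W)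

noncomputable def evS : SV → W
  | [] => 0
  | t :: s => t.2.2 • evM t.1 • bs t.2.1 + evS s

theorem evS_nil : evS bs [] = 0 := rfl

theorem evS_cons (m k : ℕ) (c : ℤ) (s : SV) :
    evS bs ((m, k, c) :: s) = c • evM m • bs k + evS bs s := rfl

theorem evS_sbas (j : ℕ) : evS bs (sbas j) = bs j := by
  simp [sbas, evS, evM_one]

theorem evS_cons0 (m k : ℕ) (c : ℤ) (r : SV) :
    evS bs (cons0 m k c r) = c • evM m • bs k + evS bs r := by
  unfold cons0
  split_ifs with h
  · simp [h]
  · rfl

theorem evS_saddGo (m k : ℕ) (c : ℤ) (a : SV) (f : SV → SV)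
    (hf : ∀ b, evS bs (f b) = evS bs a + evS bs b) (b : SV) :
    evS bs (saddGo m k c a f b) = evS bs ((m, k, c) :: a) + evS bs b := by
  induction b with
  | nil => simp [saddGo, evS_nil]
  | cons t b ih =>
    obtain ⟨m', k', c'⟩ := t
    unfold saddGo
    cases h1 : Nat.blt m m'
    · cases h2 : Nat.blt m' m
      · cases h3 : Nat.blt k k'
        · cases h4 : Nat.blt k' k
          · have e1 : m = m' := by
              have a1 := not_lt_of_blt h1
              have a2 := not_lt_of_blt h2
              omega
            have e2 : k = k' := by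
              have a1 := not_lt_of_blt h3
              have a2 := not_lt_of_blt h4
              omega
            subst e1 e2
            simp only [cond_false, evS_cons0, hf, evS_cons, add_smul]
            abel
          · simp only [cond_false, cond_true, ih, evS_cons]
            abel
        · simp only [cond_false, cond_true, hf, evS_cons]
          abel
      · simp only [cond_false, cond_true, ih, evS_cons]
        abel
    · simp only [cond_true, hf, evS_cons]
      abel

theorem evS_sadd (a b : SV) : evS bs (sadd a b) = evS bs a + evS bs b := by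
  induction a generalizing b with
  | nil => simp [sadd, evS_nil]
  | cons t a ih =>
    obtain ⟨m, k, c⟩ := t
    exact evS_saddGo bs m k c a (sadd a) ih b

theorem evS_sscale (m : ℕ) (c : ℤ) (s : SV) :
    evS bs (sscale m c s) = c • evM m • evS bs s := by
  induction s with
  | nil => simp [sscale, evS_nil]
  | cons t s ih =>
    obtain ⟨m', k, c'⟩ := t
    simp only [sscale, evS_cons, ih, evM_mul, smul_add, mul_smul]
    rw [smul_comm (evM m) c']

theorem evS_sapp {W' : Type} [AddCommGroup W'] [Module RR W'] (bs' : ℕ → W')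
    (f : W →ₗ[RR] W') (tab : ℕ → SV) (h : ∀ j, f (bs j) = evS bs' (tab j)) (s : SV) :
    f (evS bs s) = evS bs' (sapp tab s) := by
  induction s with
  | nil => simp [sapp, evS_nil]
  | cons t s ih =>
    obtain ⟨m, k, c⟩ := t
    simp only [sapp, evS_cons, evS_sadd, evS_sscale, map_add, map_zsmul, map_smul, ih, h]

theorem evS_mem (S : Submodule RR W) (s : SV) (h : ∀ t ∈ s, bs t.2.1 ∈ S) : evS bs s ∈ S := by
  induction s with
  | nil => exact S.zero_mem
  | cons t s ih =>
    refine S.add_mem (S.smul_of_tower_mem _ (S.smul_mem _ (h t (by simp)))) (ih ?_)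
    intro u hu
    exact h u (by simp [hu])

end Ev

/-! ### The free module of rank eight -/

/-- The carrier of the octonion algebra, and of its module of coordinates. -/
def TT : Type := Fin 8 → RR

noncomputable instance : AddCommGroup TT := inferInstanceAs (AddCommGroup (Fin 8 → RR))

noncomputable instance : Module RR TT := inferInstanceAs (Module RR (Fin 8 → RR))

noncomputable def bT (j : ℕ) : TT :=
  if h : j < 8 then (Pi.single (⟨j, h⟩ : Fin 8) (1 : RR) : Fin 8 → RR) else 0

def lk (L : List SV) (j : ℕ) : SV := bif Nat.blt j 8 then L.getD j [] else []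

theorem TT.ind {P : TT → Prop} (hb : ∀ j < 8, P (bT j)) (h0 : P 0)
    (hadd : ∀ u v, P u → P v → P (u + v)) (hsm : ∀ (r : RR) u, P u → P (r • u)) (v : TT) :
    P v := by
  have h : v = ∑ j : Fin 8, (v j) • bT j := by
    have h1 : ∀ j : Fin 8, bT j = (Pi.single j (1 : RR) : Fin 8 → RR) := by
      intro j
      simp [bT]
    simp only [h1]
    exact (pi_eq_sum_univ' (show Fin 8 → RR from v))
  rw [h]
  refine Finset.sum_induction _ P hadd h0 ?_
  intro j _
  exact hsm _ _ (hb j j.2)

theorem TT.lin_ext {W : Type} [AddCommGroup W] [Module RR W] {f g : TT →ₗ[RR] W}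
    (h : ∀ j < 8, f (bT j) = g (bT j)) : f = g := by
  refine LinearMap.ext fun v => ?_
  refine TT.ind (P := fun v => f v = g v) h (by simp) ?_ ?_ v
  · intro u v hu hv
    simp only [map_add, hu, hv]
  · intro r u hu
    simp only [map_smul, hu]

/-- The coordinate of the first basis vector. -/
noncomputable def co0 : TT →ₗ[RR] RR := LinearMap.proj (R := RR) (φ := fun _ : Fin 8 => RR) 0

theorem co0_bT (j : ℕ) : co0 (bT j) = if j = 0 then 1 else 0 := by
  unfold bT
  split_ifs with h1 h2 h2
  · subst h2
    exact Pi.single_eq_same (M := fun _ : Fin 8 => RR) 0 1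
  · refine Pi.single_eq_of_ne (M := fun _ : Fin 8 => RR) ?_ 1
    intro h
    exact h2 (congrArg Fin.val h).symm
  · omega
  · exact map_zero _

theorem TT.smul_eq_zero {r : RR} (hr : r ≠ 0) {v : TT} (h : r • v = 0) : v = 0 := by
  funext j
  have h1 : r * v j = 0 := congrFun h j
  exact (mul_eq_zero.1 h1).resolve_left hr

/-- The linear map with prescribed values on the basis. -/
noncomputable def linF {W : Type} [AddCommGroup W] [Module RR W] (f : ℕ → W) : TT →ₗ[RR] W :=
  Fintype.linearCombination RR (fun j : Fin 8 => f j)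

theorem linF_bT {W : Type} [AddCommGroup W] [Module RR W] (f : ℕ → W) (j : ℕ) :
    linF f (bT j) = if j < 8 then f j else 0 := by
  unfold bT
  split_ifs with h
  · exact (Fintype.linearCombination_apply_single RR (fun j : Fin 8 => f j) ⟨j, h⟩ 1).trans
      (one_smul _ _)
  · exact map_zero _

/-- The linear map given by a table. -/
noncomputable def linT {W : Type} [AddCommGroup W] [Module RR W] (bs : ℕ → W) (L : List SV) :
    TT →ₗ[RR] W := linF fun j => evS bs (L.getD j [])

theorem linT_bT {W : Type} [AddCommGroup W] [Module RR W] (bs : ℕ → W) (L : List SV) (j : ℕ) :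
    linT bs L (bT j) = evS bs (lk L j) := by
  rw [linT, linF_bT, lk]
  by_cases h : j < 8
  · rw [if_pos h, blt_true h, cond_true]
  · rw [if_neg h, blt_false h, cond_false, evS_nil]

theorem linT_evT {W : Type} [AddCommGroup W] [Module RR W] (bs : ℕ → W) (L : List SV) (s : SV) :
    linT bs L (evS bT s) = evS bs (sapp (lk L) s) :=
  evS_sapp bT bs _ _ (linT_bT bs L) s

/-! ### Operator words acting on a module -/

section ActL

variable (op : ℕ → TT →ₗ[RR] TT)

noncomputable def actWL : List ℕ → TT →ₗ[RR] TT
  | [] => LinearMap.id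
  | l :: w => op l ∘ₗ actWL w

noncomputable def actPL : FP → TT →ₗ[RR] TT
  | [] => 0
  | t :: p => t.2 • actWL op t.1 + actPL p

end ActL

def sactW (sop : ℕ → SV → SV) : List ℕ → SV → SV
  | [], s => s
  | l :: w, s => sop l (sactW sop w s)

def sactP (sop : ℕ → SV → SV) : FP → SV → SV
  | [], _ => []
  | (w, c) :: p, s => sadd (sscale 1 c (sactW sop w s)) (sactP sop p s)

theorem actWL_evT (op : ℕ → TT →ₗ[RR] TT) (sop : ℕ → SV → SV)
    (h : ∀ l s, op l (evS bT s) = evS bT (sop l s)) (w : List ℕ) (s : SV) :
    actWL op w (evS bT s) = evS bT (sactW sop w s) := by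
  induction w with
  | nil => rfl
  | cons l w ih => simp only [actWL, sactW, LinearMap.comp_apply, ih, h]

theorem actPL_evT (op : ℕ → TT →ₗ[RR] TT) (sop : ℕ → SV → SV)
    (h : ∀ l s, op l (evS bT s) = evS bT (sop l s)) (p : FP) (s : SV) :
    actPL op p (evS bT s) = evS bT (sactP sop p s) := by
  induction p with
  | nil => rfl
  | cons t p ih =>
    obtain ⟨w, c⟩ := t
    simp only [actPL, sactP, LinearMap.add_apply, LinearMap.smul_apply, ih, evS_sadd,
      evS_sscale, evM_one, one_smul, actWL_evT op sop h]

/-! ### The module of candidates -/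

abbrev CC : Type := Fin 6 → TT

noncomputable def sing (l : ℕ) : TT →ₗ[RR] CC :=
  if h : l < 6 then LinearMap.single RR (fun _ : Fin 6 => TT) ⟨l, h⟩ else 0

noncomputable def bC (t : ℕ) : CC := sing (t % 8) (bT (t / 8))

def retag (l : ℕ) : SV → SV
  | [] => []
  | (m, k, c) :: s => (m, l + 8 * k, c) :: retag l s

def ssing (l : ℕ) (s : SV) : SV := bif Nat.blt l 6 then retag l s else []

theorem sing_evT (l : ℕ) (s : SV) : sing l (evS bT s) = evS bC (ssing l s) := by
  unfold ssing
  by_cases h : l < 6
  · rw [blt_true h, cond_true]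
    induction s with
    | nil => exact map_zero _
    | cons t s ih =>
      obtain ⟨m, k, c⟩ := t
      have e1 : (l + 8 * k) % 8 = l := by omega
      have e2 : (l + 8 * k) / 8 = k := by omega
      simp only [retag, evS_cons, map_add, map_zsmul, map_smul, ih, bC, e1, e2]
  · rw [blt_false h, cond_false, sing, dif_neg h]
    rfl

noncomputable def candW (op : ℕ → TT →ₗ[RR] TT) : List ℕ → TT →ₗ[RR] CC
  | [] => 0
  | l :: w => sing l ∘ₗ actWL op w

noncomputable def cand (op : ℕ → TT →ₗ[RR] TT) : FP → TT →ₗ[RR] CC
  | [] => 0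
  | t :: p => t.2 • candW op t.1 + cand op p

def scandW (sop : ℕ → SV → SV) : List ℕ → SV → SV
  | [], _ => []
  | l :: w, s => ssing l (sactW sop w s)

def scand (sop : ℕ → SV → SV) : FP → SV → SV
  | [], _ => []
  | (w, c) :: p, s => sadd (sscale 1 c (scandW sop w s)) (scand sop p s)

theorem cand_evT (op : ℕ → TT →ₗ[RR] TT) (sop : ℕ → SV → SV)
    (h : ∀ l s, op l (evS bT s) = evS bT (sop l s)) (p : FP) (s : SV) :
    cand op p (evS bT s) = evS bC (scand sop p s) := by
  induction p with
  | nil => rfl
  | cons t p ih =>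
    obtain ⟨w, c⟩ := t
    have h1 : candW op w (evS bT s) = evS bC (scandW sop w s) := by
      cases w with
      | nil => rfl
      | cons l w => simp only [candW, scandW, LinearMap.comp_apply, actWL_evT op sop h, sing_evT]
    simp only [cand, scand, LinearMap.add_apply, LinearMap.smul_apply, ih, evS_sadd,
      evS_sscale, evM_one, one_smul, h1]

end Pool.Agent.Lib.MP_625934_al
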