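import Pool.Agent.Lib.MP_625934_al.TAlg

set_option autoImplicit false

namespace Pool.Agent.Lib.MP_625934_al

open MvPolynomial

/-- Left multiplication by the basic associator. -/
noncomputable def io : TT →ₗ[RR] TT := mulT (evS bT sDelta)

noncomputable def gxy : TT →ₗ[RR] TT := linT bT tabGxy
noncomputable def gyz : TT →ₗ[RR] TT := linT bT tabGyz
noncomputable def gxz : TT →ₗ[RR] TT := linT bT tabGxz

def xI : LX := .lm sDelta
def xG : LX := .tab tabGxy
def xH : LX := .tab tabGyz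
def xJ : LX := .tab tabGxz

theorem opT0 (v : TT) : opT 0 v = v * gT 0 := rfl
theorem opT1 (v : TT) : opT 1 v = v * gT 1 := rfl
theorem opT2 (v : TT) : opT 2 v = v * gT 2 := rfl
theorem opT3 (v : TT) : opT 3 v = gT 0 * v := rfl
theorem opT4 (v : TT) : opT 4 v = gT 1 * v := rfl
theorem opT5 (v : TT) : opT 5 v = gT 2 * v := rfl

theorem bT0_mul (v : TT) : bT 0 * v = v := by
  have := LX.eq_of_chk (a := .lm (sbas 0)) (b := .one) (by decide +kernel) v
  simpa only [LX.ev, evS_sbas, ← TT.mul_def, LinearMap.id_apply] using this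

theorem mul_bT0 (v : TT) : v * bT 0 = v := by
  have := LX.eq_of_chk (a := .rm (sbas 0)) (b := .one) (by decide +kernel) v
  simpa only [LX.ev, evS_sbas, LinearMap.flip_apply, ← TT.mul_def, LinearMap.id_apply] using this

def tag0 (s : SV) : Bool := s.all fun t => t.2.1 == 0

theorem evS_tag0 {W : Type} [AddCommGroup W] [Module RR W] (bs : ℕ → W) (s : SV)
    (h : tag0 s = true) : evS bs s = evS (fun _ => (1 : RR)) s • bs 0 := by
  induction s with
  | nil => simp [evS_nil]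
  | cons t s ih =>
    obtain ⟨m, k, c⟩ := t
    simp only [tag0, List.all_cons, Bool.and_eq_true, beq_iff_eq] at h
    obtain ⟨rfl, h2⟩ := h
    simp only [evS_cons, ih h2, add_smul, smul_assoc, one_smul]

def szv : SV → ℤ
  | [] => 0
  | (m, _, c) :: s => c * m + szv s

theorem eval_evS (s : SV) :
    eval (fun a => (prm a : ℤ)) (evS (fun _ => (1 : RR)) s) = szv s := by
  induction s with
  | nil => simp [evS_nil, szv]
  | cons t s ih =>
    obtain ⟨m, k, c⟩ := t
    simp [evS_cons, szv, ih, eval_evM]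

theorem io_inj {u : TT} (h : io u = 0) : u = 0 := by
  have h1 : evS bT sDelta * evS bT sDelta = evS (fun _ => (1 : RR)) sDelta2 • bT 0 := by
    rw [evT_tmulS, evS_of_seq bT (b := sDelta2) (by decide +kernel),
      evS_tag0 bT _ (by decide +kernel)]
  have h2 : evS (fun _ => (1 : RR)) sDelta2 ≠ 0 := by
    intro h3
    have h4 := eval_evS sDelta2
    rw [h3, map_zero] at h4
    exact absurd h4 (by decide +kernel)
  have h5 := TT.isAlt.l (evS bT sDelta) u
  have h6 : evS bT sDelta * u = 0 := h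
  rw [h1, h6, mul_zero, TT.smul_mul, bT0_mul] at h5
  exact TT.smul_eq_zero h2 h5

theorem chk_io : allLt 6 (fun l => LX.chk (.comp xI (.oM l)) (.comp (.oT l) xI)) = true := by
  decide +kernel

theorem opM_ge (l : ℕ) (hl : 6 ≤ l) (u : TT) : opM l u = 0 := by
  have h1 : tabM.getD l [] = [] := List.getD_eq_default _ _ hl
  have h2 : opM l = 0 := by
    refine TT.lin_ext fun j hj => ?_
    rw [opM, h1, linT_bT, lk, blt_true hj]
    rfl
  rw [h2]
  rfl

theorem io_opM (l : ℕ) (u : TT) : io (opM l u) = opA gT l (io u) := by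
  by_cases hl : l < 6
  · rw [← opT_eq]
    exact LX.eq_of_chk (allLt_spec chk_io l hl) u
  · rw [opM_ge l (by omega), map_zero, opA, if_neg (by omega), gT, if_neg (by omega), zero_mul]

def xAsc (a b : ℕ) : LX :=
  .sub (.comp (.oT b) (.oT a)) (.rm (tmulS (sgen a) (sgen b)))

theorem xAsc_ev (a b : ℕ) (ha : a < 3) (hb : b < 3) (v : TT) :
    (xAsc a b).ev v = asc v (gT a) (gT b) := by
  simp only [xAsc, LX.ev, LinearMap.sub_apply, LinearMap.comp_apply, LinearMap.flip_apply,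
    ← evT_tmulS, evT_sgen, opT_eq, opA, if_pos ha, if_pos hb, asc, TT.mul_def]

theorem asc_xy (v : TT) : asc v (gT 0) (gT 1) = io (gxy v) := by
  rw [← xAsc_ev 0 1 (by omega) (by omega)]
  exact LX.eq_of_chk (b := .comp xI xG) (by decide +kernel) v

theorem asc_yz (v : TT) : asc v (gT 1) (gT 2) = io (gyz v) := by
  rw [← xAsc_ev 1 2 (by omega) (by omega)]
  exact LX.eq_of_chk (b := .comp xI xH) (by decide +kernel) v

theorem asc_xz (v : TT) : asc v (gT 0) (gT 2) = io (gxz v) := by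
  rw [← xAsc_ev 0 2 (by omega) (by omega)]
  exact LX.eq_of_chk (b := .comp xI xJ) (by decide +kernel) v

/-- Values of an expression on a sparse vector. -/
theorem LX.val {e : LX} {s t : SV} (h : seq (e.sev s) t = true) :
    e.ev (evS bT s) = evS bT t := by
  rw [LX.ev_evT, evS_of_seq bT h]

theorem gT0 : gT 0 = evS bT (sbas 1) := (evS_sbas bT 1).symm
theorem gT1 : gT 1 = evS bT (sbas 2) := (evS_sbas bT 2).symm
theorem gT2 : gT 2 = evS bT (sbas 3) := (evS_sbas bT 3).symm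
theorem bT0 : bT 0 = evS bT (sbas 0) := (evS_sbas bT 0).symm

theorem evS_one (m k : ℕ) : evS bT [(m, k, 1)] = evM m • bT k := by
  simp [evS]

theorem gyz_x : gyz (gT 0) = bT 0 := by
  rw [gT0, bT0]; exact LX.val (e := xH) (by decide +kernel)

theorem gyz_z : gyz (gT 2) = 0 := by
  rw [gT2]; exact LX.val (e := xH) (t := []) (by decide +kernel)

theorem gyz_1 : gyz (bT 0) = 0 := by
  rw [bT0]; exact LX.val (e := xH) (t := []) (by decide +kernel)

theorem gxy_x : gxy (gT 0) = 0 := by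
  rw [gT0]; exact LX.val (e := xG) (t := []) (by decide +kernel)

theorem gxy_z : gxy (gT 2) = bT 0 := by
  rw [gT2, bT0]; exact LX.val (e := xG) (by decide +kernel)

theorem gxy_1 : gxy (bT 0) = 0 := by
  rw [bT0]; exact LX.val (e := xG) (t := []) (by decide +kernel)

theorem gyz_xx : gyz (gT 0 * gT 0) = evM 2 • bT 0 := by
  rw [← opT0, ← evS_one, gT0]
  exact LX.val (e := .comp xH (.oT 0)) (by decide +kernel)

theorem gyz_xzx : gyz (gT 0 * (gT 2 * gT 0)) = evM 19 • bT 0 := by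
  have h := LX.val (e := .comp xH (.comp (.oT 3) (.oT 5))) (s := sbas 1) (t := [(19, 0, 1)])
    (by decide +kernel)
  rw [evS_sbas, evS_one] at h
  exact h

theorem io_e0 : io (bT 0) = asc (gT 0) (gT 1) (gT 2) := by rw [asc_yz, gyz_x]

/-! ### Operators on the image of `gxy` -/

theorem gxy_R0 (v : TT) : opM 0 (gxy v) = gxy (gT 0 * v) :=
  LX.eq_of_chk (a := .comp (.oM 0) xG) (b := .comp xG (.oT 3)) (by decide +kernel) v

theorem gxy_R1 (v : TT) : opM 1 (gxy v) = gxy (gT 1 * v) :=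
  LX.eq_of_chk (a := .comp (.oM 1) xG) (b := .comp xG (.oT 4)) (by decide +kernel) v

theorem gxy_L0 (v : TT) : opM 3 (gxy v) = gxy (v * gT 0) :=
  LX.eq_of_chk (a := .comp (.oM 3) xG) (b := .comp xG (.oT 0)) (by decide +kernel) v

theorem gxy_L1 (v : TT) : opM 4 (gxy v) = gxy (v * gT 1) :=
  LX.eq_of_chk (a := .comp (.oM 4) xG) (b := .comp xG (.oT 1)) (by decide +kernel) v

theorem gyz_R2 (v : TT) : opM 2 (gyz v) = gyz (gT 2 * v) :=
  LX.eq_of_chk (a := .comp (.oM 2) xH) (b := .comp xH (.oT 5)) (by decide +kernel) v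

theorem gyz_L2 (v : TT) : opM 5 (gyz v) = gyz (v * gT 2) :=
  LX.eq_of_chk (a := .comp (.oM 5) xH) (b := .comp xH (.oT 2)) (by decide +kernel) v

theorem e0_t3 : opM 2 (bT 0) + opM 5 (bT 0) = evM 5 • bT 0 := by
  rw [← evS_one, bT0]
  exact LX.val (e := .add (.oM 2) (.oM 5)) (by decide +kernel)

theorem e0_n3 : opM 5 (opM 2 (bT 0)) = evM 13 • bT 0 := by
  rw [← evS_one, bT0]
  exact LX.val (e := .comp (.oM 5) (.oM 2)) (by decide +kernel)

theorem gxy_alpha (v : TT) : evM 19 • gxy v - evM 5 • opM 3 (gxy v) =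
    gxy (gT 2 * (gT 0 * v - v * gT 0)) + gxy (io (linT bT tabA v)) :=
  LX.eq_of_chk (a := .sub (.sc 19 xG) (.sc 5 (.comp (.oM 3) xG)))
    (b := .add (.comp xG (.comp (.oT 5) (.sub (.oT 3) (.oT 0))))
      (.comp xG (.comp xI (.tab tabA)))) (by decide +kernel) v

theorem gxy_beta (v : TT) : evM 23 • gxy v - evM 5 • opM 4 (gxy v) =
    gxy (gT 2 * (gT 1 * v - v * gT 1)) + gxy (io (linT bT tabB v)) :=
  LX.eq_of_chk (a := .sub (.sc 23 xG) (.sc 5 (.comp (.oM 4) xG)))
    (b := .add (.comp xG (.comp (.oT 5) (.sub (.oT 4) (.oT 1))))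
      (.comp xG (.comp xI (.tab tabB)))) (by decide +kernel) v

theorem gxy_t1 (v : TT) : evM 2 • gxy v = opM 0 (gxy v) + opM 3 (gxy v) :=
  LX.eq_of_chk (a := .sc 2 xG) (b := .comp (.add (.oM 0) (.oM 3)) xG) (by decide +kernel) v

theorem gxy_t2 (v : TT) : evM 3 • gxy v = opM 1 (gxy v) + opM 4 (gxy v) :=
  LX.eq_of_chk (a := .sc 3 xG) (b := .comp (.add (.oM 1) (.oM 4)) xG) (by decide +kernel) v

theorem gxy_n1 (v : TT) : evM 7 • gxy v = opM 3 (opM 0 (gxy v)) :=
  LX.eq_of_chk (a := .sc 7 xG) (b := .comp (.comp (.oM 3) (.oM 0)) xG) (by decide +kernel) v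

theorem gxy_n2 (v : TT) : evM 11 • gxy v = opM 4 (opM 1 (gxy v)) :=
  LX.eq_of_chk (a := .sc 11 xG) (b := .comp (.comp (.oM 4) (.oM 1)) xG) (by decide +kernel) v

theorem gxy_t12 (v : TT) : evM 17 • gxy v =
    evM 2 • evM 3 • gxy v - (opM 3 (opM 1 (gxy v)) + opM 4 (opM 0 (gxy v))) :=
  LX.eq_of_chk (a := .sc 17 xG) (b := .comp (.sub (.sc 2 (.sc 3 .one))
    (.add (.comp (.oM 3) (.oM 1)) (.comp (.oM 4) (.oM 0)))) xG) (by decide +kernel) v

theorem gxy_t123 (v : TT) : evM 29 • gxy v =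
    evM 5 • evM 17 • gxy v + evM 2 • evM 23 • gxy v - evM 2 • evM 3 • evM 5 • gxy v +
      (evM 3 • evM 5 • opM 0 (gxy v) - evM 23 • opM 0 (gxy v)) + evM 19 • opM 1 (gxy v) -
      evM 5 • opM 0 (opM 1 (gxy v)) + gxy (io (linT bT tabP v)) :=
  LX.eq_of_chk (a := .sc 29 xG) (b := .add (.comp (.sub (.add (.add (.sub (.add
    (.sc 5 (.sc 17 .one)) (.sc 2 (.sc 23 .one))) (.sc 2 (.sc 3 (.sc 5 .one))))
    (.sub (.sc 3 (.sc 5 (.oM 0))) (.sc 23 (.oM 0)))) (.sc 19 (.oM 1)))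
    (.sc 5 (.comp (.oM 0) (.oM 1)))) xG) (.comp xG (.comp xI (.tab tabP))))
    (by decide +kernel) v

/-! ### The operators of `z` -/

theorem cz_t3 (v : TT) : (gT 2 * v + v * gT 2) * gT 2 - gT 2 * (gT 2 * v + v * gT 2) =
    evM 5 • (v * gT 2 - gT 2 * v) :=
  LX.eq_of_chk (a := .comp (.sub (.oT 2) (.oT 5)) (.add (.oT 5) (.oT 2)))
    (b := .sc 5 (.sub (.oT 2) (.oT 5))) (by decide +kernel) v

theorem cz_n3 (v : TT) : gT 2 * (v * gT 2) * gT 2 - gT 2 * (gT 2 * (v * gT 2)) =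
    evM 13 • (v * gT 2 - gT 2 * v) :=
  LX.eq_of_chk (a := .comp (.sub (.oT 2) (.oT 5)) (.comp (.oT 5) (.oT 2)))
    (b := .sc 13 (.sub (.oT 2) (.oT 5))) (by decide +kernel) v

theorem bT1 : bT 1 = gT 0 := rfl
theorem bT3 : bT 3 = gT 2 := rfl

theorem evM10 : evM 10 = evM 2 * evM 5 := evM_mul 2 5
theorem evM25 : evM 25 = evM 5 * evM 5 := evM_mul 5 5
theorem evM26 : evM 26 = evM 2 * evM 13 := evM_mul 2 13
theorem evM65 : evM 65 = evM 5 * evM 13 := evM_mul 5 13

theorem vz_x : gT 2 * gT 0 + gT 0 * gT 2 =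
    evM 5 • gT 0 + evM 2 • gT 2 + (evM 19 - evM 2 * evM 5) • bT 0 := by
  have := LX.val (e := .add (.oT 5) (.oT 2)) (s := sbas 1)
    (t := [(2, 3, 1), (5, 1, 1), (10, 0, -1), (19, 0, 1)]) (by decide +kernel)
  simp only [LX.ev, LinearMap.add_apply, evS_sbas, opT5, opT2, evS, bT1, bT3, evM10] at this
  rw [this]
  module

theorem zz : gT 2 * gT 2 = evM 5 • gT 2 - evM 13 • bT 0 := by
  have := LX.val (e := .oT 2) (s := sbas 3) (t := [(5, 3, 1), (13, 0, -1)]) (by decide +kernel)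
  simp only [LX.ev, evS_sbas, opT2, evS, bT3] at this
  rw [this]
  module

theorem uz_x : gT 2 * (gT 0 * gT 2) =
    evM 13 • gT 0 + evM 19 • gT 2 - (evM 2 * evM 13) • bT 0 := by
  have := LX.val (e := .comp (.oT 5) (.oT 2)) (s := sbas 1)
    (t := [(13, 1, 1), (19, 3, 1), (26, 0, -1)]) (by decide +kernel)
  simp only [LX.ev, LinearMap.comp_apply, evS_sbas, opT5, opT2, evS, bT1, bT3, evM26] at this
  rw [this]
  module

/-! ### The nucleus -/

def xN : LX := .sub .one (.add (.add (.comp (.tab tabL1) xG) (.comp (.tab tabL2) xH))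
  (.comp (.tab tabL3) xJ))

theorem chk_N : allLt 3 (fun i => LX.chk (.comp (.oT i) xN) (.comp (.oT (i + 3)) xN)) = true := by
  decide +kernel

theorem comm_of_nuc (v : TT) (h1 : asc v (gT 0) (gT 1) = 0) (h2 : asc v (gT 1) (gT 2) = 0)
    (h3 : asc v (gT 0) (gT 2) = 0) (i : ℕ) (hi : i < 3) : v * gT i = gT i * v := by
  rw [asc_xy] at h1
  rw [asc_yz] at h2
  rw [asc_xz] at h3
  have h4 : xN.ev v = v := by
    change v - (linT bT tabL1 (gxy v) + linT bT tabL2 (gyz v) + linT bT tabL3 (gxz v)) = v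
    rw [io_inj h1, io_inj h2, io_inj h3]
    simp
  have h5 : opT i (xN.ev v) = opT (i + 3) (xN.ev v) := LX.eq_of_chk (allLt_spec chk_N i hi) v
  rw [h4, opT_eq, opT_eq, opA, opA, if_pos hi, if_neg (by omega)] at h5
  exact h5

/-! ### The scalars as operators -/

def tauP (a : Fin 10) : FP := tauL.getD a []

theorem chk_tau : ∀ a : Fin 10, seq (sactP sopM (tauP a) (sbas 0)) [(prm a, 0, 1)] = true := by
  decide +kernel

theorem tau_e0 (a : Fin 10) : actPL opM (tauP a) (bT 0) = (X a : RR) • bT 0 := by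
  rw [← evM_prm, ← evS_one, bT0, actPL_evT opM sopM opM_evT, evS_of_seq bT (chk_tau a)]

theorem chk_basW :
    allLt 8 (fun j => seq (sactW sopM (basW.getD j []) (sbas 0)) (sbas j)) = true := by
  decide +kernel

theorem basW_e0 (j : ℕ) (hj : j < 8) : actWL opM (basW.getD j []) (bT 0) = bT j := by
  rw [bT0, actWL_evT opM sopM opM_evT, evS_of_seq bT (allLt_spec chk_basW j hj), evS_sbas]

/-- Renaming of the letters along the cyclic shift. -/
def shL (l : ℕ) : ℕ := if l < 3 then (l + 2) % 3 else if l < 6 then 3 + (l + 2) % 3 else l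

def shP (p : FP) : FP := p.map fun t => (t.1.map shL, t.2)

theorem chk_sh : ∀ a : Fin 10, tag0 (sactP sopM (shP (tauP a)) (sbas 0)) = true ∧
    tag0 (sactP sopM (shP (shP (tauP a))) (sbas 0)) = true := by
  decide +kernel

theorem act_e0_tag0 (p : FP) (h : tag0 (sactP sopM p (sbas 0)) = true) :
    ∃ r : RR, actPL opM p (bT 0) = r • bT 0 := by
  have h1 := actPL_evT opM sopM opM_evT p (sbas 0)
  rw [evS_tag0 bT _ h, evS_sbas] at h1
  exact ⟨_, h1⟩

end Pool.Agent.Lib.MP_625934_al
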