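import Pool.Agent.Lib.MP_625934_al.Gen

set_option autoImplicit false

namespace Pool.Agent.Lib.MP_625934_al

open Polynomial TensorProduct

variable {A : Type} [NonUnitalNonAssocRing A]

/-- `a` is a product of `n` factors. -/
inductive Prd : ℕ → A → Prop
  | one (a : A) : Prd 1 a
  | mul {i j : ℕ} {a b : A} : Prd i a → Prd j b → Prd (i + j) (a * b)

/-- The power filtration. -/
def FF (A : Type) [NonUnitalNonAssocRing A] (N : ℕ) : AddSubgroup A :=
  AddSubgroup.closure {a | ∃ n, N ≤ n ∧ Prd n a}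

theorem FF.one (a : A) : a ∈ FF A 1 := AddSubgroup.subset_closure ⟨1, le_rfl, Prd.one a⟩

theorem FF.mono {N : ℕ} {a : A} (h : a ∈ FF A (N + 1)) : a ∈ FF A N := by
  refine AddSubgroup.closure_mono ?_ h
  rintro b ⟨n, h1, h2⟩
  exact ⟨n, by omega, h2⟩

theorem FF.mul {N : ℕ} {a : A} (h : a ∈ FF A N) (b : A) :
    b * a ∈ FF A (N + 1) ∧ a * b ∈ FF A (N + 1) := by
  induction h using AddSubgroup.closure_induction with
  | mem x hx =>
    obtain ⟨n, h1, h2⟩ := hx
    exact ⟨AddSubgroup.subset_closure ⟨1 + n, by omega, (Prd.one b).mul h2⟩,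
      AddSubgroup.subset_closure ⟨n + 1, by omega, h2.mul (Prd.one b)⟩⟩
  | zero => simp
  | add x y _ _ hx hy =>
    rw [add_mul, mul_add]
    exact ⟨add_mem hx.1 hy.1, add_mem hx.2 hy.2⟩
  | neg x _ hx =>
    rw [neg_mul, mul_neg]
    exact ⟨neg_mem hx.1, neg_mem hx.2⟩

/-- Polynomials with coefficients in `A`. -/
def PA (A : Type) [NonUnitalNonAssocRing A] : Type := ℤ[X] ⊗[ℤ] A

noncomputable instance : NonUnitalNonAssocRing (PA A) :=
  inferInstanceAs (NonUnitalNonAssocRing (ℤ[X] ⊗[ℤ] A))

noncomputable def PA.tm (p : ℤ[X]) (a : A) : PA A := (p ⊗ₜ[ℤ] a : ℤ[X] ⊗[ℤ] A)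

theorem PA.ind {P : PA A → Prop} (t : PA A) (zero : P 0) (tmul : ∀ p a, P (PA.tm p a))
    (add : ∀ s t, P s → P t → P (s + t)) : P t :=
  TensorProduct.induction_on (motive := P) t zero tmul add

theorem PA.tm_mul (p q : ℤ[X]) (a b : A) : PA.tm p a * PA.tm q b = PA.tm (p * q) (a * b) :=
  Algebra.TensorProduct.tmul_mul_tmul p q a b

theorem PA.tm_add (p : ℤ[X]) (a b : A) : PA.tm p (a + b) = PA.tm p a + PA.tm p b :=
  tmul_add p a b

theorem PA.tm_sub (p : ℤ[X]) (a b : A) : PA.tm p (a - b) = PA.tm p a - PA.tm p b :=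
  tmul_sub p a b

theorem PA.tm_zero (p : ℤ[X]) : PA.tm p (0 : A) = 0 := tmul_zero _ p

theorem PA.asc_tmul (p q r : ℤ[X]) (a b c : A) :
    asc (PA.tm p a) (PA.tm q b) (PA.tm r c) = PA.tm (p * q * r) (asc a b c) := by
  simp only [asc, PA.tm_mul, PA.tm_sub, mul_assoc]

theorem PA.add12 (hA : IsAlt A) (s t u : PA A) : asc s t u + asc t s u = 0 := by
  induction s using PA.ind with
  | zero => simp [asc_zero1, asc_zero2]
  | add s s' h1 h2 => rw [asc_add1, asc_add2, add_add_add_comm, h1, h2, add_zero]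
  | tmul p a =>
    induction t using PA.ind with
    | zero => simp [asc_zero1, asc_zero2]
    | add s s' h1 h2 => rw [asc_add1, asc_add2, add_add_add_comm, h1, h2, add_zero]
    | tmul q b =>
      induction u using PA.ind with
      | zero => simp [asc_zero3]
      | add s s' h1 h2 => rw [asc_add3, asc_add3, add_add_add_comm, h1, h2, add_zero]
      | tmul r c =>
        rw [PA.asc_tmul, PA.asc_tmul, mul_comm q p, ← PA.tm_add, hA.add12, PA.tm_zero]

theorem PA.add23 (hA : IsAlt A) (s t u : PA A) : asc u s t + asc u t s = 0 := by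
  induction s using PA.ind with
  | zero => simp [asc_zero3, asc_zero2]
  | add s s' h1 h2 => rw [asc_add3, asc_add2, add_add_add_comm, h1, h2, add_zero]
  | tmul p a =>
    induction t using PA.ind with
    | zero => simp [asc_zero3, asc_zero2]
    | add s s' h1 h2 => rw [asc_add3, asc_add2, add_add_add_comm, h1, h2, add_zero]
    | tmul q b =>
      induction u using PA.ind with
      | zero => simp [asc_zero1]
      | add s s' h1 h2 => rw [asc_add1, asc_add1, add_add_add_comm, h1, h2, add_zero]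
      | tmul r c =>
        rw [PA.asc_tmul, PA.asc_tmul, mul_right_comm r q p, ← PA.tm_add, hA.add23, PA.tm_zero]

theorem PA.isAlt (hA : IsAlt A) : IsAlt (PA A) := by
  have h1 : ∀ s u : PA A, asc s s u = 0 := by
    intro s u
    induction s using PA.ind with
    | zero => exact asc_zero1 _ _
    | add s s' h1 h2 =>
      rw [asc_add1, asc_add2, asc_add2, h1, h2, zero_add, add_zero, PA.add12 hA]
    | tmul p a =>
      induction u using PA.ind with
      | zero => exact asc_zero3 _ _
      | add s s' h1 h2 => rw [asc_add3, h1, h2, add_zero]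
      | tmul r c => rw [PA.asc_tmul, hA.aab, PA.tm_zero]
  have h2 : ∀ s u : PA A, asc u s s = 0 := by
    intro s u
    induction s using PA.ind with
    | zero => exact asc_zero2 _ _
    | add s s' h1 h2 =>
      rw [asc_add2, asc_add3, asc_add3, h1, h2, zero_add, add_zero, PA.add23 hA]
    | tmul p a =>
      induction u using PA.ind with
      | zero => exact asc_zero1 _ _
      | add s s' h1 h2 => rw [asc_add1, h1, h2, add_zero]
      | tmul r c => rw [PA.asc_tmul, hA.abb, PA.tm_zero]
  exact ⟨fun x y => sub_eq_zero.1 (h1 x y), fun x y => sub_eq_zero.1 (h2 y x)⟩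

/-- Contraction with a linear form on the polynomial factor. -/
noncomputable def PA.con (f : ℤ[X] →ₗ[ℤ] ℤ) : PA A →+ A :=
  ((TensorProduct.lid ℤ A).toLinearMap ∘ₗ LinearMap.rTensor A f).toAddMonoidHom

theorem PA.con_tmul (f : ℤ[X] →ₗ[ℤ] ℤ) (p : ℤ[X]) (a : A) :
    PA.con f (PA.tm p a) = f p • a := rfl

noncomputable abbrev PA.co (n : ℕ) : PA A →+ A := PA.con (lcoeff ℤ n)

noncomputable abbrev PA.ev1 : PA A →+ A := PA.con (leval 1)

theorem PA.co_mul (n : ℕ) (s t : PA A) :
    PA.co n (s * t) = ∑ x ∈ Finset.HasAntidiagonal.antidiagonal n, PA.co x.1 s * PA.co x.2 t := by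
  induction s using PA.ind with
  | zero => simp
  | add s s' h1 h2 => simp only [add_mul, map_add, h1, h2, Finset.sum_add_distrib]
  | tmul p a =>
    induction t using PA.ind with
    | zero => simp
    | add s s' h1 h2 => simp only [mul_add, map_add, h1, h2, Finset.sum_add_distrib]
    | tmul q b =>
      simp only [PA.tm_mul, PA.con_tmul, lcoeff_apply, coeff_mul,
        Finset.sum_smul, smul_mul_smul_comm]

theorem PA.ev1_mul (s t : PA A) : PA.ev1 (s * t) = PA.ev1 s * PA.ev1 t := by
  induction s using PA.ind with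
  | zero => simp
  | add s s' h1 h2 => simp only [add_mul, map_add, h1, h2]
  | tmul p a =>
    induction t using PA.ind with
    | zero => simp
    | add s s' h1 h2 => simp only [mul_add, map_add, h1, h2]
    | tmul q b =>
      simp only [PA.tm_mul, PA.con_tmul, leval_apply,
        eval_mul, smul_mul_smul_comm]

theorem PA.ev1_sum (t : PA A) :
    ∃ N, ∀ M, N ≤ M → PA.ev1 t = ∑ n ∈ Finset.range M, PA.co n t := by
  induction t using PA.ind with
  | zero => exact ⟨0, fun M _ => by simp⟩
  | add s s' h1 h2 =>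
    obtain ⟨N1, h1⟩ := h1
    obtain ⟨N2, h2⟩ := h2
    refine ⟨N1 + N2, fun M hM => ?_⟩
    simp only [map_add, Finset.sum_add_distrib]
    rw [h1 M (by omega), h2 M (by omega)]
  | tmul p a =>
    refine ⟨p.natDegree + 1, fun M hM => ?_⟩
    simp only [PA.con_tmul, lcoeff_apply, leval_apply, ← Finset.sum_smul]
    rw [eval_eq_sum_range' (n := M) (by omega)]
    simp

theorem IsFree3.eq_zero {g : ℕ → A} (h : IsFree3 g) (a : A) (ha : ∀ N, a ∈ FF A N) : a = 0 := by
  obtain ⟨ψ, hψ⟩ := h.lift (PA A) (PA.isAlt h.alt) fun i => PA.tm X (g i)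
  have h0 : ∀ i < 3, PA.co 0 (ψ (g i)) = 0 ∧ PA.ev1 (ψ (g i)) = g i := by
    intro i hi
    simp [hψ i hi, PA.con_tmul]
  have h1 : ∀ b : A, PA.co 0 (ψ b) = 0 ∧ PA.ev1 (ψ b) = b := by
    intro b
    induction b using h.gens with
    | _zero => simp
    | _mon p =>
      induction p with
      | x => exact h0 0 (by omega)
      | y => exact h0 1 (by omega)
      | z => exact h0 2 (by omega)
      | m p q hp hq => simp [ev, PA.co_mul, PA.ev1_mul, hp.1, hp.2, hq.2]
    | _add u v hu hv => simp only [map_add, hu.1, hu.2, hv.1, hv.2, add_zero, and_self]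
    | _neg u hu => simp only [map_neg, hu.1, hu.2, neg_zero, and_self]
  have h2 : ∀ (n : ℕ) (b : A), Prd n b → ∀ m < n, PA.co m (ψ b) = 0 := by
    intro n b hb
    induction hb with
    | one b =>
      intro m hm
      obtain rfl : m = 0 := by omega
      exact (h1 b).1
    | mul _ _ ih1 ih2 =>
      intro m hm
      rw [map_mul, PA.co_mul]
      refine Finset.sum_eq_zero fun x hx => ?_
      have := Finset.HasAntidiagonal.mem_antidiagonal.1 hx
      rename_i i j _ _ _ _
      by_cases h3 : x.1 < i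
      · rw [ih1 _ h3, zero_mul]
      · rw [ih2 _ (by omega), mul_zero]
  have h3 : ∀ (N : ℕ) (b : A), b ∈ FF A N → ∀ m < N, PA.co m (ψ b) = 0 := by
    intro N b hb m hm
    induction hb using AddSubgroup.closure_induction with
    | mem x hx =>
      obtain ⟨n, h4, h5⟩ := hx
      exact h2 n x h5 m (by omega)
    | zero => simp
    | add x y _ _ hx hy => simp only [map_add, hx, hy, add_zero]
    | neg x _ hx => simp only [map_neg, hx, neg_zero]
  obtain ⟨N, hN⟩ := PA.ev1_sum (ψ a)
  rw [← (h1 a).2, hN N le_rfl]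
  exact Finset.sum_eq_zero fun n _ => h3 (n + 1) a (ha _) n (by omega)

end Pool.Agent.Lib.MP_625934_al
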