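import Pool.Agent.Lib.MP_625934_al.Gen

set_option autoImplicit false

namespace Pool.Agent.Lib.MP_625934_al

open MonoidAlgebra

/-- The free nonassociative ring on three generators. -/
abbrev FM : Type := MonoidAlgebra ℤ (FreeMagma (Fin 3))

/-- The congruence generated by the alternative laws. -/
noncomputable def cAlt : RingCon FM :=
  ringConGen fun a b : FM => ∃ x y : FM,
    (a = (x * x) * y ∧ b = x * (x * y)) ∨ (a = (x * y) * y ∧ b = x * (y * y))

noncomputable def gF (i : ℕ) : cAlt.Quotient :=
  if h : i < 3 then qmk cAlt (single (FreeMagma.of ⟨i, h⟩) 1) else 0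

theorem isFree_gF : IsFree3 gF where
  alt := by
    constructor
    · intro x y
      obtain ⟨a, rfl⟩ := qmk_surj _ x
      obtain ⟨b, rfl⟩ := qmk_surj _ y
      simp only [← map_mul]
      exact (qmk_eq _ _ _).2 (RingConGen.Rel.of _ _ ⟨a, b, Or.inl ⟨rfl, rfl⟩⟩)
    · intro x y
      obtain ⟨a, rfl⟩ := qmk_surj _ x
      obtain ⟨b, rfl⟩ := qmk_surj _ y
      simp only [← map_mul]
      exact (qmk_eq _ _ _).2 (RingConGen.Rel.of _ _ ⟨a, b, Or.inr ⟨rfl, rfl⟩⟩)
  zero k hk := dif_neg (by omega)
  gens := by
    intro P h0 h1 h2 h3 b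
    obtain ⟨a, rfl⟩ := qmk_surj _ b
    have h4 : ∀ m : FreeMagma (Fin 3), ∃ p : Mg, qmk cAlt (single m 1) = ev gF p := by
      intro m
      induction m with
      | ih1 i =>
        refine ⟨Mg.gen i, ?_⟩
        rw [ev_gen gF i i.2, gF, dif_pos i.2]
      | ih2 m n hm hn =>
        obtain ⟨p, hp⟩ := hm
        obtain ⟨q, hq⟩ := hn
        refine ⟨.m p q, ?_⟩
        rw [ev, ← hp, ← hq, ← map_mul, single_mul_single, mul_one]
    have h5 : ∀ (n : ℤ) (u : cAlt.Quotient), P u → P (n • u) := by
      intro n u hu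
      induction n using Int.induction_on with
      | zero => rw [zero_zsmul]; exact h0
      | succ n ih => rw [add_zsmul, one_zsmul]; exact h2 _ _ ih hu
      | pred n ih => rw [sub_zsmul, one_zsmul]; exact h2 _ _ ih (h3 _ hu)
    induction a using MonoidAlgebra.induction_linear with
    | zero => rw [map_zero]; exact h0
    | add u v hu hv => rw [map_add]; exact h2 _ _ hu hv
    | single m r =>
      obtain ⟨p, hp⟩ := h4 m
      have : (single m r : FM) = r • single m 1 := by simp
      rw [this, map_zsmul, hp]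
      exact h5 _ _ (h1 p)
  lift B _ hB b := by
    let f : FM →ₙₐ[ℤ] B := MonoidAlgebra.liftMagma ℤ (FreeMagma.lift fun i : Fin 3 => b i)
    let k : RingCon FM :=
      { r := fun u v => f u = f v
        iseqv := ⟨fun _ => rfl, Eq.symm, Eq.trans⟩
        mul' := fun h1 h2 => by rw [map_mul, map_mul, h1, h2]
        add' := fun h1 h2 => by rw [map_add, map_add, h1, h2] }
    have hk : cAlt ≤ k := by
      refine RingCon.ringConGen_le.2 ?_
      rintro u v ⟨x, y, ⟨rfl, rfl⟩ | ⟨rfl, rfl⟩⟩
      · change f _ = f _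
        simp only [map_mul, hB.l]
      · change f _ = f _
        simp only [map_mul, hB.r]
    refine ⟨⟨⟨Quotient.lift f fun u v h => hk h, ?_⟩, map_zero f, ?_⟩, ?_⟩
    · intro u v
      obtain ⟨u, rfl⟩ := qmk_surj _ u
      obtain ⟨v, rfl⟩ := qmk_surj _ v
      exact map_mul f u v
    · intro u v
      obtain ⟨u, rfl⟩ := qmk_surj _ u
      obtain ⟨v, rfl⟩ := qmk_surj _ v
      exact map_add f u v
    · intro i hi
      rw [gF, dif_pos hi]
      change f _ = _
      simp [f]

/-- The free associative ring with unit on three generators. -/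
abbrev FA : Type := MonoidAlgebra ℤ (FreeMonoid (Fin 3))

theorem FA.scalar (f : FA)
    (h : ∀ i, f * single (FreeMonoid.of i) 1 = single (FreeMonoid.of i) 1 * f) :
    ∃ c, f = single 1 c := by
  refine ⟨f.coeff 1, ?_⟩
  ext w
  induction w using FreeMonoid.inductionOn' with
  | one => simp
  | of_mul j w _ =>
    have h1 := congrArg (fun u : FA => u.coeff (FreeMonoid.of j * w * FreeMonoid.of (j + 1)))
      (h (j + 1))
    simp only [coeff_mul_single_mul, mul_one] at h1
    rw [h1, coeff_single_mul_of_forall_mul_ne]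
    · rw [coeff_single, Finsupp.single_eq_of_ne]
      intro h2
      have h3 := congrArg FreeMonoid.toList h2
      simp at h3
    · intro d hd
      have h2 := congrArg FreeMonoid.toList hd
      simp only [FreeMonoid.toList_mul, FreeMonoid.toList_of, List.cons_append,
        List.cons.injEq] at h2
      have h3 := h2.1
      revert h3
      generalize j = j'
      revert j'
      decide

theorem IsFree3.center_mem {A : Type} [NonUnitalNonAssocRing A] {g : ℕ → A} (h : IsFree3 g)
    (z : A) (hz : ∀ x, z * x = x * z) (S : AddSubgroup A) (h1 : ∀ x y w, asc x y w ∈ S)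
    (h2 : ∀ a s, s ∈ S → a * s ∈ S ∧ s * a ∈ S) : z ∈ S := by
  let Q := (idl S h2).Quotient
  let _ : NonUnitalRing Q :=
    { (inferInstance : NonUnitalNonAssocRing Q) with
      mul_assoc := by
        intro a b c
        obtain ⟨a, rfl⟩ := qmk_surj _ a
        obtain ⟨b, rfl⟩ := qmk_surj _ b
        obtain ⟨c, rfl⟩ := qmk_surj _ c
        have := (idl_zero S h2 _).2 (h1 a b c)
        rw [map_asc] at this
        exact sub_eq_zero.1 this }
  obtain ⟨π, hπ⟩ := h.lift FA ⟨fun _ _ => mul_assoc _ _ _, fun _ _ => mul_assoc _ _ _⟩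
    fun i => if h : i < 3 then single (FreeMonoid.of ⟨i, h⟩) 1 else 0
  let Λ : FA →ₐ[ℤ] Unitization ℤ Q := MonoidAlgebra.lift ℤ _ _
    (FreeMonoid.lift fun i : Fin 3 => ((qmk (idl S h2) (g i) : Q) : Unitization ℤ Q))
  have h3 : ∀ i < 3, Λ (π (g i)) = ((qmk (idl S h2) (g i) : Q) : Unitization ℤ Q) := by
    intro i hi
    rw [hπ i hi, dif_pos hi]
    simp [Λ]
  have h4 : ∀ a, Λ (π a) = ((qmk (idl S h2) a : Q) : Unitization ℤ Q) := by
    intro a
    induction a using h.gens with
    | _zero => simp
    | _mon p =>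
      induction p with
      | x => exact h3 0 (by omega)
      | y => exact h3 1 (by omega)
      | z => exact h3 2 (by omega)
      | m p q hp hq => simp only [ev, map_mul, hp, hq, Unitization.inr_mul]
    | _add u v hu hv => simp only [map_add, hu, hv, Unitization.inr_add]
    | _neg u hu => simp only [map_neg, hu, Unitization.inr_neg]
  obtain ⟨c, hc⟩ := FA.scalar (π z) fun i => by
    have h5 := hπ i i.2
    rw [dif_pos i.2] at h5
    rw [← h5, ← map_mul, ← map_mul, hz]
  have h6 := h4 z
  have h8 : Λ (single 1 c) = Unitization.inl c := by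
    exact Λ.commutes c
  rw [hc, h8] at h6
  have h7 := congrArg (fun u : Unitization ℤ Q => u.snd) h6
  rw [← idl_zero S h2]
  simpa using h7.symm

end Pool.Agent.Lib.MP_625934_al
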