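import Pool.Agent.Lib.MP_625934_al.Ctx

set_option autoImplicit false

namespace Pool.Agent.Lib.MP_625934_al

open MvPolynomial

variable {A : Type} [NonUnitalNonAssocRing A] {g : ℕ → A} {φ : A →ₙ+* TT}

/-- Coordinates of the associators `(w, x, y)`. -/
def InG (φ : A →ₙ+* TT) (u : TT) : Prop := ∃ w, gxy (φ w) = u

theorem InG.add {u v : TT} (hu : InG φ u) (hv : InG φ v) : InG φ (u + v) := by
  obtain ⟨a, rfl⟩ := hu
  obtain ⟨b, rfl⟩ := hv
  exact ⟨a + b, by rw [map_add, map_add]⟩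

theorem InG.sub {u v : TT} (hu : InG φ u) (hv : InG φ v) : InG φ (u - v) := by
  obtain ⟨a, rfl⟩ := hu
  obtain ⟨b, rfl⟩ := hv
  exact ⟨a - b, by rw [map_sub, map_sub]⟩

theorem InG.io (h : Rep g φ) (u : TT) : InG φ (gxy (io u)) :=
  ⟨lf h u, by rw [(lf_spec h u).2]⟩

theorem InG.op0 (h : Rep g φ) {u : TT} (hu : InG φ u) : InG φ (opM 0 u) := by
  obtain ⟨a, rfl⟩ := hu
  exact ⟨g 0 * a, by rw [map_mul, h.map, gxy_R0]⟩

theorem InG.op1 (h : Rep g φ) {u : TT} (hu : InG φ u) : InG φ (opM 1 u) := by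
  obtain ⟨a, rfl⟩ := hu
  exact ⟨g 1 * a, by rw [map_mul, h.map, gxy_R1]⟩

theorem InG.op3 (h : Rep g φ) {u : TT} (hu : InG φ u) : InG φ (opM 3 u) := by
  obtain ⟨a, rfl⟩ := hu
  exact ⟨a * g 0, by rw [map_mul, h.map, gxy_L0]⟩

theorem InG.op4 (h : Rep g φ) {u : TT} (hu : InG φ u) : InG φ (opM 4 u) := by
  obtain ⟨a, rfl⟩ := hu
  exact ⟨a * g 1, by rw [map_mul, h.map, gxy_L1]⟩

theorem InG.alpha (h : Rep g φ) {u : TT} (hu : InG φ u) :
    InG φ (evM 19 • u - evM 5 • opM 3 u) := by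
  obtain ⟨a, rfl⟩ := hu
  rw [gxy_alpha]
  refine InG.add ⟨g 2 * (g 0 * a - a * g 0), ?_⟩ (InG.io h _)
  simp only [map_mul, map_sub, h.map]

theorem InG.beta (h : Rep g φ) {u : TT} (hu : InG φ u) :
    InG φ (evM 23 • u - evM 5 • opM 4 u) := by
  obtain ⟨a, rfl⟩ := hu
  rw [gxy_beta]
  refine InG.add ⟨g 2 * (g 1 * a - a * g 1), ?_⟩ (InG.io h _)
  simp only [map_mul, map_sub, h.map]

/-- Monomials in the trace and the norm of the third generator. -/
noncomputable def Sc : Submonoid RR := Submonoid.closure {evM 5, evM 13}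

theorem Sc.t3 : evM 5 ∈ Sc := Submonoid.subset_closure (by simp)

theorem Sc.n3 : evM 13 ∈ Sc := Submonoid.subset_closure (by simp)

@[elab_as_elim]
theorem Sc.ind {P : RR → Prop} {s : RR} (hs : s ∈ Sc) (h1 : P 1)
    (h2 : ∀ s, P s → P (evM 5 * s)) (h3 : ∀ s, P s → P (evM 13 * s)) : P s := by
  induction hs using Submonoid.closure_induction_left with
  | one => exact h1
  | mul_left x hx y _ ih =>
    rcases hx with rfl | rfl
    · exact h2 _ ih
    · exact h3 _ ih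

def InG2 (φ : A →ₙ+* TT) (u : TT) : Prop := ∀ s ∈ Sc, InG φ (s • u)

theorem InG2.inG {u : TT} (hu : InG2 φ u) : InG φ u := by simpa using hu 1 Sc.one_mem

theorem InG2.add {u v : TT} (hu : InG2 φ u) (hv : InG2 φ v) : InG2 φ (u + v) := fun s hs => by
  rw [smul_add]; exact (hu s hs).add (hv s hs)

theorem InG2.sub {u v : TT} (hu : InG2 φ u) (hv : InG2 φ v) : InG2 φ (u - v) := fun s hs => by
  rw [smul_sub]; exact (hu s hs).sub (hv s hs)

theorem InG2.io (h : Rep g φ) (u : TT) : InG2 φ (gxy (io u)) := fun s _ => by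
  rw [← map_smul, ← map_smul]; exact InG.io h _

theorem InG2.op0 (h : Rep g φ) {u : TT} (hu : InG2 φ u) : InG2 φ (opM 0 u) := fun s hs => by
  rw [← map_smul]; exact (hu s hs).op0 h

theorem InG2.op1 (h : Rep g φ) {u : TT} (hu : InG2 φ u) : InG2 φ (opM 1 u) := fun s hs => by
  rw [← map_smul]; exact (hu s hs).op1 h

theorem InG2.op3 (h : Rep g φ) {u : TT} (hu : InG2 φ u) : InG2 φ (opM 3 u) := fun s hs => by
  rw [← map_smul]; exact (hu s hs).op3 h

theorem InG2.op4 (h : Rep g φ) {u : TT} (hu : InG2 φ u) : InG2 φ (opM 4 u) := fun s hs => by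
  rw [← map_smul]; exact (hu s hs).op4 h

theorem InG2.sc {u : TT} (hu : InG2 φ u) {t : RR} (ht : t ∈ Sc) : InG2 φ (t • u) :=
  fun s hs => by rw [smul_smul]; exact hu _ (Sc.mul_mem hs ht)

theorem InG2.t1 (h : Rep g φ) {u : TT} (hu : InG2 φ u) : InG2 φ (evM 2 • u) := by
  obtain ⟨w, rfl⟩ := hu.inG
  rw [gxy_t1]
  exact (hu.op0 h).add (hu.op3 h)

theorem InG2.t2 (h : Rep g φ) {u : TT} (hu : InG2 φ u) : InG2 φ (evM 3 • u) := by
  obtain ⟨w, rfl⟩ := hu.inG
  rw [gxy_t2]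
  exact (hu.op1 h).add (hu.op4 h)

theorem InG2.n1 (h : Rep g φ) {u : TT} (hu : InG2 φ u) : InG2 φ (evM 7 • u) := by
  obtain ⟨w, rfl⟩ := hu.inG
  rw [gxy_n1]
  exact (hu.op0 h).op3 h

theorem InG2.n2 (h : Rep g φ) {u : TT} (hu : InG2 φ u) : InG2 φ (evM 11 • u) := by
  obtain ⟨w, rfl⟩ := hu.inG
  rw [gxy_n2]
  exact (hu.op1 h).op4 h

theorem InG2.t12 (h : Rep g φ) {u : TT} (hu : InG2 φ u) : InG2 φ (evM 17 • u) := by
  obtain ⟨w, rfl⟩ := hu.inG
  rw [gxy_t12]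
  exact ((hu.t2 h).t1 h).sub (((hu.op1 h).op3 h).add ((hu.op0 h).op4 h))

theorem InG2.t13 (h : Rep g φ) {u : TT} (hu : InG2 φ u) : InG2 φ (evM 19 • u) := by
  have h1 : InG2 φ (evM 19 • u - evM 5 • opM 3 u) := fun s hs => by
    have := (hu s hs).alpha h
    rwa [map_smul, smul_comm _ s, smul_comm _ s, ← smul_sub] at this
  simpa using h1.add ((hu.op3 h).sc Sc.t3)

theorem InG2.t23 (h : Rep g φ) {u : TT} (hu : InG2 φ u) : InG2 φ (evM 23 • u) := by
  have h1 : InG2 φ (evM 23 • u - evM 5 • opM 4 u) := fun s hs => by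
    have := (hu s hs).beta h
    rwa [map_smul, smul_comm _ s, smul_comm _ s, ← smul_sub] at this
  simpa using h1.add ((hu.op4 h).sc Sc.t3)

theorem InG2.t123 (h : Rep g φ) {u : TT} (hu : InG2 φ u) : InG2 φ (evM 29 • u) := by
  obtain ⟨w, rfl⟩ := hu.inG
  rw [gxy_t123]
  exact (((((((hu.t12 h).sc Sc.t3).add ((hu.t23 h).t1 h)).sub
    (((hu.sc Sc.t3).t2 h).t1 h)).add
    (((((hu.op0 h).sc Sc.t3).t2 h)).sub ((hu.op0 h).t23 h))).add ((hu.op1 h).t13 h)).sub
    (((hu.op1 h).op0 h).sc Sc.t3)).add (InG2.io h _)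

theorem InG2.X (h : Rep g φ) (a : Fin 10) {u : TT} (hu : InG2 φ u) :
    InG2 φ ((X a : RR) • u) := by
  rw [← evM_prm]
  fin_cases a
  · exact hu.t1 h
  · exact hu.t2 h
  · exact hu.sc Sc.t3
  · exact hu.n1 h
  · exact hu.n2 h
  · exact hu.sc Sc.n3
  · exact hu.t12 h
  · exact hu.t13 h
  · exact hu.t23 h
  · exact hu.t123 h

theorem InG2.smul (h : Rep g φ) (r : RR) {u : TT} (hu : InG2 φ u) : InG2 φ (r • u) := by
  induction r using MvPolynomial.induction_on generalizing u with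
  | C n =>
    intro s hs
    obtain ⟨w, hw⟩ := hu s hs
    refine ⟨n • w, ?_⟩
    rw [map_zsmul, map_zsmul, hw, C_smul_eq, smul_comm]
  | add p q hp hq => rw [add_smul]; exact (hp hu).add (hq hu)
  | mul_X p a hp => rw [mul_smul]; exact hp (hu.X h a)

theorem exists_cz (h : Rep g φ) (a : A) {s : RR} (hs : s ∈ Sc) :
    ∃ w, φ w * gT 2 - gT 2 * φ w = s • (φ a * gT 2 - gT 2 * φ a) := by
  refine Sc.ind hs ⟨a, (one_smul _ _).symm⟩ ?_ ?_
  · rintro s ⟨w, hw⟩
    refine ⟨g 2 * w + w * g 2, ?_⟩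
    simp only [map_add, map_mul, h.map]
    rw [cz_t3, hw, smul_smul]
  · rintro s ⟨w, hw⟩
    refine ⟨g 2 * (w * g 2), ?_⟩
    simp only [map_mul, h.map]
    rw [cz_n3, hw, smul_smul]

theorem InG2.cz (h : Rep g φ) (a : A) : InG2 φ (gxy (φ a * gT 2 - gT 2 * φ a)) ∧
    InG2 φ (gxy (gT 2 * (φ a * gT 2 - gT 2 * φ a))) := by
  constructor
  · intro s hs
    obtain ⟨w, hw⟩ := exists_cz h a hs
    refine ⟨w * g 2 - g 2 * w, ?_⟩
    rw [← map_smul, ← hw]
    simp only [map_sub φ, map_mul, h.map]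
  · intro s hs
    obtain ⟨w, hw⟩ := exists_cz h a hs
    refine ⟨g 2 * (w * g 2 - g 2 * w), ?_⟩
    rw [← map_smul, ← TT.mul_smul, ← hw]
    simp only [map_sub φ, map_mul, h.map]

theorem InG2.ext (h : Rep g φ) : ∀ s ∈ extM, InG2 φ (evS bT s) := by
  intro s hs
  have h0 := InG2.cz h (g 0)
  have h1 := InG2.cz h (g 1)
  rw [h.map] at h0 h1
  simp only [extM, List.mem_append, List.mem_cons, List.not_mem_nil, or_false, List.mem_map,
    List.mem_range] at hs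
  rcases hs with (rfl | rfl | rfl | rfl) | ⟨j, -, rfl⟩
  · rw [← LX.ev_evT, evS_sbas]
    exact h0.1
  · rw [← LX.ev_evT, evS_sbas]
    exact h1.1
  · rw [← LX.ev_evT, evS_sbas]
    exact h0.2
  · rw [← LX.ev_evT, evS_sbas]
    exact h1.2
  · rw [← LX.ev_evT]
    exact InG2.io h _

/-- Scalars whose multiple of the basic associator is of the form `(w, y, z)`. -/
def InL (φ : A →ₙ+* TT) (r : RR) : Prop := ∃ w, gyz (φ w) = r • bT 0

theorem InL.zero : InL φ 0 := ⟨0, by simp⟩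

theorem InL.add {r s : RR} (hr : InL φ r) (hs : InL φ s) : InL φ (r + s) := by
  obtain ⟨a, ha⟩ := hr
  obtain ⟨b, hb⟩ := hs
  exact ⟨a + b, by rw [map_add, map_add, ha, hb, add_smul]⟩

theorem InL.sub {r s : RR} (hr : InL φ r) (hs : InL φ s) : InL φ (r - s) := by
  obtain ⟨a, ha⟩ := hr
  obtain ⟨b, hb⟩ := hs
  exact ⟨a - b, by rw [map_sub, map_sub, ha, hb, sub_smul]⟩

theorem InL.t3 (h : Rep g φ) {r : RR} (hr : InL φ r) : InL φ (evM 5 * r) := by
  obtain ⟨a, ha⟩ := hr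
  refine ⟨g 2 * a + a * g 2, ?_⟩
  simp only [map_add, map_mul, h.map]
  rw [← gyz_R2, ← gyz_L2, ha, map_smul, map_smul, ← smul_add, e0_t3, smul_smul, mul_comm]

theorem InL.n3 (h : Rep g φ) {r : RR} (hr : InL φ r) : InL φ (evM 13 * r) := by
  obtain ⟨a, ha⟩ := hr
  refine ⟨g 2 * a * g 2, ?_⟩
  simp only [map_mul, h.map]
  rw [← gyz_L2, ← gyz_R2, ha, map_smul, map_smul, e0_n3, smul_smul, mul_comm]

theorem exists_uz (h : Rep g φ) {s : RR} (hs : s ∈ Sc) :
    ∃ (u : A) (γ σ : RR), φ u = s • gT 0 + γ • gT 2 + σ • bT 0 ∧ InL φ γ ∧ InL φ σ ∧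
      InL φ (s * evM 2) ∧ InL φ (s * evM 19) := by
  refine Sc.ind hs ?_ ?_ ?_
  · refine ⟨g 0, 0, 0, by simp [h.map], InL.zero, InL.zero, ⟨g 0 * g 0, ?_⟩,
      ⟨g 0 * (g 2 * g 0), ?_⟩⟩
    · simp only [map_mul, h.map, gyz_xx, one_mul]
    · simp only [map_mul, h.map, gyz_xzx, one_mul]
  · rintro s ⟨u, γ, σ, hu, h1, h2, h3, h4⟩
    refine ⟨g 2 * u + u * g 2, s * evM 2 + (evM 5 * γ + evM 5 * γ) + (σ + σ),
      s * evM 19 - evM 5 * (s * evM 2) - (evM 13 * γ + evM 13 * γ), ?_,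
      (h3.add ((h1.t3 h).add (h1.t3 h))).add (h2.add h2),
      (h4.sub (h3.t3 h)).sub ((h1.n3 h).add (h1.n3 h)), ?_, ?_⟩
    · have e : gT 2 * gT 0 = evM 5 • gT 0 + evM 2 • gT 2 + (evM 19 - evM 2 * evM 5) • bT 0 -
          gT 0 * gT 2 := eq_sub_of_add_eq vz_x
      simp only [map_add, map_mul, h.map, hu, mul_add, add_mul, TT.smul_mul, TT.mul_smul, zz,
        bT0_mul, mul_bT0, e]
      module
    · rw [mul_assoc]; exact h3.t3 h
    · rw [mul_assoc]; exact h4.t3 h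
  · rintro s ⟨u, γ, σ, hu, h1, h2, h3, h4⟩
    refine ⟨g 2 * (u * g 2), s * evM 19 + (evM 5 * (evM 5 * γ) - evM 13 * γ) + evM 5 * σ,
      0 - evM 13 * (s * evM 2) - evM 5 * (evM 13 * γ) - evM 13 * σ, ?_,
      (h4.add (((h1.t3 h).t3 h).sub (h1.n3 h))).add (h2.t3 h),
      ((InL.zero.sub (h3.n3 h)).sub ((h1.n3 h).t3 h)).sub (h2.n3 h), ?_, ?_⟩
    · simp only [map_mul, h.map, hu, mul_add, add_mul, mul_sub, TT.smul_mul, TT.mul_smul, zz,
        bT0_mul, mul_bT0, uz_x]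
      module
    · rw [mul_assoc]; exact h3.n3 h
    · rw [mul_assoc]; exact h4.n3 h

variable {H : AddSubgroup A}

theorem kill_core (h : Rep g φ) (hH : Flt g φ H) (om : FP) (ω : A → A → A → A)
    (hne : noE om = true) (hact : ∀ d, actP g om d = ω d (g 0) (g 1))
    (hadd1 : ∀ d e a b, ω (d + e) a b = ω d a b + ω e a b)
    (hadd2 : ∀ d a a' b, ω d (a + a') b = ω d a b + ω d a' b)
    (he2 : ∀ w a b, ω (asc w a b) a b = 0)
    (hK : ∀ k ∈ DD g, φ k = 0 → ∀ a b, ω k a b ∈ H) (c : List CT) (hc : chkK om c) (r : RR) :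
    Psi h hH (cand opM om (r • bT 0)) = 0 := by
  have hD := DD.asc h.gens h.alt
  have h1 : ∀ u, InG φ u → Psi h hH (cand opM om u) = 0 := by
    rintro u ⟨w, rfl⟩
    have h2 : Lift g φ (asc w (g 0) (g 1)) (gxy (φ w)) :=
      ⟨hD _ _ _, by rw [map_asc, h.map, h.map, asc_xy]⟩
    rw [Psi_cand h hH om hne h2, hact, he2]
    rfl
  have h2 : ∀ u, InG2 φ u → cand opM om u ∈ ZR h hH := by
    intro u hu r
    rw [← map_smul]
    exact h1 _ (hu.smul h r).inG
  have h3 : ∀ a : Fin 10, a ≠ 2 → a ≠ 5 → cand opM om ((X a : RR) • bT 0) ∈ ZR h hH := by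
    intro a ha2 ha5
    rw [← evM_prm, ← evS_one, cand_evT opM sopM opM_evT]
    refine cchk_sound _ (ZR_rel h hH) _ ?_ _ _ (hc a ha2 ha5)
    intro s hs
    obtain ⟨t, ht, rfl⟩ := List.mem_map.1 hs
    rw [← cand_evT opM sopM opM_evT]
    exact h2 _ (InG2.ext h t ht)
  have h4 : ∀ s ∈ Sc, Psi h hH (cand opM om (s • bT 0)) = 0 := by
    intro s hs
    obtain ⟨u, γ, σ, hu, ⟨w, hw⟩, -⟩ := exists_uz h hs
    have h5 : Lift g φ (asc u (g 1) (g 2)) (s • bT 0) := by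
      refine ⟨hD _ _ _, ?_⟩
      rw [map_asc, h.map, h.map, asc_yz, hu]
      simp only [map_add, map_smul, gyz_x, gyz_z, gyz_1, smul_zero, add_zero]
    have h6 : φ (asc u (g 0) (g 1) + asc w (g 2) (g 1)) = 0 := by
      rw [h.alt.swap23 w, map_add, map_neg, map_asc, map_asc, h.map, h.map, h.map, asc_xy,
        asc_yz, hu, hw]
      simp only [map_add, map_smul, gxy_x, gxy_z, gxy_1, smul_zero, add_zero, zero_add,
        add_neg_cancel]
    have h7 := hK _ (add_mem (hD _ _ _) (hD _ _ _)) h6 (g 2) (g 1)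
    have h8 := he2 u (g 0 + g 2) (g 1)
    rw [asc_add2, hadd1, hadd2, hadd2, he2, he2, zero_add, add_zero] at h8
    have h9 := hadd1 (asc u (g 2) (g 1)) (asc u (g 1) (g 2)) (g 0) (g 1)
    have h10 : ω 0 (g 0) (g 1) = 0 := by simpa [asc_zero1] using he2 0 (g 0) (g 1)
    rw [h.alt.add23, h10] at h9
    rw [hadd1, he2, add_zero] at h7
    rw [Psi_cand h hH om hne h5, hact, QuotientAddGroup.eq_zero_iff]
    have h11 : ω (asc u (g 1) (g 2)) (g 0) (g 1) = ω (asc u (g 0) (g 1)) (g 2) (g 1) := by grind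
    rw [h11]
    exact h7
  have h5 : ∀ s ∈ Sc, Psi h hH (cand opM om ((s * r) • bT 0)) = 0 := by
    induction r using MvPolynomial.induction_on with
    | C n =>
      intro s hs
      rw [mul_comm, mul_smul, C_smul_eq, map_zsmul, map_zsmul, h4 s hs, smul_zero]
    | add p q hp hq =>
      intro s hs
      rw [mul_add, add_smul, map_add, map_add, hp s hs, hq s hs, add_zero]
    | mul_X p a hp =>
      intro s hs
      by_cases ha2 : a = 2
      · subst ha2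
        rw [mul_comm p, ← mul_assoc, ← evM_prm]
        exact hp _ (Sc.mul_mem hs Sc.t3)
      by_cases ha5 : a = 5
      · subst ha5
        rw [mul_comm p, ← mul_assoc, ← evM_prm]
        exact hp _ (Sc.mul_mem hs Sc.n3)
      rw [← mul_assoc, mul_smul, map_smul]
      exact h3 a ha2 ha5 _
  simpa using h5 1 Sc.one_mem

theorem kill (h : Rep g φ) (hH : Flt g φ H) {d : A} {r : RR} (hd : Lift g φ d (r • bT 0)) :
    wR d (g 0) (g 1) ∈ H ∧ wL d (g 0) (g 1) ∈ H := by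
  constructor
  · have h1 := kill_core h hH (omR .x .y) wR (by decide +kernel) (actP_omR g h.alt _ _)
      (fun d e a b => by simp only [wR, add_mul]; abel)
      (fun d a a' b => by simp only [wR, add_mul, mul_add]; abel) h.alt.e2R
      (fun k hk h0 a b => sub_mem (hH.ideal b _ (hH.ker k hk h0 a).2).2 (hH.ker k hk h0 _).2)
      _ chk_KR r
    rw [Psi_cand h hH _ (by decide +kernel) hd, actP_omR g h.alt, QuotientAddGroup.eq_zero_iff]
      at h1
    exact h1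
  · have h1 := kill_core h hH (omL .x .y) wL (by decide +kernel) (actP_omL g h.alt _ _)
      (fun d e a b => by simp only [wL, mul_add]; abel)
      (fun d a a' b => by simp only [wL, add_mul, mul_add]; abel) h.alt.e2L
      (fun k hk h0 a b => sub_mem (hH.ideal a _ (hH.ker k hk h0 b).1).1 (hH.ker k hk h0 _).1)
      _ chk_KL r
    rw [Psi_cand h hH _ (by decide +kernel) hd, actP_omL g h.alt, QuotientAddGroup.eq_zero_iff]
      at h1
    exact h1

end Pool.Agent.Lib.MP_625934_al
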