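import Pool.Agent.Lib.MP_625934_al.Kill
import Pool.Agent.Lib.MP_625934_al.Filt

set_option autoImplicit false

namespace Pool.Agent.Lib.MP_625934_al

open MvPolynomial

theorem exists_lam0 {Q : Type} [AddCommGroup Q] [Module RR Q] (σ : Fin 10 → Q)
    (hσ : ∀ a b, (X a : RR) • σ b = (X b : RR) • σ a) :
    ∃ L : RR →+ Q, ∀ a p, L (X a * p) = p • σ a := by
  classical
  let f : (Fin 10 →₀ ℕ) → Q := fun m => if h : ∃ a, m a ≠ 0 then
    (monomial (m - Finsupp.single h.choose 1) 1 : RR) • σ h.choose else 0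
  let L : RR →ₗ[ℤ] Q := (basisMonomials (Fin 10) ℤ).constr ℤ f
  have hL : ∀ m, L (monomial m 1) = f m := fun m => (basisMonomials (Fin 10) ℤ).constr_basis ℤ f m
  have hf : ∀ a u, f (Finsupp.single a 1 + u) = (monomial u 1 : RR) • σ a := by
    intro a u
    have h : ∃ b, (Finsupp.single a 1 + u : Fin 10 →₀ ℕ) b ≠ 0 := ⟨a, by simp⟩
    have h1 := h.choose_spec
    simp only [f, dif_pos h]
    generalize h.choose = b at h1 ⊢
    by_cases hab : b = a
    · subst hab
      rw [add_tsub_cancel_left]
    · have h2 : Finsupp.single b 1 ≤ u := by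
        rw [Finsupp.single_le_iff]
        rw [Finsupp.add_apply, Finsupp.single_eq_of_ne hab] at h1
        omega
      obtain ⟨u', rfl⟩ := exists_add_of_le h2
      rw [add_left_comm, add_tsub_cancel_left]
      have e : ∀ c : Fin 10, (monomial (Finsupp.single c 1 + u') 1 : RR) =
          monomial u' 1 * X c := by
        intro c
        rw [X, monomial_mul, add_comm, mul_one]
      rw [e, e, mul_smul, mul_smul, hσ]
  refine ⟨L.toAddMonoidHom, fun a p => ?_⟩
  change L _ = _
  induction p using MvPolynomial.induction_on' with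
  | monomial u c =>
    have e : (monomial u c : RR) = c • monomial u 1 := by simp [smul_monomial]
    rw [e, mul_smul_comm, map_zsmul, X, monomial_mul, mul_one, hL, hf, smul_assoc]
  | add p q hp hq => rw [mul_add, map_add, hp, hq, add_smul]

theorem lam_evS {Q : Type} [AddCommGroup Q] [Module RR Q] (f : CC →ₗ[RR] Q) (L : RR →+ Q)
    (hL : ∀ a p, L (X a * p) = p • f (evS bC (sig a))) (s : SV) (hs : okz s = true) (r : RR) :
    L (co0 (r • evS bT s)) + f (linT bC tabPar (r • evS bT s)) = r • f (evS bC (slam s)) ∧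
      constantCoeff (co0 (r • evS bT s)) = 0 := by
  induction s with
  | nil => simp [evS_nil, slam]
  | cons t s ih =>
    obtain ⟨m, k, c⟩ := t
    simp only [okz, List.all_cons, Bool.and_eq_true, Bool.or_eq_true, bne_iff_ne, beq_iff_eq]
      at hs
    obtain ⟨h1, h2⟩ := ih hs.2
    have key : L (co0 (r • c • evM m • bT k)) + f (linT bC tabPar (r • c • evM m • bT k)) =
        r • f (evS bC (bif k == 0 then sscale (m / prm (pick m)) c (sig (pick m))
          else sscale m c (lk tabPar k))) ∧
        constantCoeff (co0 (r • c • evM m • bT k)) = 0 := by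
      by_cases hk : k = 0
      · subst hk
        have h3 : evM m = X (pick m) * evM (m / prm (pick m)) := by
          rw [← evM_prm, ← evM_mul, hs.1.resolve_left (by simp)]
        have h4 : co0 (r • c • evM m • bT 0) = X (pick m) * (r * c • evM (m / prm (pick m))) := by
          simp only [map_smul, map_zsmul, co0_bT, if_true, smul_eq_mul, h3, zsmul_eq_mul]
          ring
        have h5 : linT bC tabPar (bT 0) = 0 := by
          rw [linT_bT]
          rfl
        rw [h4, hL]
        simp [h5, evS_sscale, mul_smul, Int.cast_smul_eq_zsmul]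
      · have h4 : co0 (r • c • evM m • bT k) = 0 := by
          simp only [map_smul, map_zsmul, co0_bT, if_neg hk, smul_zero]
        have h5 : (k == 0) = false := by simpa using hk
        rw [h4, h5, cond_false, evS_sscale]
        simp [linT_bT]
    simp only [evS_cons, slam, evS_sadd, smul_add, map_add, h2, key.2, ← h1, ← key.1]
    exact ⟨by abel, add_zero _⟩

variable {A : Type} [NonUnitalNonAssocRing A] {g : ℕ → A} {φ : A →ₙ+* TT} {H : AddSubgroup A}

theorem step (h : Rep g φ) (hH : Flt g φ H)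
    (hom : ∀ p ∈ omL6, cand opM p (bT 0) ∈ ZR h hH) (k : A) (hk : k ∈ DD g) (h0 : φ k = 0) :
    k ∈ H := by
  have hext : ∀ s ∈ extC, evS bC s ∈ ZR h hH := by
    intro s hs
    obtain ⟨p, hp, rfl⟩ := List.mem_map.1 hs
    rw [← cand_evT opM sopM opM_evT, evS_sbas]
    exact hom p hp
  let f := (ZR h hH).mkQ
  have hB : ∀ a b : Fin 10, b < a →
      (X a : RR) • f (evS bC (sig b)) = (X b : RR) • f (evS bC (sig a)) := by
    intro a b hab
    have h1 := cchk_sound _ (ZR_rel h hH) _ hext _ _ (chk_B a b hab)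
    rw [evS_sadd, evS_sscale, evS_sscale, evM_prm, evM_prm, one_smul, neg_one_smul,
      ← sub_eq_add_neg, ← Submodule.Quotient.eq] at h1
    rw [← map_smul, ← map_smul]
    exact h1
  obtain ⟨L, hL⟩ := exists_lam0 (fun a => f (evS bC (sig a))) fun a b => by
    rcases lt_trichotomy a b with hab | rfl | hab
    · exact (hB b a hab).symm
    · rfl
    · exact hB a b hab
  have hS : ∀ l u, L (co0 (opM l u)) + f (linT bC tabPar (opM l u)) = f (sing l u) ∧
      constantCoeff (co0 (opM l u)) = 0 := by
    intro l u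
    by_cases hl : l < 6
    · have h1 : ∀ r : RR, L (co0 (opM l (r • u))) + f (linT bC tabPar (opM l (r • u))) =
          f (sing l (r • u)) ∧ constantCoeff (co0 (opM l (r • u))) = 0 := by
        induction u using TT.ind with
        | hb j hj =>
          intro r
          have h2 := lam_evS f L hL _ (allLt_spec (allLt_spec chk_okz l hl) j hj) r
          have h3 := cchk_sound _ (ZR_rel h hH) _ hext _ _
            (allLt_spec (allLt_spec chk_A l hl) j hj)
          have e1 : (l + 8 * j) % 8 = l := by omega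
          have e2 : (l + 8 * j) / 8 = j := by omega
          rw [evS_sadd, evS_sscale, evM_one, one_smul, neg_one_smul, ← sub_eq_add_neg,
            ← Submodule.Quotient.eq, evS_sbas, bC, e1, e2] at h3
          have h4 : f (sing l (bT j)) = f (evS bC (slam (lk (tabM.getD l []) j))) := h3
          rw [map_smul (opM l), map_smul (sing l), map_smul f, h4, opM, linT_bT]
          exact h2
        | h0 => simp
        | hadd u v hu hv =>
          intro r
          simp only [smul_add, map_add, (hu r).2, (hv r).2, ← (hu r).1, ← (hv r).1]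
          exact ⟨by abel, add_zero _⟩
        | hsm s u hu =>
          intro r
          rw [smul_smul]
          exact hu _
      simpa using h1 1
    · rw [opM_ge l (by omega), sing, dif_neg hl]
      simp
  have hD : ∀ d ∈ DD g, ∃ (n : ℤ) (c : CC) (v : TT), φ d = io (n • bT 0 + v) ∧
      (QuotientAddGroup.mk (d - n • asc (g 0) (g 1) (g 2)) : A ⧸ H) = Psi h hH c ∧
      L (co0 v) + f (linT bC tabPar v) = f c ∧ constantCoeff (co0 v) = 0 := by
    intro d hd
    induction hd using AddSubgroup.closure_induction with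
    | mem x hx =>
      obtain ⟨w, rfl⟩ := hx
      cases w with
      | nil => exact ⟨1, 0, 0, by simpa [actW] using (Lift.base h).2, by simp [actW], by simp⟩
      | cons l w =>
        have h1 := (Lift.base h).actW h w
        refine ⟨0, sing l (actWL opM w (bT 0)), opM l (actWL opM w (bT 0)), ?_, ?_, hS _ _⟩
        · simpa [actW] using (h1.opA h l).2
        · rw [Psi_sing, psi_spec h hH l h1]
          simp [actW]
    | zero => exact ⟨0, 0, 0, by simp, by simp, by simp⟩
    | add x y _ _ hx hy =>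
      obtain ⟨n, c, v, h1, h2, h3, h4⟩ := hx
      obtain ⟨n', c', v', h1', h2', h3', h4'⟩ := hy
      refine ⟨n + n', c + c', v + v', ?_, ?_, ?_, ?_⟩
      · rw [map_add, h1, h1', ← map_add, add_smul, add_add_add_comm]
      · rw [map_add, ← h2, ← h2', ← QuotientAddGroup.mk_add, add_smul, add_sub_add_comm]
      · simp only [map_add, ← h3, ← h3']
        abel
      · rw [map_add, map_add, h4, h4', add_zero]
    | neg x _ hx =>
      obtain ⟨n, c, v, h1, h2, h3, h4⟩ := hx
      refine ⟨-n, -c, -v, ?_, ?_, ?_, ?_⟩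
      · rw [map_neg, h1, ← map_neg, neg_smul, neg_add]
      · rw [map_neg, ← h2, ← QuotientAddGroup.mk_neg, neg_smul, neg_sub']
      · simp only [map_neg, ← h3]
        abel
      · rw [map_neg, map_neg, h4, neg_zero]
  obtain ⟨n, c, v, h1, h2, h3, h4⟩ := hD k hk
  have h5 : n • bT 0 + v = 0 := io_inj (h1.symm.trans h0)
  have h6 : n = 0 := by
    have h7 := congrArg (fun u => constantCoeff (co0 u)) h5
    simpa [h4, co0_bT] using h7
  subst h6
  rw [zero_smul, zero_add] at h5
  subst h5
  have h7 : f c = 0 := by simpa using h3.symm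
  have h8 : c ∈ ZR h hH := (Submodule.Quotient.mk_eq_zero _).1 h7
  have h9 := h8 1
  rw [one_smul, ← h2, QuotientAddGroup.eq_zero_iff] at h9
  simpa using h9

theorem opA_cyc (hz : ∀ k, 3 ≤ k → g k = 0) (l : ℕ) (d : A) :
    opA (cyc g) (shL l) d = opA g l d := by
  by_cases h1 : l < 6
  · interval_cases l <;> rfl
  · rw [shL, if_neg (by omega), if_neg h1, opA, opA, if_neg (by omega), if_neg (by omega), cyc,
      if_neg (by omega), hz _ (by omega)]

theorem actP_cyc (hz : ∀ k, 3 ≤ k → g k = 0) (p : FP) (d : A) :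
    actP (cyc g) (shP p) d = actP g p d := by
  have h1 : ∀ w : List ℕ, actW (cyc g) (w.map shL) d = actW g w d := by
    intro w
    induction w with
    | nil => rfl
    | cons l w ih => simp only [List.map_cons, actW, ih, opA_cyc hz]
  induction p with
  | nil => rfl
  | cons t p ih =>
    change t.2 • actW (cyc g) (t.1.map shL) d + actP (cyc g) (shP p) d = _
    rw [h1, ih]
    rfl

theorem IsFree3.rep (h : IsFree3 g) : ∃ φ, Rep g φ := by
  obtain ⟨φ, hφ⟩ := h.lift TT TT.isAlt gT
  refine ⟨φ, h.alt, h.zero, h.gens, fun k => ?_⟩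
  by_cases hk : k < 3
  · exact hφ k hk
  · rw [h.zero k (by omega), map_zero, gT, if_neg hk]

/-- The elements whose coordinates are multiples of the first basis vector. -/
def Scal (g : ℕ → A) (φ : A →ₙ+* TT) (d : A) : Prop := ∃ r : RR, Lift g φ d (r • bT 0)

theorem Scal.base (h : Rep g φ) (n : ℤ) : Scal g φ (n • asc (g 0) (g 1) (g 2)) :=
  ⟨C n, by rw [C_smul_eq]; exact (Lift.base h).zsmul n⟩

theorem Scal.add {d e : A} (hd : Scal g φ d) (he : Scal g φ e) : Scal g φ (d + e) := by
  obtain ⟨r, hr⟩ := hd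
  obtain ⟨s, hs⟩ := he
  exact ⟨r + s, by rw [add_smul]; exact hr.add hs⟩

theorem Scal.act (h : Rep g φ) (p : FP) (hp : tag0 (sactP sopM p (sbas 0)) = true) {d : A}
    (hd : Scal g φ d) : Scal g φ (actP g p d) := by
  obtain ⟨r, hr⟩ := hd
  obtain ⟨s, hs⟩ := act_e0_tag0 p hp
  have := hr.actP h p
  rw [map_smul, hs, smul_smul] at this
  exact ⟨_, this⟩

theorem ker_FF (N : ℕ) : ∀ (g : ℕ → A) (φ : A →ₙ+* TT), IsFree3 g → Rep g φ →
    ∀ k ∈ DD g, φ k = 0 → k ∈ FF A (N + 1) := by
  induction N with
  | zero => exact fun _ _ _ _ k _ _ => FF.one k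
  | succ N ih =>
    intro g φ hg h
    have hF : ∀ (g : ℕ → A) (φ : A →ₙ+* TT), IsFree3 g → Rep g φ → Flt g φ (FF A (N + 1 + 1)) :=
      fun g φ hg h => ⟨fun a k hk => ⟨FF.mono (FF.mul hk a).1, FF.mono (FF.mul hk a).2⟩,
        fun k hk h0 a => FF.mul (ih g φ hg h k hk h0) a⟩
    have hH := hF g φ hg h
    obtain ⟨φ1, h1⟩ := hg.cyc.rep
    obtain ⟨φ2, h2⟩ := hg.cyc.cyc.rep
    refine step h hH fun p hp r => ?_
    obtain ⟨d, hd, ⟨r1, hd1⟩, ⟨r2, hd2⟩⟩ := h.poly_ind
      (fun d => Scal (cyc g) φ1 d ∧ Scal (cyc (cyc g)) φ2 d)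
      (fun n => ⟨by rw [hg.alt.cyc]; exact Scal.base h1 n,
        by rw [hg.alt.cyc, hg.alt.cyc]; exact Scal.base h2 n⟩)
      (fun a b ha hb => ⟨ha.1.add hb.1, ha.2.add hb.2⟩)
      (fun a d hd => ⟨by rw [← actP_cyc hg.zero]; exact hd.1.act h1 _ (chk_sh a).1,
        by rw [← actP_cyc hg.zero, ← actP_cyc hg.cyc.zero]; exact hd.2.act h2 _ (chk_sh a).2⟩) r
    have k0 := kill h hH hd
    have k1 := kill h1 (hF _ _ hg.cyc h1) hd1
    have k2 := kill h2 (hF _ _ hg.cyc.cyc h2) hd2
    rw [← map_smul, Psi_cand h hH p (List.all_eq_true.1 chk_noE6 p hp) hd,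
      QuotientAddGroup.eq_zero_iff]
    simp only [omL6, List.mem_cons, List.not_mem_nil, or_false] at hp
    rcases hp with rfl | rfl | rfl | rfl | rfl | rfl
    · rw [actP_omR g hg.alt]; exact k0.1
    · rw [actP_omL g hg.alt]; exact k0.2
    · rw [actP_omR g hg.alt]; exact k1.1
    · rw [actP_omL g hg.alt]; exact k1.2
    · rw [actP_omR g hg.alt]; exact k2.1
    · rw [actP_omL g hg.alt]; exact k2.2

theorem IsFree3.comm_of_nuc (hg : IsFree3 g) (n : A) (h1 : ∀ a b, asc n a b = 0)
    (hn : n ∈ DD g) (a : A) : n * a = a * n := by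
  obtain ⟨φ, h⟩ := hg.rep
  have h2 : ∀ i j, asc (φ n) (gT i) (gT j) = 0 := by
    intro i j
    rw [← h.map, ← h.map, ← map_asc, h1, map_zero]
  have h3 : ∀ i < 3, n * g i = g i * n := by
    intro i hi
    refine sub_eq_zero.1 (hg.eq_zero _ fun N => FF.mono (ker_FF N g φ hg h _ ?_ ?_))
    · exact sub_mem (DD.mul hg.gens hg.alt _ _ hn).2 (DD.mul hg.gens hg.alt _ _ hn).1
    · rw [map_sub, map_mul, map_mul, h.map,
        MP_625934_al.comm_of_nuc _ (h2 _ _) (h2 _ _) (h2 _ _) i hi, sub_self]
  induction a using hg.gens with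
  | _zero => simp
  | _mon p =>
    induction p with
    | x => exact h3 0 (by omega)
    | y => exact h3 1 (by omega)
    | z => exact h3 2 (by omega)
    | m p q hp hq =>
      have e1 := sub_eq_zero.1 (h1 (ev g p) (ev g q))
      have e2 : asc (ev g p) n (ev g q) = 0 := by rw [hg.alt.swap12, h1, neg_zero]
      have e3 : asc (ev g p) (ev g q) n = 0 := by rw [← hg.alt.cyc, h1]
      rw [ev, ← e1, hp, sub_eq_zero.1 e2, hq, sub_eq_zero.1 e3]
  | _add u v hu hv => rw [mul_add, add_mul, hu, hv]
  | _neg u hu => rw [mul_neg, neg_mul, hu]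

end Pool.Agent.Lib.MP_625934_al
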