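import Pool.Agent.Lib.MP_625934_al.TData

set_option autoImplicit false

namespace Pool.Agent.Lib.MP_625934_al

open MvPolynomial

/-- The multiplication as a bilinear map. -/
noncomputable def mulT : TT →ₗ[RR] TT →ₗ[RR] TT := linF fun i => linT bT (tabT.getD i [])

noncomputable instance : Mul TT := ⟨fun u v => mulT u v⟩

theorem TT.mul_def (u v : TT) : u * v = mulT u v := rfl

noncomputable instance : NonUnitalNonAssocRing TT :=
  { (inferInstance : AddCommGroup TT), (inferInstance : Mul TT) with
    left_distrib := fun a b c => map_add (mulT a) b c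
    right_distrib := fun a b c => by simp only [TT.mul_def, map_add, LinearMap.add_apply]
    zero_mul := fun a => by simp only [TT.mul_def, map_zero, LinearMap.zero_apply]
    mul_zero := fun a => map_zero (mulT a) }

theorem TT.smul_mul (r : RR) (u v : TT) : (r • u) * v = r • (u * v) := by
  simp only [TT.mul_def, map_smul, LinearMap.smul_apply]

theorem TT.mul_smul (r : RR) (u v : TT) : u * (r • v) = r • (u * v) := map_smul (mulT u) r v

def tmulS : SV → SV → SV
  | [], _ => []
  | (m, k, c) :: a, b =>
    sadd (sscale m c (bif Nat.blt k 8 then sapp (lk (tabT.getD k [])) b else [])) (tmulS a b)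

theorem evT_tmulS (a b : SV) : evS bT a * evS bT b = evS bT (tmulS a b) := by
  induction a with
  | nil => exact zero_mul _
  | cons t a ih =>
    obtain ⟨m, k, c⟩ := t
    have h1 : bT k * evS bT b =
        evS bT (bif Nat.blt k 8 then sapp (lk (tabT.getD k [])) b else []) := by
      rw [TT.mul_def, mulT, linF_bT]
      by_cases h : k < 8
      · rw [if_pos h, blt_true h, cond_true, linT_evT]
      · rw [if_neg h, blt_false h, cond_false]
        rfl
    rw [tmulS, evS_sadd, evS_sscale, ← h1, ← ih]
    simp only [evS_cons, add_mul, smul_mul_assoc, TT.smul_mul]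

/-- The three generators. -/
noncomputable def gT (k : ℕ) : TT := if k < 3 then bT (k + 1) else 0

noncomputable def opT (l : ℕ) : TT →ₗ[RR] TT :=
  if l < 3 then mulT.flip (gT l) else mulT (gT (l - 3))

theorem opT_eq (l : ℕ) (v : TT) : opT l v = opA gT l v := by
  unfold opT opA
  split_ifs <;> rfl

def sgen (k : ℕ) : SV := bif Nat.blt k 3 then sbas (k + 1) else []

theorem evT_sgen (k : ℕ) : evS bT (sgen k) = gT k := by
  unfold sgen gT
  by_cases h : k < 3
  · rw [if_pos h, blt_true h, cond_true, evS_sbas]
  · rw [if_neg h, blt_false h, cond_false]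
    rfl

def sopT (l : ℕ) (s : SV) : SV :=
  bif Nat.blt l 3 then tmulS s (sgen l) else tmulS (sgen (l - 3)) s

theorem opT_evT (l : ℕ) (s : SV) : opT l (evS bT s) = evS bT (sopT l s) := by
  rw [opT_eq]
  unfold opA sopT
  by_cases h : l < 3
  · rw [if_pos h, blt_true h, cond_true, ← evT_tmulS, evT_sgen]
  · rw [if_neg h, blt_false h, cond_false, ← evT_tmulS, evT_sgen]

theorem actWL_opT (w : List ℕ) (v : TT) : actWL opT w v = actW gT w v := by
  induction w with
  | nil => rfl
  | cons l w ih => simp only [actWL, actW, LinearMap.comp_apply, ih, opT_eq]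

theorem actPL_opT (p : FP) (v : TT) : actPL opT p v = actP gT p v := by
  induction p with
  | nil => rfl
  | cons t p ih =>
    simp only [actPL, actP, LinearMap.add_apply, LinearMap.smul_apply, ih, actWL_opT]

/-- The operators in coordinates. -/
noncomputable def opM (l : ℕ) : TT →ₗ[RR] TT := linT bT (tabM.getD l [])

def sopM (l : ℕ) (s : SV) : SV := sapp (lk (tabM.getD l [])) s

theorem opM_evT (l : ℕ) (s : SV) : opM l (evS bT s) = evS bT (sopM l s) := linT_evT bT _ s

/-- Expressions for linear maps. -/
inductive LX : Type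
  | one : LX
  | tab (t : List SV) : LX
  | comp (a b : LX) : LX
  | add (a b : LX) : LX
  | sub (a b : LX) : LX
  | sc (m : ℕ) (a : LX) : LX
  | lm (s : SV) : LX
  | rm (s : SV) : LX
  | oT (l : ℕ) : LX
  | oM (l : ℕ) : LX
  | pT (p : FP) : LX

noncomputable def LX.ev : LX → TT →ₗ[RR] TT
  | .one => LinearMap.id
  | .tab t => linT bT t
  | .comp a b => a.ev ∘ₗ b.ev
  | .add a b => a.ev + b.ev
  | .sub a b => a.ev - b.ev
  | .sc m a => evM m • a.ev
  | .lm s => mulT (evS bT s)
  | .rm s => mulT.flip (evS bT s)
  | .oT l => opT l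
  | .oM l => opM l
  | .pT p => actPL opT p

def LX.sev : LX → SV → SV
  | .one, s => s
  | .tab t, s => sapp (lk t) s
  | .comp a b, s => a.sev (b.sev s)
  | .add a b, s => sadd (a.sev s) (b.sev s)
  | .sub a b, s => sadd (a.sev s) (sscale 1 (-1) (b.sev s))
  | .sc m a, s => sscale m 1 (a.sev s)
  | .lm a, s => tmulS a s
  | .rm a, s => tmulS s a
  | .oT l, s => sopT l s
  | .oM l, s => sopM l s
  | .pT p, s => sactP sopT p s

theorem LX.ev_evT (e : LX) (s : SV) : e.ev (evS bT s) = evS bT (e.sev s) := by
  induction e generalizing s with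
  | one => rfl
  | tab t => exact linT_evT bT t s
  | comp a b iha ihb => simp only [LX.ev, LX.sev, LinearMap.comp_apply, iha, ihb]
  | add a b iha ihb => simp only [LX.ev, LX.sev, LinearMap.add_apply, iha, ihb, evS_sadd]
  | sub a b iha ihb =>
    simp only [LX.ev, LX.sev, LinearMap.sub_apply, iha, ihb, evS_sadd, evS_sscale, evM_one,
      one_smul, neg_smul]
    exact sub_eq_add_neg _ _
  | sc m a iha =>
    simp only [LX.ev, LX.sev, LinearMap.smul_apply, iha, evS_sscale, one_smul]
  | lm a => exact evT_tmulS a s
  | rm a => exact evT_tmulS s a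
  | oT l => exact opT_evT l s
  | oM l => exact opM_evT l s
  | pT p => exact actPL_evT opT sopT opT_evT p s

def allLt (n : ℕ) (f : ℕ → Bool) : Bool := (List.range n).all f

theorem allLt_spec {n : ℕ} {f : ℕ → Bool} (h : allLt n f = true) (j : ℕ) (hj : j < n) :
    f j = true := List.all_eq_true.1 h j (List.mem_range.2 hj)

/-- Test that two expressions agree on the basis. -/
def LX.chk (a b : LX) : Bool := allLt 8 fun j => ((LX.sub a b).sev (sbas j)).isEmpty

theorem LX.eq_of_chk {a b : LX} (h : LX.chk a b = true) (v : TT) : a.ev v = b.ev v := by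
  have h1 : a.ev = b.ev := by
    refine TT.lin_ext fun j hj => ?_
    have h2 := List.isEmpty_iff.1 (allLt_spec h j hj)
    have h3 := (LX.sub a b).ev_evT (sbas j)
    rw [h2, evS_sbas] at h3
    exact sub_eq_zero.1 h3
  rw [h1]

/-- Test that two sparse vectors agree. -/
def seq (a b : SV) : Bool := (sadd a (sscale 1 (-1) b)).isEmpty

theorem evS_of_seq {W : Type} [AddCommGroup W] [Module RR W] (bs : ℕ → W) {a b : SV}
    (h : seq a b = true) : evS bs a = evS bs b := by
  have h1 := evS_sadd bs a (sscale 1 (-1) b)
  rw [List.isEmpty_iff.1 h, evS_sscale, evM_one, one_smul, neg_one_smul, evS_nil] at h1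
  exact eq_of_sub_eq_zero (by rw [sub_eq_add_neg]; exact h1.symm)

/-! ### Alternativity -/

theorem chkAltL : allLt 8 (fun i => allLt 8 fun j =>
    LX.chk (.add (.lm (tmulS (sbas i) (sbas j))) (.lm (tmulS (sbas j) (sbas i))))
      (.add (.comp (.lm (sbas i)) (.lm (sbas j))) (.comp (.lm (sbas j)) (.lm (sbas i))))) = true := by
  decide +kernel

theorem chkAltR : allLt 8 (fun i => allLt 8 fun j =>
    LX.chk (.add (.rm (tmulS (sbas i) (sbas j))) (.rm (tmulS (sbas j) (sbas i))))
      (.add (.comp (.rm (sbas i)) (.rm (sbas j))) (.comp (.rm (sbas j)) (.rm (sbas i))))) = true := by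
  decide +kernel

theorem TT.two_cancel {v : TT} (h : v + v = 0) : v = 0 :=
  TT.smul_eq_zero (r := 2) two_ne_zero (by rw [two_smul]; exact h)

theorem add4 {G : Type} [AddCommGroup G] {a b c d e f g h : G} (h1 : a + b = c + d)
    (h2 : e + f = g + h) : a + e + (b + f) = c + g + (d + h) := by
  rw [add_add_add_comm, h1, h2, add_add_add_comm]

theorem TT.linL (w u v : TT) : u * v * w + v * u * w = u * (v * w) + v * (u * w) := by
  induction u using TT.ind with
  | hb i hi =>
    induction v using TT.ind with
    | hb j hj =>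
      have := LX.eq_of_chk (allLt_spec (allLt_spec chkAltL i hi) j hj) w
      simpa only [LX.ev, LinearMap.add_apply, LinearMap.comp_apply, ← evT_tmulS, evS_sbas,
        ← TT.mul_def] using this
    | h0 => simp
    | hadd a b ha hb =>
      simp only [add_mul, mul_add]
      exact add4 ha hb
    | hsm r a ha => simp only [TT.smul_mul, TT.mul_smul, ← smul_add, ha]
  | h0 => simp
  | hadd a b ha hb =>
    simp only [add_mul, mul_add]
    exact add4 ha hb
  | hsm r a ha => simp only [TT.smul_mul, TT.mul_smul, ← smul_add, ha]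

theorem TT.linR (w u v : TT) : w * (u * v) + w * (v * u) = w * u * v + w * v * u := by
  induction u using TT.ind with
  | hb i hi =>
    induction v using TT.ind with
    | hb j hj =>
      have := LX.eq_of_chk (allLt_spec (allLt_spec chkAltR i hi) j hj) w
      simp only [LX.ev, LinearMap.add_apply, LinearMap.comp_apply, ← evT_tmulS, evS_sbas,
        LinearMap.flip_apply, ← TT.mul_def] at this
      rw [this, add_comm]
    | h0 => simp
    | hadd a b ha hb =>
      simp only [add_mul, mul_add]
      exact add4 ha hb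
    | hsm r a ha => simp only [TT.smul_mul, TT.mul_smul, ← smul_add, ha]
  | h0 => simp
  | hadd a b ha hb =>
    simp only [add_mul, mul_add]
    exact add4 ha hb
  | hsm r a ha => simp only [TT.smul_mul, TT.mul_smul, ← smul_add, ha]

theorem TT.isAlt : IsAlt TT where
  l x y := by
    refine sub_eq_zero.1 (TT.two_cancel ?_)
    rw [sub_add_sub_comm, TT.linL, sub_self]
  r x y := by
    refine sub_eq_zero.1 (TT.two_cancel ?_)
    rw [sub_add_sub_comm, TT.linR, sub_self]

end Pool.Agent.Lib.MP_625934_al
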