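import Pool.Agent.Lib.MP_625934_al.Engine

set_option autoImplicit false

namespace Pool.Agent.Lib.MP_625934_al

def tabT0 : List SV :=
  [[(1, 0, 1)],
   [(1, 1, 1)],
   [(1, 2, 1)],
   [(1, 3, 1)],
   [(1, 4, 1)],
   [(1, 5, 1)],
   [(1, 6, 1)],
   [(1, 7, 1)]]

def tabT1 : List SV :=
  [[(1, 1, 1)],
   [(2, 1, 1), (7, 0, -1)],
   [(1, 4, 1)],
   [(1, 5, 1)],
   [(2, 4, 1), (7, 2, -1)],
   [(2, 5, 1), (7, 3, -1)],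
   [(1, 7, -1), (2, 6, 1), (3, 5, 1), (5, 4, 1), (6, 3, -1), (15, 1, -1), (17, 3, 1), (19, 2,
    -1), (23, 1, 1), (29, 0, 1), (30, 0, 1), (46, 0, -1), (85, 0, -1)],
   [(7, 6, 1), (10, 4, 1), (17, 5, 1), (19, 4, -1), (21, 3, -1), (29, 1, 1), (35, 2, -1), (85, 1,
    -1), (105, 0, 1), (161, 0, -1)]]

def tabT2 : List SV :=
  [[(1, 2, 1)],
   [(1, 4, -1), (2, 2, 1), (3, 1, 1), (6, 0, -1), (17, 0, 1)],
   [(3, 2, 1), (11, 0, -1)],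
   [(1, 6, 1)],
   [(11, 1, 1), (17, 2, 1), (22, 0, -1)],
   [(1, 7, 1), (5, 4, -1), (15, 1, 1), (19, 2, 1), (23, 1, -1), (29, 0, -1), (30, 0, -1), (46, 0,
    1), (85, 0, 1)],
   [(3, 6, 1), (11, 3, -1)],
   [(3, 7, 1), (11, 5, -1), (23, 4, -1), (29, 2, 1), (55, 1, 1), (87, 0, -1), (110, 0, -1), (209,
    0, 1), (391, 0, 1)]]

def tabT3 : List SV :=
  [[(1, 3, 1)],
   [(1, 5, -1), (2, 3, 1), (5, 1, 1), (10, 0, -1), (19, 0, 1)],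
   [(1, 6, -1), (3, 3, 1), (5, 2, 1), (15, 0, -1), (23, 0, 1)],
   [(5, 3, 1), (13, 0, -1)],
   [(1, 7, -1), (5, 4, 1), (17, 3, 1), (29, 0, 1), (85, 0, -1)],
   [(13, 1, 1), (19, 3, 1), (26, 0, -1)],
   [(13, 2, 1), (23, 3, 1), (39, 0, -1)],
   [(13, 4, 1), (29, 3, 1), (221, 0, -1)]]

def tabT4 : List SV :=
  [[(1, 4, 1)],
   [(7, 2, 1), (17, 1, 1), (21, 0, -1)],
   [(3, 4, 1), (11, 1, -1)],
   [(1, 7, 1)],
   [(17, 4, 1), (77, 0, -1)],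
   [(2, 7, 1), (7, 6, -1), (10, 4, -1), (19, 4, 1), (29, 1, -1), (35, 2, 1), (85, 1, 1), (105, 0,
    -1), (161, 0, 1)],
   [(11, 5, 1), (17, 6, 1), (22, 3, -1), (23, 4, 1), (29, 2, -1), (55, 1, -1), (87, 0, 1), (110,
    0, 1), (209, 0, -1), (391, 0, -1)],
   [(17, 7, 1), (77, 3, -1)]]

def tabT5 : List SV :=
  [[(1, 5, 1)],
   [(7, 3, 1), (19, 1, 1), (35, 0, -1)],
   [(1, 7, -1), (3, 5, 1), (5, 4, 1), (15, 1, -1), (23, 1, 1)],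
   [(5, 5, 1), (13, 1, -1)],
   [(2, 7, -1), (7, 6, 1), (10, 4, 1), (17, 5, 1), (29, 1, 1), (35, 2, -1), (85, 1, -1)],
   [(19, 5, 1), (91, 0, -1)],
   [(5, 7, -1), (13, 4, -1), (15, 5, 1), (19, 6, 1), (25, 4, 1), (26, 2, 1), (29, 3, -1), (30, 3,
    -1), (46, 3, 1), (75, 1, -1), (78, 0, -1), (85, 3, 1), (95, 2, -1), (115, 1, 1), (145, 0, 1),
    (150, 0, 1), (221, 0, 1), (230, 0, -1), (425, 0, -1)],
   [(10, 7, -1), (19, 7, 1), (35, 6, 1), (50, 4, 1), (85, 5, 1), (91, 2, 1), (95, 4, -1), (105,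
    3, -1), (145, 1, 1), (161, 3, 1), (175, 2, -1), (273, 0, -1), (425, 1, -1), (525, 0, 1), (805,
    0, -1)]]

def tabT6 : List SV :=
  [[(1, 6, 1)],
   [(1, 7, 1), (3, 5, -1), (5, 4, -1), (6, 3, 1), (15, 1, 1), (17, 3, -1), (19, 2, 1), (30, 0,
    -1), (85, 0, 1)],
   [(11, 3, 1), (23, 2, 1), (55, 0, -1)],
   [(5, 6, 1), (13, 2, -1)],
   [(11, 5, -1), (22, 3, 1), (29, 2, 1), (55, 1, 1), (110, 0, -1)],
   [(5, 7, 1), (13, 4, 1), (15, 5, -1), (23, 5, 1), (25, 4, -1), (26, 2, -1), (29, 3, 1), (30, 3,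
    1), (46, 3, -1), (75, 1, 1), (85, 3, -1), (95, 2, 1), (115, 1, -1), (145, 0, -1), (150, 0,
    -1), (230, 0, 1), (425, 0, 1)],
   [(23, 6, 1), (143, 0, -1)],
   [(23, 7, 1), (39, 4, 1), (55, 5, -1), (87, 3, 1), (110, 3, 1), (115, 4, -1), (143, 1, -1),
    (145, 2, 1), (209, 3, -1), (221, 2, -1), (275, 1, 1), (391, 3, -1), (435, 0, -1), (550, 0,
    -1), (1045, 0, 1), (1955, 0, 1)]]

def tabT7 : List SV :=
  [[(1, 7, 1)],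
   [(2, 7, 1), (7, 6, -1), (10, 4, -1), (17, 5, -1), (19, 4, 1), (21, 3, 1), (35, 2, 1), (85, 1,
    1), (105, 0, -1)],
   [(11, 5, 1), (23, 4, 1), (55, 1, -1)],
   [(5, 7, 1), (13, 4, -1)],
   [(29, 4, 1), (77, 3, 1), (385, 0, -1)],
   [(10, 7, 1), (29, 5, 1), (35, 6, -1), (50, 4, -1), (85, 5, -1), (91, 2, -1), (95, 4, 1), (105,
    3, 1), (145, 1, -1), (161, 3, -1), (175, 2, 1), (425, 1, 1), (525, 0, -1), (805, 0, 1)],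
   [(29, 6, 1), (39, 4, -1), (55, 5, 1), (87, 3, -1), (110, 3, -1), (115, 4, 1), (143, 1, 1),
    (145, 2, -1), (209, 3, 1), (221, 2, 1), (275, 1, -1), (286, 0, -1), (391, 3, 1), (435, 0, 1),
    (550, 0, 1), (1045, 0, -1), (1955, 0, -1)],
   [(29, 7, 1), (1001, 0, -1)]]

/-- The multiplication table. -/
def tabT : List (List SV) := [tabT0, tabT1, tabT2, tabT3, tabT4, tabT5, tabT6, tabT7]

def tabM0 : List SV :=
  [[(1, 1, 1)],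
   [(2, 1, 1), (7, 0, -1)],
   [(1, 4, 1)],
   [(1, 5, 1)],
   [(2, 4, 1), (7, 2, -1)],
   [(2, 5, 1), (7, 3, -1)],
   [(1, 7, 1)],
   [(2, 7, 1), (7, 6, -1)]]

def tabM1 : List SV :=
  [[(1, 2, 1)],
   [(1, 4, -1), (2, 2, 1), (3, 1, 1), (6, 0, -1), (17, 0, 1)],
   [(3, 2, 1), (11, 0, -1)],
   [(1, 6, 1)],
   [(11, 1, 1), (17, 2, 1), (22, 0, -1)],
   [(1, 7, -1), (2, 6, 1), (3, 5, 1), (6, 3, -1), (17, 3, 1)],
   [(3, 6, 1), (11, 3, -1)],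
   [(11, 5, 1), (17, 6, 1), (22, 3, -1)]]

def tabM2 : List SV :=
  [[(1, 3, 1)],
   [(1, 5, -1), (2, 3, 1), (5, 1, 1), (10, 0, -1), (19, 0, 1)],
   [(1, 6, -1), (3, 3, 1), (5, 2, 1), (15, 0, -1), (23, 0, 1)],
   [(5, 3, 1), (13, 0, -1)],
   [(1, 7, 1), (2, 6, -1), (3, 5, -1), (6, 3, 1), (15, 1, 1), (19, 2, 1), (23, 1, -1), (30, 0,
    -1), (46, 0, 1)],
   [(13, 1, 1), (19, 3, 1), (26, 0, -1)],
   [(13, 2, 1), (23, 3, 1), (39, 0, -1)],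
   [(5, 7, 1), (10, 6, -1), (13, 4, -1), (19, 6, 1), (23, 5, -1), (26, 2, 1), (39, 1, 1), (46, 3,
    1), (78, 0, -1)]]

def tabM3 : List SV :=
  [[(1, 1, -1), (2, 0, 1)],
   [(7, 0, 1)],
   [(1, 4, -1), (2, 2, 1)],
   [(1, 5, -1), (2, 3, 1)],
   [(7, 2, 1)],
   [(7, 3, 1)],
   [(1, 7, 1), (3, 5, -1), (5, 4, -1), (6, 3, 1), (15, 1, 1), (17, 3, -1), (19, 2, 1), (23, 1,
    -1), (29, 0, -1), (30, 0, -1), (46, 0, 1), (85, 0, 1)],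
   [(2, 7, 1), (7, 6, -1), (10, 4, -1), (17, 5, -1), (19, 4, 1), (21, 3, 1), (29, 1, -1), (35, 2,
    1), (85, 1, 1), (105, 0, -1), (161, 0, 1)]]

def tabM4 : List SV :=
  [[(1, 2, -1), (3, 0, 1)],
   [(1, 4, 1), (2, 2, -1), (6, 0, 1), (17, 0, -1)],
   [(11, 0, 1)],
   [(1, 6, -1), (3, 3, 1)],
   [(3, 4, 1), (11, 1, -1), (17, 2, -1), (22, 0, 1)],
   [(1, 7, -1), (3, 5, 1), (5, 4, 1), (15, 1, -1), (19, 2, -1), (23, 1, 1), (29, 0, 1), (30, 0,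
    1), (46, 0, -1), (85, 0, -1)],
   [(11, 3, 1)],
   [(11, 5, 1), (23, 4, 1), (29, 2, -1), (55, 1, -1), (87, 0, 1), (110, 0, 1), (209, 0, -1),
    (391, 0, -1)]]

def tabM5 : List SV :=
  [[(1, 3, -1), (5, 0, 1)],
   [(1, 5, 1), (2, 3, -1), (10, 0, 1), (19, 0, -1)],
   [(1, 6, 1), (3, 3, -1), (15, 0, 1), (23, 0, -1)],
   [(13, 0, 1)],
   [(1, 7, 1), (17, 3, -1), (29, 0, -1), (85, 0, 1)],
   [(5, 5, 1), (13, 1, -1), (19, 3, -1), (26, 0, 1)],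
   [(5, 6, 1), (13, 2, -1), (23, 3, -1), (39, 0, 1)],
   [(5, 7, 1), (13, 4, -1), (29, 3, -1), (221, 0, 1)]]

/-- The operators in coordinates. -/
def tabM : List (List SV) := [tabM0, tabM1, tabM2, tabM3, tabM4, tabM5]

def sDelta : SV :=
  [(1, 7, 2), (2, 6, -1), (3, 5, -1), (5, 4, -1), (6, 3, 1), (15, 1, 1), (17, 3, -1), (19, 2,
    1), (23, 1, -1), (29, 0, -1), (30, 0, -1), (46, 0, 1), (85, 0, 1)]

def sDelta2 : SV :=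
  [(572, 0, 1), (819, 0, 1), (841, 0, 1), (870, 0, 1), (1001, 0, -4), (1326, 0, -1), (1334, 0,
    -1), (1653, 0, -1), (1925, 0, 1), (2090, 0, -1), (2415, 0, -1), (2465, 0, -1), (3703, 0, 1),
    (3757, 0, 1), (3971, 0, 1), (7429, 0, 1)]

def tabGxy : List SV :=
  [[],
   [],
   [],
   [(1, 0, 1)],
   [],
   [(1, 1, 1)],
   [(1, 2, 1)],
   [(1, 4, -1), (2, 2, 1), (3, 1, 1), (6, 0, -1), (17, 0, 1)]]

def tabGyz : List SV :=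
  [[],
   [(1, 0, 1)],
   [],
   [],
   [(1, 2, -1), (3, 0, 1)],
   [(1, 3, -1), (5, 0, 1)],
   [],
   [(1, 6, -1), (23, 0, 1)]]

def tabGxz : List SV :=
  [[],
   [],
   [(1, 0, -1)],
   [],
   [(1, 1, -1)],
   [],
   [(1, 3, 1), (5, 0, -1)],
   [(1, 5, -1), (2, 3, 1), (10, 0, -1), (19, 0, 1)]]

def tabA : List SV :=
  [[],
   [],
   [(1, 0, 1)],
   [],
   [(1, 1, 1)],
   [],
   [(1, 3, -1), (5, 0, 1)],
   [(1, 5, 1), (2, 3, -1), (10, 0, 1), (19, 0, -1)]]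

def tabB : List SV :=
  [[],
   [(1, 0, -1)],
   [],
   [],
   [(1, 2, 1), (3, 0, -1)],
   [(1, 3, 1), (5, 0, -1)],
   [],
   [(1, 6, 1), (23, 0, -1)]]

def tabP : List SV :=
  [[],
   [],
   [],
   [(1, 3, -1)],
   [],
   [(1, 5, 1), (2, 3, -1), (5, 1, -1), (10, 0, 1), (19, 0, -1)],
   [(1, 6, 1), (3, 3, -1), (5, 2, -1), (15, 0, 1), (23, 0, -1)],
   [(1, 7, 1), (10, 2, -1), (17, 3, -1), (19, 2, 1), (23, 1, -1), (30, 0, 1), (57, 0, -1)]]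

def tabL1 : List SV :=
  [[(1, 3, 1)],
   [(1, 5, 1)],
   [(1, 6, 1)],
   [],
   [(1, 7, -1), (2, 6, 1), (3, 5, 1), (6, 3, -1), (17, 3, 1)],
   [],
   [],
   []]

def tabL2 : List SV :=
  [[(1, 1, 1)],
   [],
   [(1, 4, -1), (3, 1, 1)],
   [(5, 1, 1)],
   [],
   [],
   [(23, 1, 1)],
   []]

def tabL3 : List SV :=
  [[(1, 2, -1)],
   [],
   [],
   [(5, 2, -1)],
   [],
   [(19, 2, -1)],
   [],
   []]

def tauL : List FP :=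
  [[([0], 1), ([3], 1)],
   [([1], 1), ([4], 1)],
   [([2], 1), ([5], 1)],
   [([3, 0], 1)],
   [([4, 1], 1)],
   [([5, 2], 1)],
   [([1, 0], 1), ([4, 0], 1), ([4, 3], 1), ([0, 4], -1)],
   [([2, 0], 1), ([5, 0], 1), ([5, 3], 1), ([0, 5], -1)],
   [([2, 1], 1), ([5, 1], 1), ([5, 4], 1), ([1, 5], -1)],
   [([2, 1, 0], -1), ([2, 4, 0], -1), ([5, 0, 1], -1), ([1, 0, 2], 1), ([4, 0, 2], 1), ([0, 1,
    2], 1), ([4, 3, 2], 1), ([0, 4, 2], -1), ([2, 4, 3], -1), ([2, 0, 4], 1), ([1, 0, 5], 1), ([4,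
    0, 5], 1), ([4, 3, 5], 1), ([0, 4, 5], -1)]]

def tabPar : List SV :=
  [[],
   [(1, 0, 1)],
   [(1, 1, 1)],
   [(1, 2, 1)],
   [(1, 16, 1)],
   [(1, 24, 1)],
   [(1, 25, 1)],
   [(1, 48, 1)]]

def basW : List (List ℕ) := [[], [0], [1], [2], [0, 1], [0, 2], [1, 2], [0, 1, 2]]

end Pool.Agent.Lib.MP_625934_al
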